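import Pool.Agent.Lib_helper87.Coh.Euler

/-!
# Stability, and representations given by matrices
-/

namespace CohP1

open Module

/-- Stability: every subrepresentation (injective morphism from `A`), neither zero nor everything,
has smaller slope. -/
def Stable (α : ℝ) (M : QRep) : Prop :=
  M.ty ≠ 0 ∧ ∀ (A : QRep) (i : Hom A M), i.Inj → A.ty ≠ 0 → A.ty ≠ M.ty → cr α A.ty M.ty < 0

/-- Semistability. -/
def Semistable (α : ℝ) (M : QRep) : Prop :=
  ∀ (A : QRep) (i : Hom A M), i.Inj → cr α A.ty M.ty ≤ 0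

/-- Index set of the entries of the three matrices. -/
abbrev Idx (k w u : ℕ) := (Fin w × Fin k) ⊕ (Fin w × Fin u) ⊕ (Fin w × Fin u)

/-- The representation with given matrices. -/
noncomputable def ofCoord {k w u : ℕ} (p : Idx k w u → ℂ) : QRep where
  V := Fin k → ℂ
  W := Fin w → ℂ
  U := Fin u → ℂ
  f := Matrix.toLin' (Matrix.of fun i j => p (Sum.inl (i, j)))
  x := Matrix.toLin' (Matrix.of fun i j => p (Sum.inr (Sum.inl (i, j))))
  y := Matrix.toLin' (Matrix.of fun i j => p (Sum.inr (Sum.inr (i, j))))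

lemma ty_ofCoord {k w u : ℕ} (p : Idx k w u → ℂ) : (ofCoord p).ty = ((k : ℤ), (w : ℤ), (u : ℤ)) := by
  show ((finrank ℂ (Fin k → ℂ) : ℤ), (finrank ℂ (Fin w → ℂ) : ℤ), (finrank ℂ (Fin u → ℂ) : ℤ)) = _
  simp

/-- Algebraically independent matrix entries. -/
def Gen {k w u : ℕ} (p : Idx k w u → ℂ) : Prop := AlgebraicIndependent ℚ p

end CohP1
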