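import Pool.Agent.Lib_helper87.Coh.System

/-!
# Admissible types
-/

namespace CohP1

/-- The Euler form of two types `(n,d,k)`, `(n',d',k')`. -/
def euler (n d k n' d' k' : ℕ) : ℤ :=
  (n : ℤ) * n' - k * ((n' : ℤ) + d' - k') + ((n : ℤ) * d' - d * n')

/-- `α`-admissible types `(n,d,k)`: recursion over the smaller admissible types `(n',d',k')` with
`euler = 1`. -/
def Adm (α : ℝ) (n d k : ℕ) : Prop :=
  euler n d k n d k ≤ 1 ∧ (euler n d k n d k = 0 → Nat.gcd n (Nat.gcd d k) = 1) ∧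
  ∀ n' d' k' : ℕ, 1 ≤ n' → k' ≤ k → d' ≤ d → n' + d' ≤ n + d → (n', d', k') ≠ (n, d, k) →
    euler n' d' k' n' d' k' = 1 → Adm α n' d' k' →
    (slope α n d k ≤ slope α n' d' k' → euler n' d' k' n d k ≤ 0) ∧
    (slope α n' d' k' ≤ slope α n d k → euler n d k n' d' k' ≤ 0)
termination_by n + 2 * d + k
decreasing_by
  simp only [ne_eq, Prod.mk.injEq, not_and] at *
  omega

end CohP1
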