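import Mathlib

/-!
# Representations of the quiver `1 → 2 ⇇ 3`

Basic notions: morphisms, kernels, images, cokernels, dimension types, Euler form, slope stability.
-/

namespace CohP1

open Module

/-- A finite dimensional representation of the quiver `1 → 2 ⇇ 3` over `ℂ`. -/
structure QRep where
  V : Type
  W : Type
  U : Type
  [iV : AddCommGroup V]
  [iW : AddCommGroup W]
  [iU : AddCommGroup U]
  [mV : Module ℂ V]
  [mW : Module ℂ W]
  [mU : Module ℂ U]
  [fV : FiniteDimensional ℂ V]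
  [fW : FiniteDimensional ℂ W]
  [fU : FiniteDimensional ℂ U]
  f : V →ₗ[ℂ] W
  x : U →ₗ[ℂ] W
  y : U →ₗ[ℂ] W

attribute [instance] QRep.iV QRep.iW QRep.iU QRep.mV QRep.mW QRep.mU QRep.fV QRep.fW QRep.fU

/-- Dimension types. -/
abbrev Ty := ℤ × ℤ × ℤ

/-- The dimension type of a representation. -/
noncomputable def QRep.ty (M : QRep) : Ty := (finrank ℂ M.V, finrank ℂ M.W, finrank ℂ M.U)

/-- The Euler form. -/
def chi (p q : Ty) : ℤ := p.1 * q.1 + p.2.1 * q.2.1 + p.2.2 * q.2.2 - p.1 * q.2.1 - 2 * p.2.2 * q.2.1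

/-- The rank of a type. -/
def rk (p : Ty) : ℤ := p.2.1 - p.2.2

/-- The numerator `d + α k` of the slope. -/
noncomputable def lam (α : ℝ) (p : Ty) : ℝ := p.2.2 + α * p.1

/-- Comparison of slopes: `0 < cr α p q` iff the slope of `p` is larger than that of `q`. -/
noncomputable def cr (α : ℝ) (p q : Ty) : ℝ := lam α p * rk q - lam α q * rk p

/-- A positive denominator. -/
noncomputable def rho (α : ℝ) (p : Ty) : ℝ := p.2.1 + p.2.2 + 2 * α * p.1

/-- The phase function. -/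
noncomputable def nu (α : ℝ) (p : Ty) : ℝ := lam α p / rho α p

/-- Morphisms of representations. -/
structure Hom (M N : QRep) where
  v : M.V →ₗ[ℂ] N.V
  w : M.W →ₗ[ℂ] N.W
  u : M.U →ₗ[ℂ] N.U
  hf : w ∘ₗ M.f = N.f ∘ₗ v
  hx : w ∘ₗ M.x = N.x ∘ₗ u
  hy : w ∘ₗ M.y = N.y ∘ₗ u

namespace Hom

variable {L M N : QRep}

def Inj (h : Hom M N) : Prop :=
  Function.Injective h.v ∧ Function.Injective h.w ∧ Function.Injective h.u

def Surj (h : Hom M N) : Prop :=
  Function.Surjective h.v ∧ Function.Surjective h.w ∧ Function.Surjective h.u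

def IsZero (h : Hom M N) : Prop := h.v = 0 ∧ h.w = 0 ∧ h.u = 0

lemma hf' (h : Hom M N) (a : M.V) : h.w (M.f a) = N.f (h.v a) := LinearMap.congr_fun h.hf a
lemma hx' (h : Hom M N) (a : M.U) : h.w (M.x a) = N.x (h.u a) := LinearMap.congr_fun h.hx a
lemma hy' (h : Hom M N) (a : M.U) : h.w (M.y a) = N.y (h.u a) := LinearMap.congr_fun h.hy a

/-- Composition. -/
def comp (g : Hom M N) (h : Hom L M) : Hom L N where
  v := g.v ∘ₗ h.v
  w := g.w ∘ₗ h.w
  u := g.u ∘ₗ h.u
  hf := by ext a; simp [hf']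
  hx := by ext a; simp [hx']
  hy := by ext a; simp [hy']

/-- The identity. -/
def id (M : QRep) : Hom M M where
  v := LinearMap.id
  w := LinearMap.id
  u := LinearMap.id
  hf := rfl
  hx := rfl
  hy := rfl

lemma Inj.comp {g : Hom M N} {h : Hom L M} (hg : g.Inj) (hh : h.Inj) : (g.comp h).Inj :=
  ⟨hg.1.comp hh.1, hg.2.1.comp hh.2.1, hg.2.2.comp hh.2.2⟩

lemma Surj.comp {g : Hom M N} {h : Hom L M} (hg : g.Surj) (hh : h.Surj) : (g.comp h).Surj :=
  ⟨hg.1.comp hh.1, hg.2.1.comp hh.2.1, hg.2.2.comp hh.2.2⟩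

lemma id_inj (M : QRep) : (Hom.id M).Inj :=
  ⟨Function.injective_id, Function.injective_id, Function.injective_id⟩

lemma id_surj (M : QRep) : (Hom.id M).Surj :=
  ⟨Function.surjective_id, Function.surjective_id, Function.surjective_id⟩

/-- The kernel. -/
def ker (h : Hom M N) : QRep where
  V := LinearMap.ker h.v
  W := LinearMap.ker h.w
  U := LinearMap.ker h.u
  f := M.f.restrict (fun a ha => by rw [LinearMap.mem_ker] at ha ⊢; rw [h.hf', ha, map_zero])
  x := M.x.restrict (fun a ha => by rw [LinearMap.mem_ker] at ha ⊢; rw [h.hx', ha, map_zero])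
  y := M.y.restrict (fun a ha => by rw [LinearMap.mem_ker] at ha ⊢; rw [h.hy', ha, map_zero])

def kerι (h : Hom M N) : Hom h.ker M where
  v := (LinearMap.ker h.v).subtype
  w := (LinearMap.ker h.w).subtype
  u := (LinearMap.ker h.u).subtype
  hf := rfl
  hx := rfl
  hy := rfl

lemma kerι_inj (h : Hom M N) : h.kerι.Inj :=
  ⟨Subtype.val_injective, Subtype.val_injective, Subtype.val_injective⟩

/-- The image. -/
def im (h : Hom M N) : QRep where
  V := LinearMap.range h.v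
  W := LinearMap.range h.w
  U := LinearMap.range h.u
  f := N.f.restrict (fun a ha => by obtain ⟨b, rfl⟩ := ha; exact ⟨M.f b, h.hf' b⟩)
  x := N.x.restrict (fun a ha => by obtain ⟨b, rfl⟩ := ha; exact ⟨M.x b, h.hx' b⟩)
  y := N.y.restrict (fun a ha => by obtain ⟨b, rfl⟩ := ha; exact ⟨M.y b, h.hy' b⟩)

def imι (h : Hom M N) : Hom h.im N where
  v := (LinearMap.range h.v).subtype
  w := (LinearMap.range h.w).subtype
  u := (LinearMap.range h.u).subtype
  hf := rfl
  hx := rfl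
  hy := rfl

lemma imι_inj (h : Hom M N) : h.imι.Inj :=
  ⟨Subtype.val_injective, Subtype.val_injective, Subtype.val_injective⟩

def toIm (h : Hom M N) : Hom M h.im where
  v := h.v.rangeRestrict
  w := h.w.rangeRestrict
  u := h.u.rangeRestrict
  hf := LinearMap.ext fun a => Subtype.ext (h.hf' a)
  hx := LinearMap.ext fun a => Subtype.ext (h.hx' a)
  hy := LinearMap.ext fun a => Subtype.ext (h.hy' a)

lemma toIm_surj (h : Hom M N) : h.toIm.Surj :=
  ⟨h.v.surjective_rangeRestrict, h.w.surjective_rangeRestrict, h.u.surjective_rangeRestrict⟩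

/-- The cokernel. -/
def coker (h : Hom M N) : QRep where
  V := N.V ⧸ LinearMap.range h.v
  W := N.W ⧸ LinearMap.range h.w
  U := N.U ⧸ LinearMap.range h.u
  f := Submodule.mapQ _ _ N.f (by rintro a ⟨b, rfl⟩; exact ⟨M.f b, h.hf' b⟩)
  x := Submodule.mapQ _ _ N.x (by rintro a ⟨b, rfl⟩; exact ⟨M.x b, h.hx' b⟩)
  y := Submodule.mapQ _ _ N.y (by rintro a ⟨b, rfl⟩; exact ⟨M.y b, h.hy' b⟩)

def cokerπ (h : Hom M N) : Hom N h.coker where
  v := (LinearMap.range h.v).mkQ
  w := (LinearMap.range h.w).mkQ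
  u := (LinearMap.range h.u).mkQ
  hf := rfl
  hx := rfl
  hy := rfl

lemma cokerπ_surj (h : Hom M N) : h.cokerπ.Surj :=
  ⟨Submodule.mkQ_surjective _, Submodule.mkQ_surjective _, Submodule.mkQ_surjective _⟩

/-! ### Dimension types -/

lemma ty_ker_eq (h : Hom M N) : h.ker.ty = ((finrank ℂ (LinearMap.ker h.v) : ℤ),
    (finrank ℂ (LinearMap.ker h.w) : ℤ), (finrank ℂ (LinearMap.ker h.u) : ℤ)) := rfl

lemma ty_im_eq (h : Hom M N) : h.im.ty = ((finrank ℂ (LinearMap.range h.v) : ℤ),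
    (finrank ℂ (LinearMap.range h.w) : ℤ), (finrank ℂ (LinearMap.range h.u) : ℤ)) := rfl

lemma ty_coker_eq (h : Hom M N) : h.coker.ty = ((finrank ℂ (N.V ⧸ LinearMap.range h.v) : ℤ),
    (finrank ℂ (N.W ⧸ LinearMap.range h.w) : ℤ), (finrank ℂ (N.U ⧸ LinearMap.range h.u) : ℤ)) := rfl

lemma ty_ker_im (h : Hom M N) : M.ty = h.ker.ty + h.im.ty := by
  have hv := h.v.finrank_range_add_finrank_ker
  have hw := h.w.finrank_range_add_finrank_ker
  have hu := h.u.finrank_range_add_finrank_ker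
  rw [ty_ker_eq, ty_im_eq, QRep.ty]
  simp only [Prod.mk_add_mk, Prod.mk.injEq]
  refine ⟨?_, ?_, ?_⟩ <;> omega

lemma ty_coker (h : Hom M N) : h.coker.ty = N.ty - h.im.ty := by
  have hv := (LinearMap.range h.v).finrank_quotient_add_finrank
  have hw := (LinearMap.range h.w).finrank_quotient_add_finrank
  have hu := (LinearMap.range h.u).finrank_quotient_add_finrank
  rw [ty_coker_eq, ty_im_eq, QRep.ty]
  simp only [Prod.mk_sub_mk, Prod.mk.injEq]
  refine ⟨?_, ?_, ?_⟩ <;> omega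

lemma ty_im_of_inj {h : Hom M N} (hi : h.Inj) : h.im.ty = M.ty := by
  rw [ty_im_eq, QRep.ty]
  simp only [Prod.mk.injEq, Nat.cast_inj]
  exact ⟨LinearMap.finrank_range_of_inj hi.1, LinearMap.finrank_range_of_inj hi.2.1,
    LinearMap.finrank_range_of_inj hi.2.2⟩

lemma ty_im_of_surj {h : Hom M N} (hi : h.Surj) : h.im.ty = N.ty := by
  rw [ty_im_eq, QRep.ty]
  simp only [Prod.mk.injEq, Nat.cast_inj]
  refine ⟨?_, ?_, ?_⟩
  · rw [LinearMap.range_eq_top.2 hi.1, finrank_top]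
  · rw [LinearMap.range_eq_top.2 hi.2.1, finrank_top]
  · rw [LinearMap.range_eq_top.2 hi.2.2, finrank_top]

lemma ty_coker_of_inj {h : Hom M N} (hi : h.Inj) : h.coker.ty = N.ty - M.ty := by
  rw [ty_coker, ty_im_of_inj hi]

lemma ty_ker_of_surj {h : Hom M N} (hi : h.Surj) : h.ker.ty = M.ty - N.ty := by
  rw [ty_ker_im h, ty_im_of_surj hi, add_sub_cancel_right]

end Hom

namespace QRep

variable (M : QRep)

lemma ty_nonneg : 0 ≤ M.ty.1 ∧ 0 ≤ M.ty.2.1 ∧ 0 ≤ M.ty.2.2 := by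
  simp [ty]

end QRep

/-- Componentwise order of types. -/
def TyLE (p q : Ty) : Prop := p.1 ≤ q.1 ∧ p.2.1 ≤ q.2.1 ∧ p.2.2 ≤ q.2.2

/-- Nonnegative types. -/
def Pos (p : Ty) : Prop := 0 ≤ p.1 ∧ 0 ≤ p.2.1 ∧ 0 ≤ p.2.2

/-- Total dimension. -/
def tot (p : Ty) : ℤ := p.1 + p.2.1 + p.2.2

lemma QRep.pos (M : QRep) : Pos M.ty := M.ty_nonneg

lemma Pos.tot_pos {p : Ty} (hp : Pos p) (h0 : p ≠ 0) : 0 < tot p := by
  obtain ⟨a, b, c⟩ := p
  simp only [Pos, tot, ne_eq, Prod.mk_eq_zero, not_and] at *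
  omega

lemma tot_add (p q : Ty) : tot (p + q) = tot p + tot q := by simp [tot]; ring
lemma tot_sub (p q : Ty) : tot (p - q) = tot p - tot q := by simp [tot]; ring

namespace Hom

variable {M N : QRep}

lemma Inj.tyLE {h : Hom M N} (hi : h.Inj) : TyLE M.ty N.ty := by
  refine ⟨?_, ?_, ?_⟩ <;> simp only [QRep.ty, Nat.cast_le]
  · exact LinearMap.finrank_le_finrank_of_injective hi.1
  · exact LinearMap.finrank_le_finrank_of_injective hi.2.1
  · exact LinearMap.finrank_le_finrank_of_injective hi.2.2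

lemma Surj.tyLE {h : Hom M N} (hi : h.Surj) : TyLE N.ty M.ty := by
  have h1 := ty_ker_of_surj hi
  have h2 := h.ker.pos
  rw [h1] at h2
  obtain ⟨a, b, c⟩ := h2
  simp only [Prod.fst_sub, Prod.snd_sub, sub_nonneg] at a b c
  exact ⟨a, b, c⟩

lemma Inj.surj_of_ty {h : Hom M N} (hi : h.Inj) (ht : M.ty = N.ty) : h.Surj := by
  simp only [QRep.ty, Prod.mk.injEq, Nat.cast_inj] at ht
  exact ⟨(LinearMap.injective_iff_surjective_of_finrank_eq_finrank ht.1).1 hi.1,
    (LinearMap.injective_iff_surjective_of_finrank_eq_finrank ht.2.1).1 hi.2.1,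
    (LinearMap.injective_iff_surjective_of_finrank_eq_finrank ht.2.2).1 hi.2.2⟩

lemma Surj.inj_of_ty {h : Hom M N} (hi : h.Surj) (ht : M.ty = N.ty) : h.Inj := by
  simp only [QRep.ty, Prod.mk.injEq, Nat.cast_inj] at ht
  exact ⟨(LinearMap.injective_iff_surjective_of_finrank_eq_finrank ht.1).2 hi.1,
    (LinearMap.injective_iff_surjective_of_finrank_eq_finrank ht.2.1).2 hi.2.1,
    (LinearMap.injective_iff_surjective_of_finrank_eq_finrank ht.2.2).2 hi.2.2⟩

lemma inj_of_ker_ty {h : Hom M N} (ht : h.ker.ty = 0) : h.Inj := by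
  rw [ty_ker_eq] at ht
  have h1 : finrank ℂ (LinearMap.ker h.v) = 0 := by
    have := congrArg Prod.fst ht; simpa using this
  have h2 : finrank ℂ (LinearMap.ker h.w) = 0 := by
    have := congrArg (fun p => p.2.1) ht; simpa using this
  have h3 : finrank ℂ (LinearMap.ker h.u) = 0 := by
    have := congrArg (fun p => p.2.2) ht; simpa using this
  exact ⟨LinearMap.ker_eq_bot.1 (Submodule.finrank_eq_zero.1 h1),
    LinearMap.ker_eq_bot.1 (Submodule.finrank_eq_zero.1 h2),
    LinearMap.ker_eq_bot.1 (Submodule.finrank_eq_zero.1 h3)⟩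

lemma im_ty_ne_zero {h : Hom M N} (hz : ¬ h.IsZero) : h.im.ty ≠ 0 := by
  intro ht
  apply hz
  rw [ty_im_eq] at ht
  have h1 : finrank ℂ (LinearMap.range h.v) = 0 := by
    have := congrArg Prod.fst ht; simpa using this
  have h2 : finrank ℂ (LinearMap.range h.w) = 0 := by
    have := congrArg (fun p => p.2.1) ht; simpa using this
  have h3 : finrank ℂ (LinearMap.range h.u) = 0 := by
    have := congrArg (fun p => p.2.2) ht; simpa using this
  exact ⟨LinearMap.range_eq_bot.1 (Submodule.finrank_eq_zero.1 h1),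
    LinearMap.range_eq_bot.1 (Submodule.finrank_eq_zero.1 h2),
    LinearMap.range_eq_bot.1 (Submodule.finrank_eq_zero.1 h3)⟩

end Hom

end CohP1
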