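import Pool.Agent.Lib_helper87.Coh.Count
import Pool.Agent.Lib_helper34.Coh.O2
import Pool.Agent.Lib_helper11.Coh.O4

/-!
# The blocks on generic representations
-/

namespace CohP1

open Module

/-- BLOCK O1: openness of stability and density of algebraically independent points. -/
theorem exists_gen_stable {α : ℝ} {M : QRep} (hM : Stable α M) :
    ∃ (k w u : ℕ) (p : Idx k w u → ℂ), Gen p ∧ (ofCoord p).ty = M.ty ∧ Stable α (ofCoord p) :=
  O1.exists_gen_stable hM

/-- BLOCK O2: if `Ext(A,B) = 0`, representations close to `A ⊕ B` have a subrepresentation of the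
type of `A`. -/
theorem exists_gen_sub {A B : QRep} (h : ExtZero A B) :
    ∃ (k w u : ℕ) (p : Idx k w u → ℂ), Gen p ∧ (ofCoord p).ty = A.ty + B.ty ∧
      ∃ (A' : QRep) (i : Hom A' (ofCoord p)), i.Inj ∧ A'.ty = A.ty :=
  O2.exists_gen_sub h

end CohP1
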