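import Pool.Agent.Lib_helper87.Coh.Stab

/-!
# Endomorphisms of stable representations; dependence of stability on the parameter
-/

namespace CohP1

open Module Topology

variable {A B C M N X Y : QRep}

/-- `h - μ`. -/
def Hom.shift (h : Hom M M) (μ : ℂ) : Hom M M where
  v := h.v - μ • LinearMap.id
  w := h.w - μ • LinearMap.id
  u := h.u - μ • LinearMap.id
  hf := by
    ext a
    simp [h.hf']
  hx := by
    ext a
    simp [h.hx']
  hy := by
    ext a
    simp [h.hy']

lemma exists_eigen {V : Type} [AddCommGroup V] [Module ℂ V] [FiniteDimensional ℂ V]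
    (h0 : 0 < finrank ℂ V) (T : V →ₗ[ℂ] V) :
    ∃ μ : ℂ, ¬ Function.Injective (T - μ • (LinearMap.id : V →ₗ[ℂ] V)) := by
  have : Nontrivial V := nontrivial_of_finrank_pos h0
  obtain ⟨μ, hμ⟩ := Module.End.exists_eigenvalue (T : Module.End ℂ V)
  obtain ⟨u, hu⟩ := hμ.exists_hasEigenvector
  refine ⟨μ, fun hi => hu.2 ?_⟩
  apply hi
  have := hu.apply_eq_smul
  simp [this]

/-- Endomorphisms of stable representations are scalars. -/
lemma end_scalar {α : ℝ} (hα : 0 < α) (hM : Stable α M) (h : Hom M M) :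
    ∃ μ : ℂ, (h.shift μ).IsZero := by
  have key : ∀ μ : ℂ, ¬ (h.shift μ).Inj → (h.shift μ).IsZero := by
    intro μ hμ
    by_contra hz
    exact hμ (iso_of_end hα hM hz).1
  by_cases hV : finrank ℂ M.V = 0
  · by_cases hW : finrank ℂ M.W = 0
    · by_cases hU : finrank ℂ M.U = 0
      · exact absurd (by simp [QRep.ty, hV, hW, hU]) hM.1
      · obtain ⟨μ, hμ⟩ := exists_eigen (Nat.pos_of_ne_zero hU) h.u
        exact ⟨μ, key μ fun hi => hμ hi.2.2⟩
    · obtain ⟨μ, hμ⟩ := exists_eigen (Nat.pos_of_ne_zero hW) h.w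
      exact ⟨μ, key μ fun hi => hμ hi.2.1⟩
  · obtain ⟨μ, hμ⟩ := exists_eigen (Nat.pos_of_ne_zero hV) h.v
    exact ⟨μ, key μ fun hi => hμ hi.1⟩

/-- Types of stable representations are roots. -/
lemma chi_le_one {α : ℝ} (hα : 0 < α) (hM : Stable α M) : chi M.ty M.ty ≤ 1 := by
  have h1 : LinearMap.ker (Phi M M) ≤ Submodule.span ℂ {(Hom.id M).pre} := by
    intro p hp
    obtain ⟨μ, h2, h3, h4⟩ := end_scalar hα hM (Hom.ofPre p hp)
    rw [Submodule.mem_span_singleton]
    refine ⟨μ, ?_⟩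
    have e1 : p.1 = μ • LinearMap.id := sub_eq_zero.1 h2
    have e2 : p.2.1 = μ • LinearMap.id := sub_eq_zero.1 h3
    have e3 : p.2.2 = μ • LinearMap.id := sub_eq_zero.1 h4
    exact (Prod.ext e1 (Prod.ext e2 e3)).symm
  have h2 := Submodule.finrank_mono h1
  have h3 : finrank ℂ (Submodule.span ℂ {(Hom.id M).pre}) ≤ 1 := by
    have := finrank_span_le_card (R := ℂ) ({(Hom.id M).pre} : Set (PreHom M M))
    simpa using this
  have h4 := chi_eq' M M
  have h5 : finrank ℂ (LinearMap.range (Phi M M)) ≤ finrank ℂ (PreExt M M) := Submodule.finrank_le _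
  omega

lemma continuous_cr (p q : Ty) : Continuous fun α : ℝ => cr α p q := by
  unfold cr lam
  fun_prop

/-- Stability is an open condition on `α`. -/
lemma Stable.eventually {α : ℝ} (hM : Stable α M) : ∀ᶠ β in 𝓝 α, Stable β M := by
  set T : Set Ty := {t | ∃ (A : QRep) (i : Hom A M), i.Inj ∧ A.ty ≠ 0 ∧ A.ty ≠ M.ty ∧ A.ty = t}
    with hT
  have hfin : T.Finite := (finite_types M.ty).subset (by
    rintro t ⟨A, i, hi, -, -, rfl⟩
    exact ⟨A.pos, hi.tyLE⟩)
  have h1 : ∀ᶠ β in 𝓝 α, ∀ t ∈ T, cr β t M.ty < 0 := by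
    rw [Filter.eventually_all_finite hfin]
    rintro t ⟨A, i, hi, h0, h1, rfl⟩
    exact (continuous_cr A.ty M.ty).continuousAt.eventually_lt continuousAt_const
      (hM.2 A i hi h0 h1)
  filter_upwards [h1] with β hβ
  exact ⟨hM.1, fun A i hi h0 h1 => hβ _ ⟨A, i, hi, h0, h1, rfl⟩⟩

/-- Semistability is a closed condition on `α`. -/
lemma semistable_of_mem_closure {α : ℝ} (h : α ∈ closure {β | Stable β M}) : Semistable α M := by
  intro A i hi
  have h1 : {β | Stable β M} ⊆ {β | cr β A.ty M.ty ≤ 0} := fun β hβ => hβ.semistable A i hi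
  have h2 : IsClosed {β | cr β A.ty M.ty ≤ 0} := isClosed_le (continuous_cr _ _) continuous_const
  exact closure_minimal h1 h2 h

/-- The first wall between `α` and `α'`. -/
lemma exists_wall {α α' : ℝ} (hX : Stable α X) (hY : Stable α Y)
    (h : ¬ (Stable α' X ∧ Stable α' Y)) : ∃ β ∈ Set.uIcc α α', Semistable β X ∧ Semistable β Y ∧
      ¬ (Stable β X ∧ Stable β Y) := by
  set u : Set ℝ := {β | Stable β X ∧ Stable β Y} with hu
  have huo : IsOpen u := by
    rw [isOpen_iff_mem_nhds]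
    rintro β ⟨h1, h2⟩
    exact Filter.Eventually.and h1.eventually h2.eventually
  by_contra hc
  push Not at hc
  have hcl : ∀ β ∈ Set.uIcc α α', β ∈ closure u → β ∈ u := by
    intro β hβ hβu
    apply hc β hβ
    · exact semistable_of_mem_closure (closure_mono (fun γ hγ => hγ.1) hβu)
    · exact semistable_of_mem_closure (closure_mono (fun γ hγ => hγ.2) hβu)
  have hpre : IsPreconnected (Set.uIcc α α') := isPreconnected_uIcc
  obtain ⟨β, -, hβ1, hβ2⟩ := hpre u (closure u)ᶜ huo isClosed_closure.isOpen_compl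
    (fun β hβ => by
      by_cases h1 : β ∈ closure u
      · exact Or.inl (hcl β hβ h1)
      · exact Or.inr h1)
    ⟨α, Set.left_mem_uIcc, hX, hY⟩ ⟨α', Set.right_mem_uIcc, fun h1 => h (hcl _ Set.right_mem_uIcc h1)⟩
  exact hβ2 (subset_closure hβ1)

end CohP1
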