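import Pool.Agent.Lib_helper87.Coh.Defs

/-!
# Counting parameters
-/

namespace CohP1

open Module

/-- An algebraically independent family consisting of polynomials in the `y_j` is at most as large
as the family `y`. -/
lemma card_le_of_mem_adjoin {ι κ : Type} [Fintype ι] [Fintype κ] {p : ι → ℂ}
    (hp : AlgebraicIndependent ℚ p) (y : κ → ℂ)
    (h : ∀ i, p i ∈ (MvPolynomial.aeval (R := ℚ) y).range) : Fintype.card ι ≤ Fintype.card κ := by
  set R := (MvPolynomial.aeval (R := ℚ) y).range with hR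
  let p' : ι → R := fun i => ⟨p i, h i⟩
  have hp' : AlgebraicIndependent ℚ p' := by
    have : AlgebraicIndependent ℚ (R.val ∘ p') := hp
    exact (AlgHom.algebraicIndependent_iff R.val Subtype.val_injective).1 this
  have h1 : Cardinal.mk ι ≤ Algebra.trdeg ℚ R := hp'.cardinalMk_le_trdeg
  have h2 : Algebra.trdeg ℚ R ≤ Algebra.trdeg ℚ (MvPolynomial κ ℚ) :=
    trdeg_le_of_surjective (MvPolynomial.aeval (R := ℚ) y).rangeRestrict
      (MvPolynomial.aeval (R := ℚ) y).rangeRestrict_surjective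
  rw [MvPolynomial.trdeg_of_isDomain] at h2
  have h3 := h1.trans h2
  simpa using h3

/-- Charts on Grassmannians: a subspace of `ℂ^ι` is the graph of a linear map. -/
lemma exists_chart {ι : Type} [Fintype ι] [DecidableEq ι] (X : Submodule ℂ (ι → ℂ)) :
    ∃ (I : Finset ι) (v : ι → ι → ℂ), I.card = finrank ℂ X ∧ (∀ j ∈ I, v j ∈ X) ∧
      (∀ j ∈ I, ∀ l ∈ I, v j l = if l = j then 1 else 0) ∧
      ∀ z ∈ X, z = ∑ j ∈ I, z j • v j := by
  classical
  let e : ι → Module.Dual ℂ X := fun j => (LinearMap.proj j) ∘ₗ X.subtype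
  obtain ⟨κ, a, ha, hspan, hli⟩ := exists_linearIndependent' ℂ e
  have : Finite κ := Finite.of_injective a ha
  have : Fintype κ := Fintype.ofFinite κ
  have hzero : ∀ z : X, (∀ i, z.1 (a i) = 0) → z = 0 := by
    intro z hz
    have h1 : ∀ φ ∈ Submodule.span ℂ (Set.range e), φ z = 0 := by
      intro φ hφ
      rw [← hspan] at hφ
      induction hφ using Submodule.span_induction with
      | mem x hx => obtain ⟨i, rfl⟩ := hx; exact hz i
      | zero => rfl
      | add x y _ _ hx hy => rw [LinearMap.add_apply, hx, hy, add_zero]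
      | smul c x _ hx => rw [LinearMap.smul_apply, hx, smul_zero]
    ext j
    exact h1 (e j) (Submodule.subset_span ⟨j, rfl⟩)
  let T : X →ₗ[ℂ] (κ → ℂ) := LinearMap.pi fun i => e (a i)
  have hTinj : Function.Injective T := by
    rw [← LinearMap.ker_eq_bot, LinearMap.ker_eq_bot']
    intro z hz
    exact hzero z fun i => congrFun hz i
  have hcard : Fintype.card κ = finrank ℂ X := by
    apply le_antisymm
    · have := hli.fintype_card_le_finrank
      rwa [Subspace.dual_finrank_eq] at this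
    · have := LinearMap.finrank_le_finrank_of_injective hTinj
      simpa using this
  have hTsurj : Function.Surjective T := by
    rw [← LinearMap.injective_iff_surjective_of_finrank_eq_finrank]
    · exact hTinj
    · simp [hcard]
  choose w hw using fun i : κ => hTsurj (Pi.single i 1)
  refine ⟨Finset.univ.map ⟨a, ha⟩, fun j => if h : ∃ i, a i = j then (w h.choose).1 else 0, ?_, ?_,
    ?_, ?_⟩
  · rw [Finset.card_map, Finset.card_univ, hcard]
  · intro j hj
    have h : ∃ i, a i = j := by simpa using hj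
    beta_reduce
    rw [dif_pos h]
    exact (w h.choose).2
  · intro j hj l hl
    have h : ∃ i, a i = j := by simpa using hj
    obtain ⟨i', rfl⟩ : ∃ i, a i = l := by simpa using hl
    simp only [dif_pos h]
    have h1 := congrFun (hw h.choose) i'
    have h2 : T (w h.choose) i' = (w h.choose).1 (a i') := rfl
    rw [← h2, h1, Pi.single_apply]
    have h3 := h.choose_spec
    by_cases h4 : i' = h.choose
    · rw [if_pos h4, if_pos (by rw [h4, h3])]
    · rw [if_neg h4, if_neg (fun h5 => h4 (ha (h5.trans h3.symm)))]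
  · intro z hz
    rw [Finset.sum_map]
    have h1 : ∀ i : κ, (if h : ∃ i', a i' = a i then (w h.choose).1 else (0 : ι → ℂ)) = (w i).1 := by
      intro i
      have h : ∃ i', a i' = a i := ⟨i, rfl⟩
      rw [dif_pos h, ha h.choose_spec]
    simp only [Function.Embedding.coeFn_mk, h1]
    have h2 : (⟨z, hz⟩ : X) = ∑ i, z (a i) • w i := by
      apply hTinj
      rw [map_sum]
      simp only [map_smul, hw]
      ext i
      simp only [Finset.sum_apply, Pi.smul_apply, Pi.single_apply, smul_eq_mul, mul_ite, mul_one,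
        mul_zero, Finset.sum_ite_eq, Finset.mem_univ, if_true]
      rfl
    have h3 := congrArg Subtype.val h2
    simpa using h3

/-- Entries of a matrix mapping a subspace to a subspace are polynomials in chart coordinates. -/
lemma entries_mem {ι τ : Type} [Fintype ι] [DecidableEq ι] [Fintype τ] [DecidableEq τ]
    (R : Subalgebra ℚ ℂ) (F : τ → ι → ℂ) (I : Finset ι) (v : ι → ι → ℂ) (J : Finset τ)
    (t : τ → τ → ℂ) (Y : Submodule ℂ (τ → ℂ))
    (hv : ∀ j ∈ I, ∀ l ∈ I, v j l = if l = j then 1 else 0) (hvR : ∀ j ∈ I, ∀ l, l ∉ I → v j l ∈ R)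
    (ht : ∀ j ∈ J, ∀ l ∈ J, t j l = if l = j then 1 else 0) (htR : ∀ j ∈ J, ∀ l, l ∉ J → t j l ∈ R)
    (hz : ∀ z ∈ Y, z = ∑ j ∈ J, z j • t j)
    (hF : ∀ j ∈ I, (fun i => ∑ l, F i l * v j l) ∈ Y)
    (h1 : ∀ i, ∀ l, l ∉ I → F i l ∈ R) (h2 : ∀ j ∈ I, ∀ i ∈ J, ∑ l, F i l * v j l ∈ R) :
    ∀ i j, F i j ∈ R := by
  intro i j
  by_cases hj : j ∈ I
  · have h3 : ∑ l, F i l * v j l = F i j + ∑ l ∈ Iᶜ, F i l * v j l := by
      rw [← Finset.sum_add_sum_compl I]
      congr 1
      rw [Finset.sum_eq_single_of_mem j hj]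
      · rw [hv j hj j hj, if_pos rfl, mul_one]
      · intro l hl hlj
        rw [hv j hj l hl, if_neg hlj, mul_zero]
    have h4 : ∑ l, F i l * v j l ∈ R := by
      have h5 := congrFun (hz _ (hF j hj)) i
      simp only [Finset.sum_apply, Pi.smul_apply, smul_eq_mul] at h5
      rw [h5]
      refine R.sum_mem fun i' hi' => R.mul_mem (h2 j hj i' hi') ?_
      by_cases hi : i ∈ J
      · rw [ht i' hi' i hi]
        split_ifs
        · exact R.one_mem
        · exact R.zero_mem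
      · exact htR i' hi' i hi
    have h6 : F i j = ∑ l, F i l * v j l - ∑ l ∈ Iᶜ, F i l * v j l := by rw [h3]; ring
    rw [h6]
    refine R.sub_mem h4 (R.sum_mem fun l hl => ?_)
    rw [Finset.mem_compl] at hl
    exact R.mul_mem (h1 i l hl) (hvR j hj l hl)
  · exact h1 i j hj

/-- **Count lemma.**  A representation with algebraically independent matrix entries has a
subrepresentation of type `γ` only if `χ(γ, β - γ) ≥ 0`. -/
theorem count_sub {k w u : ℕ} {p : Idx k w u → ℂ} (hp : Gen p) {A : QRep}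
    (i : Hom A (ofCoord p)) (hi : i.Inj) : 0 ≤ chi A.ty ((ofCoord p).ty - A.ty) := by
  classical
  obtain ⟨IV, vV, cV, mV, dV, -⟩ := exists_chart (ι := Fin k) (LinearMap.range i.v)
  obtain ⟨IW, vW, cW, mW, dW, zW⟩ := exists_chart (ι := Fin w) (LinearMap.range i.w)
  obtain ⟨IU, vU, cU, mU, dU, -⟩ := exists_chart (ι := Fin u) (LinearMap.range i.u)
  -- the matrices
  let F : Fin w → Fin k → ℂ := fun a b => p (Sum.inl (a, b))
  let X : Fin w → Fin u → ℂ := fun a b => p (Sum.inr (Sum.inl (a, b)))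
  let Y : Fin w → Fin u → ℂ := fun a b => p (Sum.inr (Sum.inr (a, b)))
  -- the parameters
  let κ : Type := (IV × (IVᶜ : Finset (Fin k))) ⊕ (IW × (IWᶜ : Finset (Fin w))) ⊕
    (IU × (IUᶜ : Finset (Fin u))) ⊕ ((Fin w × (IVᶜ : Finset (Fin k))) ⊕ (IW × IV)) ⊕
    ((Fin w × (IUᶜ : Finset (Fin u))) ⊕ (IW × IU)) ⊕
    ((Fin w × (IUᶜ : Finset (Fin u))) ⊕ (IW × IU))
  let y : κ → ℂ := Sum.elim (fun a => vV a.1.1 a.2.1) (Sum.elim (fun a => vW a.1.1 a.2.1)
    (Sum.elim (fun a => vU a.1.1 a.2.1) (Sum.elim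
      (Sum.elim (fun a => F a.1 a.2.1) (fun a => ∑ l, F a.1.1 l * vV a.2.1 l))
      (Sum.elim
        (Sum.elim (fun a => X a.1 a.2.1) (fun a => ∑ l, X a.1.1 l * vU a.2.1 l))
        (Sum.elim (fun a => Y a.1 a.2.1) (fun a => ∑ l, Y a.1.1 l * vU a.2.1 l))))))
  set R := (MvPolynomial.aeval (R := ℚ) y).range with hR
  have hy : ∀ t, y t ∈ R := fun t => ⟨MvPolynomial.X t, MvPolynomial.aeval_X _ _⟩
  have hVR : ∀ j ∈ IV, ∀ l, l ∉ IV → vV j l ∈ R := fun j hj l hl =>
    hy (Sum.inl (⟨j, hj⟩, ⟨l, Finset.mem_compl.2 hl⟩))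
  have hWR : ∀ j ∈ IW, ∀ l, l ∉ IW → vW j l ∈ R := fun j hj l hl =>
    hy (Sum.inr (Sum.inl (⟨j, hj⟩, ⟨l, Finset.mem_compl.2 hl⟩)))
  have hUR : ∀ j ∈ IU, ∀ l, l ∉ IU → vU j l ∈ R := fun j hj l hl =>
    hy (Sum.inr (Sum.inr (Sum.inl (⟨j, hj⟩, ⟨l, Finset.mem_compl.2 hl⟩))))
  have hFR : ∀ a b, F a b ∈ R := by
    refine entries_mem R F IV vV IW vW (LinearMap.range i.w) dV hVR dW hWR zW ?_ ?_ ?_
    · intro j hj
      obtain ⟨b, hb⟩ := mV j hj
      refine ⟨A.f b, (i.hf' b).trans ?_⟩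
      exact (congrArg (ofCoord p).f hb).trans rfl
    · intro a l hl
      exact hy (Sum.inr (Sum.inr (Sum.inr (Sum.inl (Sum.inl (a, ⟨l, Finset.mem_compl.2 hl⟩))))))
    · intro j hj a ha
      exact hy (Sum.inr (Sum.inr (Sum.inr (Sum.inl (Sum.inr (⟨a, ha⟩, ⟨j, hj⟩))))))
  have hXR : ∀ a b, X a b ∈ R := by
    refine entries_mem R X IU vU IW vW (LinearMap.range i.w) dU hUR dW hWR zW ?_ ?_ ?_
    · intro j hj
      obtain ⟨b, hb⟩ := mU j hj
      refine ⟨A.x b, (i.hx' b).trans ?_⟩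
      exact (congrArg (ofCoord p).x hb).trans rfl
    · intro a l hl
      exact hy (Sum.inr (Sum.inr (Sum.inr (Sum.inr (Sum.inl (Sum.inl
        (a, ⟨l, Finset.mem_compl.2 hl⟩)))))))
    · intro j hj a ha
      exact hy (Sum.inr (Sum.inr (Sum.inr (Sum.inr (Sum.inl (Sum.inr (⟨a, ha⟩, ⟨j, hj⟩)))))))
  have hYR : ∀ a b, Y a b ∈ R := by
    refine entries_mem R Y IU vU IW vW (LinearMap.range i.w) dU hUR dW hWR zW ?_ ?_ ?_
    · intro j hj
      obtain ⟨b, hb⟩ := mU j hj
      refine ⟨A.y b, (i.hy' b).trans ?_⟩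
      exact (congrArg (ofCoord p).y hb).trans rfl
    · intro a l hl
      exact hy (Sum.inr (Sum.inr (Sum.inr (Sum.inr (Sum.inr (Sum.inl
        (a, ⟨l, Finset.mem_compl.2 hl⟩)))))))
    · intro j hj a ha
      exact hy (Sum.inr (Sum.inr (Sum.inr (Sum.inr (Sum.inr (Sum.inr (⟨a, ha⟩, ⟨j, hj⟩)))))))
  have hcard := card_le_of_mem_adjoin hp y (by
    rintro (⟨a, b⟩ | ⟨a, b⟩ | ⟨a, b⟩)
    · exact hFR a b
    · exact hXR a b
    · exact hYR a b)
  have eV : finrank ℂ (LinearMap.range i.v) = finrank ℂ A.V := LinearMap.finrank_range_of_inj hi.1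
  have eW : finrank ℂ (LinearMap.range i.w) = finrank ℂ A.W :=
    LinearMap.finrank_range_of_inj hi.2.1
  have eU : finrank ℂ (LinearMap.range i.u) = finrank ℂ A.U :=
    LinearMap.finrank_range_of_inj hi.2.2
  have bV : IV.card ≤ k := by simpa using IV.card_le_univ
  have bW : IW.card ≤ w := by simpa using IW.card_le_univ
  have bU : IU.card ≤ u := by simpa using IU.card_le_univ
  simp only [κ, Fintype.card_sum, Fintype.card_prod, Fintype.card_coe, Finset.card_compl,
    Fintype.card_fin] at hcard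
  rw [ty_ofCoord, QRep.ty, ← eV, ← eW, ← eU]
  erw [← cV, ← cW, ← cU]
  simp only [chi, Prod.mk_sub_mk]
  zify [bV, bW, bU] at hcard
  nlinarith [hcard]

end CohP1
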