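import Pool.Agent.Lib_helper87.Coh.AdmDef

/-!
# The end points of the stability intervals: recursive formula
-/

namespace CohP1

/-- `(n',d',k')` is an exceptional type (Euler form equal to `1`) smaller than `(n,d,k)`. -/
def Smaller (n' d' k' n d k : ℕ) : Prop :=
  1 ≤ n' ∧ k' ≤ k ∧ d' ≤ d ∧ n' + d' ≤ n + d ∧ (n', d', k') ≠ (n, d, k) ∧
    euler n' d' k' n' d' k' = 1

lemma Smaller.lt {n' d' k' n d k : ℕ} (h : Smaller n' d' k' n d k) :
    n' + 2 * d' + k' < n + 2 * d + k := by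
  obtain ⟨h1, h2, h3, h4, h5, -⟩ := h
  simp only [ne_eq, Prod.mk.injEq, not_and] at h5
  omega

open Classical in
/-- The pair `(α_m, α_M)` of the end points of the stability interval `I(b)` of the type
`b = (n,d,k)`, by recursion over the (finitely many) smaller exceptional types `c = (n',d',k')`
with `I(c) = (α_m(c), α_M(c))` nonempty.

* `I(b)` is empty (and the value is `(0,0)`) if `χ(b,b) > 1`, or `χ(b,b) = 0` and `b` is not
  primitive, or if some `c` satisfies `χ(c,b) > 0` and `μ_α(b) ≤ μ_α(c)` on all of `I(c)`, or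
  `χ(b,c) > 0` and `μ_α(c) ≤ μ_α(b)` on all of `I(c)`.
* Otherwise `α_m` is the largest of `0` and of the `α ∈ I(c)` with `μ_α(c) = μ_α(b)`, where
  `χ(c,b) > 0` and `k'/n' < k/n`, or `χ(b,c) > 0` and `k/n < k'/n'`; and `α_M` is the smallest
  (`∞` if there is none) of the `α ∈ I(c)` with `μ_α(c) = μ_α(b)`, where `χ(c,b) > 0` and
  `k/n < k'/n'`, or `χ(b,c) > 0` and `k'/n' < k/n`. -/
noncomputable def ends (n d k : ℕ) : EReal × EReal :=
  if euler n d k n d k ≤ 1 ∧ (euler n d k n d k = 0 → Nat.gcd n (Nat.gcd d k) = 1) ∧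
    ∀ n' d' k' : ℕ, Smaller n' d' k' n d k → (ends n' d' k').1 < (ends n' d' k').2 →
      ¬ (0 < euler n' d' k' n d k ∧ ∀ α : ℝ, (ends n' d' k').1 < α → α < (ends n' d' k').2 →
        slope α n d k ≤ slope α n' d' k') ∧
      ¬ (0 < euler n d k n' d' k' ∧ ∀ α : ℝ, (ends n' d' k').1 < α → α < (ends n' d' k').2 →
        slope α n' d' k' ≤ slope α n d k)
  then
    (sSup ({0} ∪ {t : EReal | ∃ (α : ℝ) (n' d' k' : ℕ) (_ : Smaller n' d' k' n d k), t = α ∧
        (ends n' d' k').1 < α ∧ α < (ends n' d' k').2 ∧ slope α n' d' k' = slope α n d k ∧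
        ((0 < euler n' d' k' n d k ∧ k' * n < k * n') ∨
          (0 < euler n d k n' d' k' ∧ k * n' < k' * n))}),
      sInf {t : EReal | ∃ (α : ℝ) (n' d' k' : ℕ) (_ : Smaller n' d' k' n d k), t = α ∧
        (ends n' d' k').1 < α ∧ α < (ends n' d' k').2 ∧ slope α n' d' k' = slope α n d k ∧
        ((0 < euler n' d' k' n d k ∧ k * n' < k' * n) ∨
          (0 < euler n d k n' d' k' ∧ k' * n < k * n'))})
  else (0, 0)
termination_by n + 2 * d + k
decreasing_by all_goals exact Smaller.lt ‹_›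

end CohP1
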