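import Pool.Agent.Lib_helper87.Coh.PQ
import Pool.Agent.Lib_helper87.Coh.EndsDef

/-!
# The end points of the stability intervals
-/

namespace CohP1

open Module Topology

/-- `u` obstructs the `β`-stability of `y`. -/
def Bad (u y : Ty) (β : ℝ) : Prop :=
  (0 < chi u y ∧ 0 ≤ cr β u y) ∨ (0 < chi y u ∧ cr β u y ≤ 0)

lemma bad_common {u y : Ty} {β : ℝ} (hβ : 0 < β) (hne : u ≠ y) (hu : St β u) (hy : St β y)
    (hbad : Bad u y β) : False := by
  rcases hbad with ⟨h1, h2⟩ | ⟨h1, h2⟩
  · have := St.cr_neg hβ hu hy hne h1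
    linarith
  · have := St.cr_neg hβ hy hu (Ne.symm hne) h1
    rw [cr_swap] at this
    linarith

lemma isClosed_bad (u y : Ty) : IsClosed {β : ℝ | Bad u y β} := by
  have h1 : {β : ℝ | Bad u y β} = {β | 0 < chi u y ∧ 0 ≤ cr β u y} ∪
      {β | 0 < chi y u ∧ cr β u y ≤ 0} := rfl
  rw [h1]
  refine IsClosed.union ?_ ?_
  · by_cases h : 0 < chi u y
    · simp only [h, true_and]
      exact isClosed_le continuous_const (continuous_cr u y)
    · simp [h]
  · by_cases h : 0 < chi y u
    · simp only [h, true_and]
      exact isClosed_le (continuous_cr u y) continuous_const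
    · simp [h]

/-- The main tool: a real type does not obstruct along a segment. -/
theorem key {y u : Ty} (ry : 1 ≤ rk y) (ru : 1 ≤ rk u) (hne : u ≠ y) (cu : chi u u = 1)
    {α α' : ℝ} (hα : 0 < α) (hα' : 0 < α') (hy : St α y) (hu : St α' u)
    (H : ∀ β ∈ Set.uIcc α' α, St β u → Bad u y β) : False := by
  by_cases hau : St α u
  · exact bad_common hα hne hau hy (H α Set.right_mem_uIcc hau)
  obtain ⟨e, he, hss, hns, hst⟩ := exists_first_wall hu hau
  rcases he with ⟨h1, h2⟩ | ⟨h1, h2⟩
  · -- upwards
    have hsub : Set.Ico α' e ⊆ {β | Bad u y β} := fun β hβ =>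
      H β (by rw [Set.uIcc_of_le (by linarith)]; exact ⟨hβ.1, by linarith [hβ.2]⟩)
        (hst β (Or.inl ⟨hβ.1, hβ.2⟩))
    have hbad : Bad u y e := by
      have h3 := closure_minimal hsub (isClosed_bad u y)
      rw [closure_Ico h1.ne] at h3
      exact h3 ⟨h1.le, le_rfl⟩
    have hP := claimP ry hα hy (tot u + 1).toNat u α' e (by
      have := hu.pos.tot_pos hu.ne_zero
      omega) cu ru hα' h1 hu hss hns (by
        intro β hβ hyβ
        by_contra hc
        push Not at hc
        rcases le_or_gt α' β with h4 | h4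
        · exact bad_common hβ hne (hst β (Or.inl ⟨h4, hc⟩)) hyβ (hsub ⟨h4, hc⟩)
        · have h5 := hyβ.between hy h4.le (by linarith)
          exact bad_common hα' hne hu h5 (hsub ⟨le_rfl, h1⟩))
    rcases hbad with h | h
    · exact hP.1 h
    · exact hP.2 h
  · -- downwards
    have hsub : Set.Ioc e α' ⊆ {β | Bad u y β} := fun β hβ =>
      H β (by rw [Set.uIcc_of_ge (by linarith)]; exact ⟨by linarith [hβ.1], hβ.2⟩)
        (hst β (Or.inr ⟨hβ.1, hβ.2⟩))
    have hbad : Bad u y e := by
      have h3 := closure_minimal hsub (isClosed_bad u y)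
      rw [closure_Ioc h2.ne] at h3
      exact h3 ⟨le_rfl, h2.le⟩
    have hQ := claimQ ry hα hy (tot u + 1).toNat u α' e (by
      have := hu.pos.tot_pos hu.ne_zero
      omega) cu ru (by linarith) h2 hu hss hns (by
        intro β hβ hyβ
        by_contra hc
        push Not at hc
        rcases le_or_gt β α' with h4 | h4
        · exact bad_common hβ hne (hst β (Or.inr ⟨hc, h4⟩)) hyβ (hsub ⟨hc, h4⟩)
        · have h5 := hy.between hyβ (by linarith) h4.le
          exact bad_common hα' hne hu h5 (hsub ⟨h2, le_rfl⟩))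
    rcases hbad with h | h
    · exact hQ.1 h
    · exact hQ.2 h

/-- The end points. -/
theorem ends_spec (N : ℕ) : ∀ n d k : ℕ, 1 ≤ n → n + 2 * d + k < N → ∀ α : ℝ,
    ((ends n d k).1 < α ∧ α < (ends n d k).2) ↔ (0 < α ∧ St α (tyOf n d k)) := by
  induction N with
  | zero => intro n d k _ h; omega
  | succ N IH =>
    intro n d k hn hN
    -- the induction hypothesis for smaller types
    have hI : ∀ n' d' k' : ℕ, Smaller n' d' k' n d k → ∀ α : ℝ,
        ((ends n' d' k').1 < α ∧ α < (ends n' d' k').2) ↔ (0 < α ∧ St α (tyOf n' d' k')) :=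
      fun n' d' k' hs α => IH n' d' k' hs.1 (by have := hs.lt; omega) α
    have rb : 1 ≤ rk (tyOf n d k) := by rw [rk_tyOf]; exact_mod_cast hn
    have hmem : ∀ β α' α : ℝ, 0 < α' → 0 < α → β ∈ Set.uIcc α' α → 0 < β := by
      intro β α' α h1 h2 h3
      exact lt_of_lt_of_le (lt_min h1 h2) h3.1
    have key' : ∀ n' d' k' : ℕ, Smaller n' d' k' n d k → ∀ α α' : ℝ, 0 < α → 0 < α' →
        St α (tyOf n d k) → St α' (tyOf n' d' k') →
        (∀ β ∈ Set.uIcc α' α, St β (tyOf n' d' k') → Bad (tyOf n' d' k') (tyOf n d k) β) →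
        False := by
      intro n' d' k' hs α α' hα hα' hy hu H
      refine key rb ?_ ?_ ?_ hα hα' hy hu H
      · rw [rk_tyOf]; exact_mod_cast hs.1
      · intro h
        exact hs.2.2.2.2.1 (tyOf_inj h)
      · rw [chi_tyOf]; exact hs.2.2.2.2.2
    intro α
    have hcrD : ∀ (n' d' k' : ℕ) (β γ : ℝ), cr β (tyOf n' d' k') (tyOf n d k) =
        cr γ (tyOf n' d' k') (tyOf n d k) + (β - γ) * ((k' : ℝ) * n - k * n') := by
      intro n' d' k' β γ
      rw [cr_shift _ _ γ β, rk_tyOf, rk_tyOf]
      simp only [tyOf]
      push_cast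
      ring
    constructor
    · -- from the formula to stability
      intro hα
      rw [ends] at hα
      split_ifs at hα with hv
      · obtain ⟨hv1, hv2, hv3⟩ := hv
        obtain ⟨hL, hR⟩ := hα
        have hα0 : 0 < α := by
          have h2 := lt_of_le_of_lt (le_sSup (Set.mem_union_left _ (Set.mem_singleton _))) hL
          exact_mod_cast h2
        refine ⟨hα0, (exists_stable_iff hα0 hn).2 ?_⟩
        have hLt : ∀ (t : ℝ) (n' d' k' : ℕ), Smaller n' d' k' n d k →
            St t (tyOf n' d' k') → 0 < t → cr t (tyOf n' d' k') (tyOf n d k) = 0 →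
            ((0 < euler n' d' k' n d k ∧ k' * n < k * n') ∨
              (0 < euler n d k n' d' k' ∧ k * n' < k' * n)) → t < α := by
          intro t n' d' k' hs hst ht hcr hty
          obtain ⟨h1, h2⟩ := (hI n' d' k' hs t).2 ⟨ht, hst⟩
          have hsl : slope t n' d' k' = slope t n d k := by
            apply le_antisymm
            · rw [slope_le_iff hs.1 hn, cr_swap, hcr]; simp
            · rw [slope_le_iff hn hs.1, hcr]
          refine EReal.coe_lt_coe_iff.1 (lt_of_le_of_lt (le_sSup (Set.mem_union_right _ ?_)) hL)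
          exact ⟨t, n', d', k', hs, rfl, h1, h2, hsl, hty⟩
        have hRt : ∀ (t : ℝ) (n' d' k' : ℕ), Smaller n' d' k' n d k →
            St t (tyOf n' d' k') → 0 < t → cr t (tyOf n' d' k') (tyOf n d k) = 0 →
            ((0 < euler n' d' k' n d k ∧ k * n' < k' * n) ∨
              (0 < euler n d k n' d' k' ∧ k' * n < k * n')) → α < t := by
          intro t n' d' k' hs hst ht hcr hty
          obtain ⟨h1, h2⟩ := (hI n' d' k' hs t).2 ⟨ht, hst⟩
          have hsl : slope t n' d' k' = slope t n d k := by
            apply le_antisymm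
            · rw [slope_le_iff hs.1 hn, cr_swap, hcr]; simp
            · rw [slope_le_iff hn hs.1, hcr]
          refine EReal.coe_lt_coe_iff.1 (lt_of_lt_of_le hR (sInf_le ?_))
          exact ⟨t, n', d', k', hs, rfl, h1, h2, hsl, hty⟩
        rw [Adm]
        refine ⟨hv1, hv2, ?_⟩
        intro n' d' k' h1 h2 h3 h4 h5 h6 h7
        have hs : Smaller n' d' k' n d k := ⟨h1, h2, h3, h4, h5, h6⟩
        have hst : St α (tyOf n' d' k') := (exists_stable_iff hα0 h1).2 h7
        have hIα := (hI n' d' k' hs α).2 ⟨hα0, hst⟩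
        obtain ⟨o1, o2⟩ := hv3 n' d' k' hs (hIα.1.trans hIα.2)
        have hDr : ∀ D : ℝ, D = (k' : ℝ) * n - k * n' → (0 < D → k * n' < k' * n) ∧
            (D < 0 → k' * n < k * n') := by
          intro D hD
          constructor
          · intro h
            have : (k : ℝ) * n' < k' * n := by linarith
            exact_mod_cast this
          · intro h
            have : (k' : ℝ) * n < k * n' := by linarith
            exact_mod_cast this
        -- the crossing point
        have cross : ∀ α₁ : ℝ, 0 < α₁ → St α₁ (tyOf n' d' k') →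
            ((0 ≤ cr α (tyOf n' d' k') (tyOf n d k) ∧ cr α₁ (tyOf n' d' k') (tyOf n d k) < 0) ∨
             (cr α (tyOf n' d' k') (tyOf n d k) ≤ 0 ∧ 0 < cr α₁ (tyOf n' d' k') (tyOf n d k))) →
            ∃ t, 0 < t ∧ St t (tyOf n' d' k') ∧ cr t (tyOf n' d' k') (tyOf n d k) = 0 ∧
              ((α ≤ t ∧ t ≤ α₁ ∧ α < α₁) ∨ (α₁ ≤ t ∧ t ≤ α ∧ α₁ < α)) := by
          intro α₁ hα₁ hst₁ hsgn
          have hcont := (continuous_cr (tyOf n' d' k') (tyOf n d k)).continuousOn
            (s := Set.uIcc α α₁)
          have hiv := intermediate_value_uIcc hcont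
          have h0 : (0 : ℝ) ∈ Set.uIcc (cr α (tyOf n' d' k') (tyOf n d k))
              (cr α₁ (tyOf n' d' k') (tyOf n d k)) := by
            rw [Set.mem_uIcc]
            rcases hsgn with h | h
            · exact Or.inr ⟨h.2.le, h.1⟩
            · exact Or.inl ⟨h.1, h.2.le⟩
          obtain ⟨t, ht, ht0⟩ := hiv h0
          have hne : α ≠ α₁ := by
            rintro rfl
            rcases hsgn with h | h <;> linarith [h.1, h.2]
          refine ⟨t, hmem t α α₁ hα0 hα₁ ht, ?_, ht0, ?_⟩
          · rcases Set.mem_uIcc.1 ht with h | h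
            · exact hst.between hst₁ h.1 h.2
            · exact hst₁.between hst h.1 h.2
          · rcases Set.mem_uIcc.1 ht with h | h
            · exact Or.inl ⟨h.1, h.2, lt_of_le_of_ne (h.1.trans h.2) hne⟩
            · exact Or.inr ⟨h.1, h.2, lt_of_le_of_ne (h.1.trans h.2) (Ne.symm hne)⟩
        constructor
        · intro hsl
          by_contra hc
          push Not at hc
          rw [slope_le_iff hn h1] at hsl
          have : ∃ α₁ : ℝ, 0 < α₁ ∧ St α₁ (tyOf n' d' k') ∧
              cr α₁ (tyOf n' d' k') (tyOf n d k) < 0 := by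
            by_contra hcon
            push Not at hcon
            apply o1
            refine ⟨hc, fun β hβ1 hβ2 => ?_⟩
            obtain ⟨g1, g2⟩ := (hI n' d' k' hs β).1 ⟨hβ1, hβ2⟩
            rw [slope_le_iff hn h1]
            exact hcon β g1 g2
          obtain ⟨α₁, hα₁, hst₁, hcr₁⟩ := this
          obtain ⟨t, ht, hstt, hcrt, hpos⟩ := cross α₁ hα₁ hst₁ (Or.inl ⟨hsl, hcr₁⟩)
          obtain ⟨D, hD⟩ : ∃ D : ℝ, D = (k' : ℝ) * n - k * n' := ⟨_, rfl⟩
          obtain ⟨hD1, hD2⟩ := hDr D hD
          have e1 := hcrD n' d' k' α₁ α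
          rw [← hD] at e1
          rcases hpos with ⟨p1, p2, p3⟩ | ⟨p1, p2, p3⟩
          · have hDn : D < 0 := by
              by_contra hcon
              push Not at hcon
              have := mul_nonneg (show 0 ≤ α₁ - α by linarith) hcon
              linarith
            have := hLt t n' d' k' hs hstt ht hcrt (Or.inl ⟨hc, hD2 hDn⟩)
            linarith
          · have hDp : 0 < D := by
              by_contra hcon
              push Not at hcon
              have := mul_nonneg (show 0 ≤ α - α₁ by linarith) (neg_nonneg.2 hcon)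
              linarith
            have := hRt t n' d' k' hs hstt ht hcrt (Or.inl ⟨hc, hD1 hDp⟩)
            linarith
        · intro hsl
          by_contra hc
          push Not at hc
          rw [slope_le_iff h1 hn, cr_swap] at hsl
          have : ∃ α₁ : ℝ, 0 < α₁ ∧ St α₁ (tyOf n' d' k') ∧
              0 < cr α₁ (tyOf n' d' k') (tyOf n d k) := by
            by_contra hcon
            push Not at hcon
            apply o2
            refine ⟨hc, fun β hβ1 hβ2 => ?_⟩
            obtain ⟨g1, g2⟩ := (hI n' d' k' hs β).1 ⟨hβ1, hβ2⟩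
            rw [slope_le_iff h1 hn, cr_swap]
            have := hcon β g1 g2
            linarith
          obtain ⟨α₁, hα₁, hst₁, hcr₁⟩ := this
          obtain ⟨t, ht, hstt, hcrt, hpos⟩ := cross α₁ hα₁ hst₁ (Or.inr ⟨by linarith, hcr₁⟩)
          obtain ⟨D, hD⟩ : ∃ D : ℝ, D = (k' : ℝ) * n - k * n' := ⟨_, rfl⟩
          obtain ⟨hD1, hD2⟩ := hDr D hD
          have e1 := hcrD n' d' k' α₁ α
          rw [← hD] at e1
          rcases hpos with ⟨p1, p2, p3⟩ | ⟨p1, p2, p3⟩
          · have hDp : 0 < D := by
              by_contra hcon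
              push Not at hcon
              have := mul_nonneg (show 0 ≤ α₁ - α by linarith) (neg_nonneg.2 hcon)
              linarith
            have := hLt t n' d' k' hs hstt ht hcrt (Or.inr ⟨hc, hD1 hDp⟩)
            linarith
          · have hDn : D < 0 := by
              by_contra hcon
              push Not at hcon
              have := mul_nonneg (show 0 ≤ α - α₁ by linarith) hcon
              linarith
            have := hRt t n' d' k' hs hstt ht hcrt (Or.inr ⟨hc, hD2 hDn⟩)
            linarith
      · obtain ⟨h1, h2⟩ := hα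
        exact absurd (h1.trans h2) (lt_irrefl _)
    · -- from stability to the formula
      rintro ⟨hα, hy⟩
      have hadm := (exists_stable_iff hα hn).1 hy
      rw [Adm] at hadm
      obtain ⟨hv1, hv2, -⟩ := hadm
      rw [ends, if_pos]
      · obtain ⟨ε, hε, hball⟩ := Metric.eventually_nhds_iff.1 hy.eventually
        obtain ⟨δ, hδ⟩ : ∃ δ, δ = min ε α / 2 := ⟨_, rfl⟩
        have hδ0 : 0 < δ := by rw [hδ]; exact half_pos (lt_min hε hα)
        have hδε : δ < ε := by
          have := min_le_left ε α; rw [hδ]; linarith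
        have hδα : δ < α := by
          have := min_le_right ε α; rw [hδ]; linarith
        have hm : St (α - δ) (tyOf n d k) := hball (by
          rw [Real.dist_eq]
          have : α - δ - α = -δ := by ring
          rw [this, abs_neg, abs_of_pos hδ0]
          exact hδε)
        have hp : St (α + δ) (tyOf n d k) := hball (by
          rw [Real.dist_eq]
          have : α + δ - α = δ := by ring
          rw [this, abs_of_pos hδ0]
          exact hδε)
        constructor
        · refine lt_of_le_of_lt (b := ((α - δ : ℝ) : EReal)) ?_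
            (EReal.coe_lt_coe_iff.2 (by linarith))
          apply sSup_le
          rintro t (ht | ⟨α₀, n', d', k', hs, rfl, h1, h2, hsl, hty⟩)
          · rw [Set.mem_singleton_iff.1 ht]
            exact_mod_cast (by linarith : (0 : ℝ) ≤ α - δ)
          · rw [EReal.coe_le_coe_iff]
            by_contra hcon
            push Not at hcon
            obtain ⟨hα₀, hst₀⟩ := (hI n' d' k' hs α₀).1 ⟨h1, h2⟩
            refine key' n' d' k' hs (α - δ) α₀ (by linarith) hα₀ hm hst₀ ?_
            intro β hβ hstβ
            rw [Set.uIcc_of_ge hcon.le] at hβ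
            have hcr0 : cr α₀ (tyOf n' d' k') (tyOf n d k) = 0 := by
              have g1 := (slope_le_iff (α := α₀) hs.1 hn).1 hsl.le
              have g2 := (slope_le_iff (α := α₀) hn hs.1).1 hsl.ge
              rw [cr_swap] at g1
              linarith
            have e1 := hcrD n' d' k' β α₀
            rw [hcr0, zero_add] at e1
            rcases hty with ⟨t1, t2⟩ | ⟨t1, t2⟩
            · left
              refine ⟨by rw [chi_tyOf]; exact t1, ?_⟩
              have t2' : (k' : ℝ) * n < k * n' := by exact_mod_cast t2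
              rw [e1]
              exact mul_nonneg_of_nonpos_of_nonpos (by linarith [hβ.2]) (by linarith)
            · right
              refine ⟨by rw [chi_tyOf]; exact t1, ?_⟩
              have t2' : (k : ℝ) * n' < k' * n := by exact_mod_cast t2
              rw [e1]
              exact mul_nonpos_of_nonpos_of_nonneg (by linarith [hβ.2]) (by linarith)
        · refine lt_of_lt_of_le (b := ((α + δ : ℝ) : EReal))
            (EReal.coe_lt_coe_iff.2 (by linarith)) ?_
          apply le_sInf
          rintro t ⟨α₀, n', d', k', hs, rfl, h1, h2, hsl, hty⟩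
          rw [EReal.coe_le_coe_iff]
          by_contra hcon
          push Not at hcon
          obtain ⟨hα₀, hst₀⟩ := (hI n' d' k' hs α₀).1 ⟨h1, h2⟩
          refine key' n' d' k' hs (α + δ) α₀ (by linarith) hα₀ hp hst₀ ?_
          intro β hβ hstβ
          rw [Set.uIcc_of_le hcon.le] at hβ
          have hcr0 : cr α₀ (tyOf n' d' k') (tyOf n d k) = 0 := by
            have g1 := (slope_le_iff (α := α₀) hs.1 hn).1 hsl.le
            have g2 := (slope_le_iff (α := α₀) hn hs.1).1 hsl.ge
            rw [cr_swap] at g1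
            linarith
          have e1 := hcrD n' d' k' β α₀
          rw [hcr0, zero_add] at e1
          rcases hty with ⟨t1, t2⟩ | ⟨t1, t2⟩
          · left
            refine ⟨by rw [chi_tyOf]; exact t1, ?_⟩
            have t2' : (k : ℝ) * n' < k' * n := by exact_mod_cast t2
            rw [e1]
            exact mul_nonneg (by linarith [hβ.1]) (by linarith)
          · right
            refine ⟨by rw [chi_tyOf]; exact t1, ?_⟩
            have t2' : (k' : ℝ) * n < k * n' := by exact_mod_cast t2
            rw [e1]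
            exact mul_nonpos_of_nonneg_of_nonpos (by linarith [hβ.1]) (by linarith)
      · refine ⟨hv1, hv2, ?_⟩
        intro n' d' k' hs hlt
        obtain ⟨α₀, h1, h2⟩ := EReal.lt_iff_exists_real_btwn.1 hlt
        obtain ⟨hα₀, hst₀⟩ := (hI n' d' k' hs α₀).1 ⟨h1, h2⟩
        constructor
        · rintro ⟨t1, t2⟩
          refine key' n' d' k' hs α α₀ hα hα₀ hy hst₀ fun β hβ hstβ => Or.inl ?_
          have hβ0 := hmem β α₀ α hα₀ hα hβ
          obtain ⟨g1, g2⟩ := (hI n' d' k' hs β).2 ⟨hβ0, hstβ⟩
          have g3 := t2 β g1 g2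
          rw [slope_le_iff hn hs.1] at g3
          exact ⟨by rw [chi_tyOf]; exact t1, g3⟩
        · rintro ⟨t1, t2⟩
          refine key' n' d' k' hs α α₀ hα hα₀ hy hst₀ fun β hβ hstβ => Or.inr ?_
          have hβ0 := hmem β α₀ α hα₀ hα hβ
          obtain ⟨g1, g2⟩ := (hI n' d' k' hs β).2 ⟨hβ0, hstβ⟩
          have g3 := t2 β g1 g2
          rw [slope_le_iff hs.1 hn, cr_swap] at g3
          exact ⟨by rw [chi_tyOf]; exact t1, by linarith⟩

end CohP1
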