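import Pool.Agent.Lib_helper87.Coh.Basic

/-!
# The Euler form
-/

namespace CohP1

open Module

abbrev PreHom (M N : QRep) := (M.V →ₗ[ℂ] N.V) × (M.W →ₗ[ℂ] N.W) × (M.U →ₗ[ℂ] N.U)
abbrev PreExt (M N : QRep) := (M.V →ₗ[ℂ] N.W) × (M.U →ₗ[ℂ] N.W) × (M.U →ₗ[ℂ] N.W)

/-- The linear map whose kernel is `Hom(M,N)` and whose cokernel is `Ext(M,N)`. -/
def Phi (M N : QRep) : PreHom M N →ₗ[ℂ] PreExt M N where
  toFun h := (h.2.1 ∘ₗ M.f - N.f ∘ₗ h.1, h.2.1 ∘ₗ M.x - N.x ∘ₗ h.2.2,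
    h.2.1 ∘ₗ M.y - N.y ∘ₗ h.2.2)
  map_add' a b := by
    simp only [Prod.fst_add, Prod.snd_add, LinearMap.add_comp, LinearMap.comp_add, Prod.mk_add_mk,
      Prod.mk.injEq]
    refine ⟨?_, ?_, ?_⟩ <;> abel
  map_smul' c a := by
    simp only [Prod.smul_fst, Prod.smul_snd, LinearMap.smul_comp, LinearMap.comp_smul,
      RingHom.id_apply, Prod.smul_mk, smul_sub]

def HomZero (M N : QRep) : Prop := ∀ h : Hom M N, h.IsZero

def ExtZero (M N : QRep) : Prop := Function.Surjective (Phi M N)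

variable {A B L M N : QRep}

/-- A morphism as an element of the source of `Phi`. -/
def Hom.pre (h : Hom M N) : PreHom M N := (h.v, h.w, h.u)

lemma Hom.pre_mem (h : Hom M N) : h.pre ∈ LinearMap.ker (Phi M N) := by
  rw [LinearMap.mem_ker]
  show (_, _, _) = (0 : PreExt M N)
  simp only [Hom.pre, h.hf, h.hx, h.hy, sub_self]
  rfl

/-- A morphism from an element of the kernel of `Phi`. -/
def Hom.ofPre (h : PreHom M N) (hh : Phi M N h = 0) : Hom M N where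
  v := h.1
  w := h.2.1
  u := h.2.2
  hf := by
    have := congrArg Prod.fst hh
    exact sub_eq_zero.1 this
  hx := by
    have := congrArg (fun p => p.2.1) hh
    exact sub_eq_zero.1 this
  hy := by
    have := congrArg (fun p => p.2.2) hh
    exact sub_eq_zero.1 this

lemma homZero_iff : HomZero M N ↔ LinearMap.ker (Phi M N) = ⊥ := by
  constructor
  · intro h
    rw [eq_bot_iff]
    intro p hp
    obtain ⟨h1, h2, h3⟩ := h (Hom.ofPre p hp)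
    simp only [Hom.ofPre] at h1 h2 h3
    rw [Submodule.mem_bot]
    exact Prod.ext h1 (Prod.ext h2 h3)
  · intro h g
    have := g.pre_mem
    rw [h, Submodule.mem_bot] at this
    simp only [Hom.pre, Prod.mk_eq_zero] at this
    exact this

lemma chi_eq (M N : QRep) : chi M.ty N.ty =
    (finrank ℂ (PreHom M N) : ℤ) - (finrank ℂ (PreExt M N) : ℤ) := by
  simp only [finrank_prod, finrank_linearMap, chi, QRep.ty]
  push_cast
  ring

lemma chi_eq' (M N : QRep) : chi M.ty N.ty =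
    (finrank ℂ (LinearMap.ker (Phi M N)) : ℤ) -
      ((finrank ℂ (PreExt M N) : ℤ) - (finrank ℂ (LinearMap.range (Phi M N)) : ℤ)) := by
  rw [chi_eq]
  have := (Phi M N).finrank_range_add_finrank_ker
  omega

/-- If `chi > 0`, there is a nonzero morphism. -/
lemma exists_hom_of_chi_pos (h : 0 < chi M.ty N.ty) : ∃ g : Hom M N, ¬ g.IsZero := by
  by_contra hc
  push Not at hc
  have h0 : HomZero M N := hc
  rw [homZero_iff] at h0
  have h1 := chi_eq' M N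
  rw [h0, finrank_bot] at h1
  have h2 : finrank ℂ (LinearMap.range (Phi M N)) ≤ finrank ℂ (PreExt M N) := Submodule.finrank_le _
  omega

lemma HomZero.chi_nonpos (h : HomZero M N) : chi M.ty N.ty ≤ 0 := by
  by_contra hc
  push Not at hc
  obtain ⟨g, hg⟩ := exists_hom_of_chi_pos hc
  exact hg (h g)

lemma HomZero.extZero (h : HomZero M N) (hc : 0 ≤ chi M.ty N.ty) : ExtZero M N := by
  rw [homZero_iff] at h
  have h1 := chi_eq' M N
  rw [h, finrank_bot] at h1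
  have h2 : finrank ℂ (LinearMap.range (Phi M N)) ≤ finrank ℂ (PreExt M N) := Submodule.finrank_le _
  have h3 : finrank ℂ (LinearMap.range (Phi M N)) = finrank ℂ (PreExt M N) := by omega
  exact LinearMap.range_eq_top.1 (Submodule.eq_top_of_finrank_eq h3)

lemma ExtZero.chi_nonneg (h : ExtZero M N) : 0 ≤ chi M.ty N.ty := by
  have h1 := chi_eq' M N
  have h2 : LinearMap.range (Phi M N) = ⊤ := LinearMap.range_eq_top.2 h
  rw [h2, finrank_top] at h1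
  omega

lemma HomZero.chi_eq_zero (h : HomZero M N) (h' : ExtZero M N) : chi M.ty N.ty = 0 :=
  le_antisymm h.chi_nonpos h'.chi_nonneg

/-- `Ext(M,N) = 0` passes to subobjects of `M`. -/
lemma ExtZero.of_inj (h : ExtZero M N) (i : Hom A M) (hi : i.Inj) : ExtZero A N := by
  intro e
  obtain ⟨pv, hpv⟩ := i.v.exists_leftInverse_of_injective (LinearMap.ker_eq_bot.2 hi.1)
  obtain ⟨pu, hpu⟩ := i.u.exists_leftInverse_of_injective (LinearMap.ker_eq_bot.2 hi.2.2)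
  obtain ⟨g, hg⟩ := h (e.1 ∘ₗ pv, e.2.1 ∘ₗ pu, e.2.2 ∘ₗ pu)
  have h1 : g.2.1 ∘ₗ M.f - N.f ∘ₗ g.1 = e.1 ∘ₗ pv := congrArg Prod.fst hg
  have h2 : g.2.1 ∘ₗ M.x - N.x ∘ₗ g.2.2 = e.2.1 ∘ₗ pu := congrArg (fun p => p.2.1) hg
  have h3 : g.2.1 ∘ₗ M.y - N.y ∘ₗ g.2.2 = e.2.2 ∘ₗ pu := congrArg (fun p => p.2.2) hg
  refine ⟨(g.1 ∘ₗ i.v, g.2.1 ∘ₗ i.w, g.2.2 ∘ₗ i.u), ?_⟩
  refine Prod.ext ?_ (Prod.ext ?_ ?_)
  · show (g.2.1 ∘ₗ i.w) ∘ₗ A.f - N.f ∘ₗ (g.1 ∘ₗ i.v) = e.1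
    rw [LinearMap.comp_assoc, i.hf, ← LinearMap.comp_assoc, ← LinearMap.comp_assoc,
      ← LinearMap.sub_comp, h1, LinearMap.comp_assoc, hpv, LinearMap.comp_id]
  · show (g.2.1 ∘ₗ i.w) ∘ₗ A.x - N.x ∘ₗ (g.2.2 ∘ₗ i.u) = e.2.1
    rw [LinearMap.comp_assoc, i.hx, ← LinearMap.comp_assoc, ← LinearMap.comp_assoc,
      ← LinearMap.sub_comp, h2, LinearMap.comp_assoc, hpu, LinearMap.comp_id]
  · show (g.2.1 ∘ₗ i.w) ∘ₗ A.y - N.y ∘ₗ (g.2.2 ∘ₗ i.u) = e.2.2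
    rw [LinearMap.comp_assoc, i.hy, ← LinearMap.comp_assoc, ← LinearMap.comp_assoc,
      ← LinearMap.sub_comp, h3, LinearMap.comp_assoc, hpu, LinearMap.comp_id]

/-- `Ext(M,N) = 0` passes to quotients of `N`. -/
lemma ExtZero.of_surj (h : ExtZero M N) (p : Hom N B) (hp : p.Surj) : ExtZero M B := by
  intro e
  obtain ⟨s, hs⟩ := p.w.exists_rightInverse_of_surjective (LinearMap.range_eq_top.2 hp.2.1)
  obtain ⟨g, hg⟩ := h (s ∘ₗ e.1, s ∘ₗ e.2.1, s ∘ₗ e.2.2)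
  have h1 : g.2.1 ∘ₗ M.f - N.f ∘ₗ g.1 = s ∘ₗ e.1 := congrArg Prod.fst hg
  have h2 : g.2.1 ∘ₗ M.x - N.x ∘ₗ g.2.2 = s ∘ₗ e.2.1 := congrArg (fun p => p.2.1) hg
  have h3 : g.2.1 ∘ₗ M.y - N.y ∘ₗ g.2.2 = s ∘ₗ e.2.2 := congrArg (fun p => p.2.2) hg
  refine ⟨(p.v ∘ₗ g.1, p.w ∘ₗ g.2.1, p.u ∘ₗ g.2.2), ?_⟩
  refine Prod.ext ?_ (Prod.ext ?_ ?_)
  · show (p.w ∘ₗ g.2.1) ∘ₗ M.f - B.f ∘ₗ (p.v ∘ₗ g.1) = e.1
    rw [← LinearMap.comp_assoc, ← p.hf, LinearMap.comp_assoc, LinearMap.comp_assoc,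
      ← LinearMap.comp_sub, h1, ← LinearMap.comp_assoc, hs, LinearMap.id_comp]
  · show (p.w ∘ₗ g.2.1) ∘ₗ M.x - B.x ∘ₗ (p.u ∘ₗ g.2.2) = e.2.1
    rw [← LinearMap.comp_assoc, ← p.hx, LinearMap.comp_assoc, LinearMap.comp_assoc,
      ← LinearMap.comp_sub, h2, ← LinearMap.comp_assoc, hs, LinearMap.id_comp]
  · show (p.w ∘ₗ g.2.1) ∘ₗ M.y - B.y ∘ₗ (p.u ∘ₗ g.2.2) = e.2.2
    rw [← LinearMap.comp_assoc, ← p.hy, LinearMap.comp_assoc, LinearMap.comp_assoc,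
      ← LinearMap.comp_sub, h3, ← LinearMap.comp_assoc, hs, LinearMap.id_comp]

/-! ### Bilinearity of `chi` -/

lemma chi_add_left (p q r : Ty) : chi (p + q) r = chi p r + chi q r := by simp [chi]; ring
lemma chi_add_right (p q r : Ty) : chi p (q + r) = chi p q + chi p r := by simp [chi]; ring
lemma chi_sub_left (p q r : Ty) : chi (p - q) r = chi p r - chi q r := by simp [chi]; ring
lemma chi_sub_right (p q r : Ty) : chi p (q - r) = chi p q - chi p r := by simp [chi]; ring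
lemma chi_zero_left (r : Ty) : chi 0 r = 0 := by simp [chi]
lemma chi_zero_right (r : Ty) : chi r 0 = 0 := by simp [chi]
lemma rk_add (p q : Ty) : rk (p + q) = rk p + rk q := by simp [rk]; ring
lemma rk_sub (p q : Ty) : rk (p - q) = rk p - rk q := by simp [rk]; ring

end CohP1
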