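import Pool.Agent.Lib_helper87.Coh.Main2
import Pool.Agent.Lib_helper75.Coh.T1
import Pool.Agent.Lib_helper75.Coh.T2b

/-!
# Stability intervals
-/

namespace CohP1

open Module

/-- The set `I(n,d,k)` of the `α > 0` for which there is an `α`-stable coherent system of type
`(n,d,k)` on `ℙ¹`. -/
def stabilityInterval (n : ℕ) (d : ℤ) (k : ℕ) : Set ℝ :=
  {α | 0 < α ∧ ∃ E : CoherentSystem n, E.degree = d ∧ E.dimV = k ∧ E.Stable α}

/-- Translation to representations. -/
theorem exists_system_iff {n k : ℕ} (hn : 1 ≤ n) (hk : 1 ≤ k) {d : ℤ} {α : ℝ} (hα : 0 < α) :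
    (∃ E : CoherentSystem n, E.degree = d ∧ E.dimV = k ∧ E.Stable α) ↔
      ∃ M : QRep, M.ty = ((k : ℤ), d + n, d) ∧ Stable α M := by
  constructor
  · rintro ⟨E, hd, hV, hE⟩
    obtain ⟨M, hty, hM⟩ := exists_rep_of_system hn hk hα E hE hV
    rw [hd] at hty
    exact ⟨M, hty, hM⟩
  · rintro ⟨M, hty, hM⟩
    exact exists_system_of_rep hn hk hα M hM hty

/-- The stability set is the set of admissible parameters. -/
theorem mem_stabilityInterval_iff {n k : ℕ} (hn : 1 ≤ n) (hk : 1 ≤ k) {d : ℤ} {α : ℝ} :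
    α ∈ stabilityInterval n d k ↔ 0 < α ∧ 0 ≤ d ∧ Adm α n d.toNat k := by
  unfold stabilityInterval
  rw [Set.mem_setOf_eq]
  refine and_congr_right fun hα => ?_
  rw [exists_system_iff hn hk hα]
  by_cases hd : 0 ≤ d
  · have h1 : ((d.toNat : ℕ) : ℤ) = d := Int.toNat_of_nonneg hd
    rw [← exists_stable_iff hα hn]
    have h2 : tyOf n d.toNat k = ((k : ℤ), d + n, d) := by
      simp only [tyOf]
      push_cast
      rw [h1, add_comm]
    rw [h2]
    simp [hd]
  · constructor
    · rintro ⟨M, hty, -⟩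
      have := M.pos.2.2
      rw [hty] at this
      exact absurd this hd
    · rintro ⟨h, -⟩
      exact absurd h hd

end CohP1
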