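import Pool.Agent.Lib_helper87.Coh.Final
import Pool.Agent.Lib_helper87.Coh.Ends

/-!
# The end points of the stability intervals of coherent systems
-/

namespace CohP1

open Module

/-- The stability interval is the open interval with end points `ends n d k`. -/
theorem mem_stabilityInterval_iff_ends {n k : ℕ} (hn : 1 ≤ n) (hk : 1 ≤ k) {d : ℤ} {α : ℝ} :
    α ∈ stabilityInterval n d k ↔
      0 ≤ d ∧ (ends n d.toNat k).1 < α ∧ α < (ends n d.toNat k).2 := by
  rw [mem_stabilityInterval_iff hn hk]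
  constructor
  · rintro ⟨h1, h2, h3⟩
    exact ⟨h2, (ends_spec (n + 2 * d.toNat + k + 1) n d.toNat k hn (by omega) α).2
      ⟨h1, (exists_stable_iff h1 hn).2 h3⟩⟩
  · rintro ⟨h1, h2⟩
    obtain ⟨h3, h4⟩ := (ends_spec (n + 2 * d.toNat + k + 1) n d.toNat k hn (by omega) α).1 h2
    exact ⟨h3, h1, (exists_stable_iff h3 hn).1 h4⟩

theorem stabilityInterval_nonempty_iff {n k : ℕ} (hn : 1 ≤ n) (hk : 1 ≤ k) {d : ℤ} :
    (stabilityInterval n d k).Nonempty ↔
      0 ≤ d ∧ (ends n d.toNat k).1 < (ends n d.toNat k).2 := by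
  constructor
  · rintro ⟨α, hα⟩
    obtain ⟨h1, h2, h3⟩ := (mem_stabilityInterval_iff_ends hn hk).1 hα
    exact ⟨h1, h2.trans h3⟩
  · rintro ⟨h1, h2⟩
    obtain ⟨α, h3, h4⟩ := EReal.lt_iff_exists_real_btwn.1 h2
    exact ⟨α, (mem_stabilityInterval_iff_ends hn hk).2 ⟨h1, h3, h4⟩⟩

end CohP1
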