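import Pool.Agent.Lib_helper87.Coh.Wall
import Pool.Agent.Lib_helper87.Coh.Blocks

/-!
# Stable objects of nonreal type
-/

namespace CohP1

open Module Topology

variable {A B C M N X Y : QRep}

/-- Semistability for large parameter forces `k ≥ n`. -/
lemma not_semistable_large {α : ℝ} (hα : 0 < α) (hk : 1 ≤ X.ty.1)
    (h : (X.ty.2.2 : ℝ) < α * (rk X.ty - X.ty.1)) : ¬ Semistable α X := by
  intro hX
  have h1 : 0 < chi PRep.ty X.ty := by
    rw [ty_PRep]
    simp only [chi]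
    linarith
  obtain ⟨g, hg⟩ := exists_hom_of_chi_pos h1
  have h2 := nu_le_of_hom hα (semistable_PRep hα) hX hg
  have h3 := nonzero_of_not_isZero hg
  rw [← cr_nonpos_iff hα PRep.pos h3.1 X.pos h3.2, ty_PRep] at h2
  simp only [cr, lam, rk] at h2 h
  push_cast at h2 h
  linarith

/-- Semistability for small parameter forces `n ∣ d`. -/
lemma dvd_of_semistable_small {α : ℝ} (hα : 0 < α) (hn : 1 ≤ rk X.ty) (h : α * X.ty.1 < 1)
    (hX : Semistable α X) : rk X.ty ∣ X.ty.2.2 := by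
  by_contra hc
  obtain ⟨e, he⟩ : ∃ e, e = X.ty.2.2 / rk X.ty := ⟨_, rfl⟩
  have hd0 : 0 ≤ X.ty.2.2 := X.pos.2.2
  have he0 : 0 ≤ e := by rw [he]; exact Int.ediv_nonneg hd0 (by linarith)
  have h1 : rk X.ty * e + X.ty.2.2 % rk X.ty = X.ty.2.2 := by
    rw [he]; exact Int.mul_ediv_add_emod _ _
  have h2 : 0 ≤ X.ty.2.2 % rk X.ty := Int.emod_nonneg _ (by omega)
  have h3 : X.ty.2.2 % rk X.ty < rk X.ty := Int.emod_lt_of_pos _ (by omega)
  have h4 : X.ty.2.2 % rk X.ty ≠ 0 := fun h => hc (Int.dvd_of_emod_eq_zero h)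
  obtain ⟨L, hL, hLs⟩ := exists_line (e + 1).toNat
  have h5 : (((e + 1).toNat : ℕ) : ℤ) = e + 1 := Int.toNat_of_nonneg (by omega)
  rw [h5] at hL
  have h6 : 0 < chi L.ty X.ty := by
    rw [hL]
    simp only [chi]
    have : rk X.ty * e < X.ty.2.2 := by omega
    simp only [rk] at this ⊢
    nlinarith
  obtain ⟨g, hg⟩ := exists_hom_of_chi_pos h6
  have h7 := nu_le_of_hom hα (hLs α) hX hg
  have h8 := nonzero_of_not_isZero hg
  rw [← cr_nonpos_iff hα L.pos h8.1 X.pos h8.2, hL] at h7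
  have h9 : X.ty.2.2 + 1 ≤ rk X.ty * (e + 1) := by nlinarith
  have h10 : ((X.ty.2.2 : ℝ)) + 1 ≤ rk X.ty * (e + 1) := by exact_mod_cast h9
  simp only [cr, lam] at h7
  have h11 : ((rk (0, e + 1 + 1, e + 1) : ℤ) : ℝ) = 1 := by
    simp only [rk]; push_cast; ring
  rw [h11] at h7
  push_cast at h7
  linarith

/-- **Lemma N.** -/
theorem lemN_aux (N : ℕ) : ∀ (α : ℝ) (X Y : QRep), 0 < α → Stable α X → Stable α Y →
    chi X.ty X.ty ≤ 0 → chi Y.ty Y.ty ≤ 0 → 1 ≤ rk X.ty → 1 ≤ rk Y.ty → 0 < cr α X.ty Y.ty →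
    tot X.ty + tot Y.ty < N → chi X.ty Y.ty < 0 := by
  induction N with
  | zero =>
    intro α X Y _ hX hY _ _ _ _ _ htot
    have h1 := X.pos.tot_pos hX.1
    have h2 := Y.pos.tot_pos hY.1
    simp only [Nat.cast_zero] at htot
    omega
  | succ N IH =>
    intro α X Y hα hX hY cX cY rX rY hcr htot
    by_contra hcon
    -- generic representatives
    obtain ⟨k, w, u, p, hp, hpt, hXs⟩ := exists_gen_stable hX
    obtain ⟨k', w', u', q, hq, hqt, hYs⟩ := exists_gen_stable hY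
    rw [← hpt] at cX rX hcr htot hcon
    rw [← hqt] at cY rY hcr htot hcon
    clear hX hY hpt hqt
    set X := ofCoord p with hXdef
    set Y := ofCoord q with hYdef
    have hX0 : X.ty ≠ 0 := hXs.1
    have hY0 : Y.ty ≠ 0 := hYs.1
    have hHom : HomZero X Y := homZero_of_nu_lt hα hXs.semistable hYs.semistable
      ((cr_pos_iff hα X.pos hX0 Y.pos hY0).1 hcr)
    have hchi : chi X.ty Y.ty = 0 := le_antisymm hHom.chi_nonpos (not_lt.1 hcon)
    -- crossing the first wall gives a contradiction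
    have key : ∀ β : ℝ, 0 < β → Semistable β X → Semistable β Y → 0 < cr β X.ty Y.ty →
        ¬ (Stable β X ∧ Stable β Y) → False := by
      intro β hβ hXβ hYβ hcrβ hnot
      refine wall_step hα hβ hp hq hXs hYs cX cY rX rY hXβ hYβ hcrβ hchi hnot ?_
      intro X₁ Y₁ h1 h2 h3 h4 h5 h6 h7 h8
      refine IH β X₁ Y₁ hβ h1 h2 h3 h4 h5 h6 h7 ?_
      have h8' : tot X₁.ty + tot Y₁.ty < tot X.ty + tot Y.ty := h8
      push_cast at htot
      omega
    have hcre : ∀ β : ℝ, cr β X.ty Y.ty = β * ((X.ty.1 * rk Y.ty - Y.ty.1 * rk X.ty : ℤ) : ℝ) +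
        ((X.ty.2.2 * rk Y.ty - Y.ty.2.2 * rk X.ty : ℤ) : ℝ) := by
      intro β
      simp only [cr, lam]
      push_cast
      ring
    obtain ⟨kX, mX⟩ := nonreal_pos cX rX X.pos.1
    obtain ⟨kY, mY⟩ := nonreal_pos cY rY Y.pos.1
    by_cases h1 : Y.ty.1 * rk X.ty ≤ X.ty.1 * rk Y.ty
    · by_cases h2 : Y.ty.2.2 * rk X.ty ≤ X.ty.2.2 * rk Y.ty
      · have := chi_neg_of_ge cY rX rY Y.pos.1 h1 h2 (by
          by_contra hc
          push Not at hc
          have e1 : X.ty.1 * rk Y.ty - Y.ty.1 * rk X.ty = 0 := by linarith [hc.1]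
          have e2 : X.ty.2.2 * rk Y.ty - Y.ty.2.2 * rk X.ty = 0 := by linarith [hc.2]
          rw [hcre, e1, e2] at hcr
          simp at hcr)
        omega
      · push Not at h2
        have h1' : Y.ty.1 * rk X.ty < X.ty.1 * rk Y.ty := by
          rcases lt_or_eq_of_le h1 with h | h
          · exact h
          · exfalso
            rw [hcre, ← h, sub_self] at hcr
            have : ((X.ty.2.2 * rk Y.ty - Y.ty.2.2 * rk X.ty : ℤ) : ℝ) < 0 := by
              exact_mod_cast (by linarith : X.ty.2.2 * rk Y.ty - Y.ty.2.2 * rk X.ty < 0)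
            simp only [Int.cast_zero, mul_zero, zero_add] at hcr
            linarith
        by_cases h3 : rk X.ty ≤ X.ty.1
        · have := chi_neg_of_rank_le cX cY rX rY X.pos.1 Y.pos.1 h1' h3
          omega
        · push Not at h3
          -- move `α` up
          have hpos : (0 : ℝ) < rk X.ty - X.ty.1 := by
            have : (0 : ℤ) < rk X.ty - X.ty.1 := by omega
            exact_mod_cast this
          obtain ⟨α', hα', hαα', hbig⟩ : ∃ α' : ℝ, 0 < α' ∧ α ≤ α' ∧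
              (X.ty.2.2 : ℝ) < α' * (rk X.ty - X.ty.1) := by
            refine ⟨α + |(X.ty.2.2 : ℝ)| / (rk X.ty - X.ty.1) + 1, by positivity, ?_, ?_⟩
            · have : 0 ≤ |(X.ty.2.2 : ℝ)| / (rk X.ty - X.ty.1) := by positivity
              linarith
            · have e1 : |(X.ty.2.2 : ℝ)| / (rk X.ty - X.ty.1) * (rk X.ty - X.ty.1) =
                |(X.ty.2.2 : ℝ)| := div_mul_cancel₀ _ hpos.ne'
              have e2 := le_abs_self (X.ty.2.2 : ℝ)
              nlinarith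
          obtain ⟨β, hβ, hβX, hβY, hnot⟩ := exists_wall (α' := α') hXs hYs (fun h =>
            not_semistable_large hα' kX hbig h.1.semistable)
          rw [Set.uIcc_of_le hαα'] at hβ
          refine key β (hα.trans_le hβ.1) hβX hβY ?_ hnot
          rw [hcre] at hcr ⊢
          have e3 : (0 : ℝ) < ((X.ty.1 * rk Y.ty - Y.ty.1 * rk X.ty : ℤ) : ℝ) := by
            exact_mod_cast (by linarith : (0 : ℤ) < X.ty.1 * rk Y.ty - Y.ty.1 * rk X.ty)
          nlinarith [hβ.1]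
    · push Not at h1
      have e3 : ((X.ty.1 * rk Y.ty - Y.ty.1 * rk X.ty : ℤ) : ℝ) < 0 := by
        exact_mod_cast (by linarith : X.ty.1 * rk Y.ty - Y.ty.1 * rk X.ty < 0)
      have h2 : Y.ty.2.2 * rk X.ty < X.ty.2.2 * rk Y.ty := by
        by_contra hc
        push Not at hc
        have e4 : ((X.ty.2.2 * rk Y.ty - Y.ty.2.2 * rk X.ty : ℤ) : ℝ) ≤ 0 := by
          exact_mod_cast (by linarith : X.ty.2.2 * rk Y.ty - Y.ty.2.2 * rk X.ty ≤ 0)
        rw [hcre] at hcr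
        nlinarith
      -- move `α` down
      have hkX : (0 : ℝ) ≤ X.ty.1 := by exact_mod_cast X.pos.1
      have hkY : (0 : ℝ) ≤ Y.ty.1 := by exact_mod_cast Y.pos.1
      obtain ⟨α', hα', hαα', hs1, hs2⟩ : ∃ α' : ℝ, 0 < α' ∧ α' ≤ α ∧ α' * X.ty.1 < 1 ∧
          α' * Y.ty.1 < 1 := by
        refine ⟨min α (1 / (X.ty.1 + Y.ty.1 + 1)), lt_min hα (by positivity), min_le_left _ _,
          ?_, ?_⟩
        · calc min α (1 / (X.ty.1 + Y.ty.1 + 1)) * X.ty.1 ≤ 1 / (X.ty.1 + Y.ty.1 + 1) * X.ty.1 :=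
              mul_le_mul_of_nonneg_right (min_le_right _ _) hkX
            _ < 1 := by
              rw [one_div, inv_mul_lt_iff₀ (by positivity)]
              linarith
        · calc min α (1 / (X.ty.1 + Y.ty.1 + 1)) * Y.ty.1 ≤ 1 / (X.ty.1 + Y.ty.1 + 1) * Y.ty.1 :=
              mul_le_mul_of_nonneg_right (min_le_right _ _) hkY
            _ < 1 := by
              rw [one_div, inv_mul_lt_iff₀ (by positivity)]
              linarith
      by_cases hst : Stable α' X ∧ Stable α' Y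
      · have d1 := dvd_of_semistable_small hα' rX hs1 hst.1.semistable
        have d2 := dvd_of_semistable_small hα' rY hs2 hst.2.semistable
        have := chi_neg_of_dvd cX cY rX rY X.pos.1 Y.pos.1 d1 d2 h2
        omega
      · obtain ⟨β, hβ, hβX, hβY, hnot⟩ := exists_wall (α' := α') hXs hYs hst
        rw [Set.uIcc_of_ge hαα'] at hβ
        refine key β (hα'.trans_le hβ.1) hβX hβY ?_ hnot
        rw [hcre] at hcr ⊢
        nlinarith [hβ.2]

theorem lemN {α : ℝ} {X Y : QRep} (hα : 0 < α) (hX : Stable α X) (hY : Stable α Y)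
    (cX : chi X.ty X.ty ≤ 0) (cY : chi Y.ty Y.ty ≤ 0) (rX : 1 ≤ rk X.ty) (rY : 1 ≤ rk Y.ty)
    (hcr : 0 < cr α X.ty Y.ty) : chi X.ty Y.ty < 0 :=
  lemN_aux (tot X.ty + tot Y.ty + 1).toNat α X Y hα hX hY cX cY rX rY hcr (by
    have h1 := X.pos.tot_pos hX.1
    have h2 := Y.pos.tot_pos hY.1
    omega)

/-- **Lemma N0**: equal slopes. -/
theorem lemN0 {α : ℝ} {X Y : QRep} (hα : 0 < α) (hX : Stable α X) (hY : Stable α Y)
    (cX : chi X.ty X.ty ≤ 0) (cY : chi Y.ty Y.ty ≤ 0) (rX : 1 ≤ rk X.ty) (rY : 1 ≤ rk Y.ty)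
    (hcr : cr α X.ty Y.ty = 0) (hchi : 0 ≤ chi X.ty Y.ty) :
    X.ty.1 * rk Y.ty = Y.ty.1 * rk X.ty ∧ X.ty.2.2 * rk Y.ty = Y.ty.2.2 * rk X.ty ∧
      chi X.ty X.ty = 0 ∧ chi Y.ty Y.ty = 0 := by
  have hcre : ∀ β : ℝ, cr β X.ty Y.ty = β * ((X.ty.1 * rk Y.ty - Y.ty.1 * rk X.ty : ℤ) : ℝ) +
      ((X.ty.2.2 * rk Y.ty - Y.ty.2.2 * rk X.ty : ℤ) : ℝ) := by
    intro β
    simp only [cr, lam]
    push_cast
    ring
  have hD : X.ty.1 * rk Y.ty - Y.ty.1 * rk X.ty = 0 := by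
    by_contra hD
    have hev := (hX.eventually.and hY.eventually).and (lt_mem_nhds hα)
    obtain ⟨ε, hε, hball⟩ := Metric.eventually_nhds_iff.1 hev
    have hb1 := hball (y := α + ε / 2) (by rw [Real.dist_eq]; simp; rw [abs_of_pos] <;> linarith)
    have hb2 := hball (y := α - ε / 2) (by
      rw [Real.dist_eq]
      have : α - ε / 2 - α = - (ε / 2) := by ring
      rw [this, abs_neg, abs_of_pos] <;> linarith)
    rw [hcre] at hcr
    rcases lt_or_gt_of_ne hD with h | h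
    · have h' : ((X.ty.1 * rk Y.ty - Y.ty.1 * rk X.ty : ℤ) : ℝ) < 0 := by exact_mod_cast h
      have := lemN hb2.2 hb2.1.1 hb2.1.2 cX cY rX rY (by rw [hcre]; nlinarith)
      omega
    · have h' : (0 : ℝ) < ((X.ty.1 * rk Y.ty - Y.ty.1 * rk X.ty : ℤ) : ℝ) := by exact_mod_cast h
      have := lemN hb1.2 hb1.1.1 hb1.1.2 cX cY rX rY (by rw [hcre]; nlinarith)
      omega
  have hE : X.ty.2.2 * rk Y.ty - Y.ty.2.2 * rk X.ty = 0 := by
    rw [hcre, hD, Int.cast_zero, mul_zero, zero_add] at hcr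
    exact_mod_cast hcr
  have e1 : X.ty.1 * rk Y.ty = Y.ty.1 * rk X.ty := by linarith
  have e2 : X.ty.2.2 * rk Y.ty = Y.ty.2.2 * rk X.ty := by linarith
  -- `rk X • Y = rk Y • X`
  obtain ⟨-, f1⟩ := chi_comb (a := X.ty) (b := X.ty) (X := Y.ty) (D := rk X.ty) (p := rk Y.ty)
    (q := 0) (by linarith) (by ring) (by linarith) X.ty
  obtain ⟨f2, -⟩ := chi_comb (a := X.ty) (b := X.ty) (X := Y.ty) (D := rk X.ty) (p := rk Y.ty)
    (q := 0) (by linarith) (by ring) (by linarith) Y.ty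
  have cX0 : chi X.ty X.ty = 0 := by
    by_contra hne
    have h1 : chi X.ty X.ty < 0 := lt_of_le_of_ne cX hne
    nlinarith
  refine ⟨e1, e2, cX0, ?_⟩
  rw [cX0, mul_zero, zero_mul, add_zero] at f1
  have h2 : chi X.ty Y.ty = 0 := by
    rcases mul_eq_zero.1 f1 with h | h
    · omega
    · exact h
  rw [h2, mul_zero, zero_mul, add_zero] at f2
  rcases mul_eq_zero.1 f2 with h | h
  · omega
  · exact h

end CohP1
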