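import Pool.Agent.Lib_helper87.Coh.Wall

/-!
# Powers; Euler form against semistable objects of the same phase
-/

namespace CohP1

open Module

variable {A B C M N X Y : QRep}

/-- Powers. -/
def QRep.pow (M : QRep) (r : ℕ) : QRep where
  V := Fin r → M.V
  W := Fin r → M.W
  U := Fin r → M.U
  f := LinearMap.pi fun j => M.f ∘ₗ LinearMap.proj j
  x := LinearMap.pi fun j => M.x ∘ₗ LinearMap.proj j
  y := LinearMap.pi fun j => M.y ∘ₗ LinearMap.proj j

lemma QRep.ty_pow (M : QRep) (r : ℕ) : (M.pow r).ty = (r : ℤ) • M.ty := by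
  show ((finrank ℂ (Fin r → M.V) : ℤ), (finrank ℂ (Fin r → M.W) : ℤ),
    (finrank ℂ (Fin r → M.U) : ℤ)) = _
  rw [finrank_pi_fintype, finrank_pi_fintype, finrank_pi_fintype]
  simp [QRep.ty]

lemma ExtZero.pow (h : ExtZero A M) (r : ℕ) : ExtZero A (M.pow r) := by
  intro e
  choose g hg using fun j : Fin r => h ((LinearMap.proj j : (Fin r → M.W) →ₗ[ℂ] M.W) ∘ₗ e.1,
    (LinearMap.proj j : (Fin r → M.W) →ₗ[ℂ] M.W) ∘ₗ e.2.1,
    (LinearMap.proj j : (Fin r → M.W) →ₗ[ℂ] M.W) ∘ₗ e.2.2)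
  refine ⟨(LinearMap.pi fun j => (g j).1, LinearMap.pi fun j => (g j).2.1,
    LinearMap.pi fun j => (g j).2.2), ?_⟩
  refine Prod.ext ?_ (Prod.ext ?_ ?_)
  · refine LinearMap.ext fun a => funext fun j => ?_
    exact LinearMap.congr_fun (congrArg Prod.fst (hg j)) a
  · refine LinearMap.ext fun a => funext fun j => ?_
    exact LinearMap.congr_fun (congrArg (fun p => p.2.1) (hg j)) a
  · refine LinearMap.ext fun a => funext fun j => ?_
    exact LinearMap.congr_fun (congrArg (fun p => p.2.2) (hg j)) a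

/-- Stable objects of the same phase. -/
lemma chi_nonpos_of_stable {α : ℝ} (hα : 0 < α) (hA : Stable α A) (hB : Stable α B)
    (hnu : nu α A.ty = nu α B.ty) (h : chi A.ty A.ty ≤ 0 ∨ chi B.ty B.ty ≤ 0) :
    chi A.ty B.ty ≤ 0 := by
  by_cases hz : HomZero A B
  · exact hz.chi_nonpos
  · unfold HomZero at hz
    push Not at hz
    obtain ⟨g, hg⟩ := hz
    obtain ⟨h1, h2⟩ := iso_of_stable hα hA hB hg hnu.ge
    have h3 : A.ty = B.ty := by rw [← Hom.ty_im_of_inj h1, Hom.ty_im_of_surj h2]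
    rw [h3] at h ⊢
    rcases h with h | h <;> exact h

lemma chi_nonpos_right {α : ℝ} (hα : 0 < α) (hA : Stable α A) (hAn : chi A.ty A.ty ≤ 0) (t : ℕ) :
    ∀ N : QRep, Semistable α N → (N.ty = 0 ∨ nu α N.ty = nu α A.ty) → tot N.ty < t →
      chi A.ty N.ty ≤ 0 := by
  induction t with
  | zero =>
    intro N _ _ ht
    have h1 := N.pos
    simp only [Pos, tot] at h1 ht
    simp only [Nat.cast_zero] at ht
    omega
  | succ t IH =>
    intro N hN hnu ht
    by_cases hN0 : N.ty = 0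
    · rw [hN0, chi_zero_right]
    have hnu := hnu.resolve_left hN0
    obtain ⟨C, i, hi, hC, hmax⟩ := exists_stable_sub hα hN0
    have h1 : nu α C.ty = nu α N.ty :=
      le_antisymm (hN.nu_le hα i hi hC.1 hN0) (hmax N (Hom.id N) (Hom.id_inj N) hN0).1
    have h2 : chi A.ty C.ty ≤ 0 :=
      chi_nonpos_of_stable hα hA hC (by rw [h1, hnu]) (Or.inl hAn)
    by_cases hCN : C.ty = N.ty
    · rwa [← hCN]
    · obtain ⟨h3, h4, h5⟩ := coker_phase hα hN hN0 i hi hC.1 h1 hCN
      have h6 := IH i.coker h5 (Or.inr (by rw [h4, hnu])) (by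
        rw [Hom.ty_coker_of_inj hi, tot_sub]
        have := C.pos.tot_pos hC.1
        push_cast at ht
        omega)
      rw [Hom.ty_coker_of_inj hi, chi_sub_right] at h6
      linarith

lemma chi_nonpos_left {α : ℝ} (hα : 0 < α) (hB : Stable α B) (hBn : chi B.ty B.ty ≤ 0) (t : ℕ) :
    ∀ N : QRep, Semistable α N → (N.ty = 0 ∨ nu α N.ty = nu α B.ty) → tot N.ty < t →
      chi N.ty B.ty ≤ 0 := by
  induction t with
  | zero =>
    intro N _ _ ht
    have h1 := N.pos
    simp only [Pos, tot] at h1 ht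
    simp only [Nat.cast_zero] at ht
    omega
  | succ t IH =>
    intro N hN hnu ht
    by_cases hN0 : N.ty = 0
    · rw [hN0, chi_zero_left]
    have hnu := hnu.resolve_left hN0
    obtain ⟨C, i, hi, hC, hmax⟩ := exists_stable_sub hα hN0
    have h1 : nu α C.ty = nu α N.ty :=
      le_antisymm (hN.nu_le hα i hi hC.1 hN0) (hmax N (Hom.id N) (Hom.id_inj N) hN0).1
    have h2 : chi C.ty B.ty ≤ 0 :=
      chi_nonpos_of_stable hα hC hB (by rw [h1, hnu]) (Or.inr hBn)
    by_cases hCN : C.ty = N.ty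
    · rwa [← hCN]
    · obtain ⟨h3, h4, h5⟩ := coker_phase hα hN hN0 i hi hC.1 h1 hCN
      have h6 := IH i.coker h5 (Or.inr (by rw [h4, hnu])) (by
        rw [Hom.ty_coker_of_inj hi, tot_sub]
        have := C.pos.tot_pos hC.1
        push_cast at ht
        omega)
      rw [Hom.ty_coker_of_inj hi, chi_sub_left] at h6
      linarith

end CohP1
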