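import Pool.Agent.Lib_helper87.Coh.LemN
import Pool.Agent.Lib_helper87.Coh.Pow
import Pool.Agent.Lib_helper87.Coh.AdmDef

/-!
# Stable representations exist exactly for admissible types
-/

namespace CohP1

open Module

variable {A B C M N X Y : QRep}

/-- The dimension type of `(n,d,k)`. -/
def tyOf (n d k : ℕ) : Ty := ((k : ℤ), ((n + d : ℕ) : ℤ), (d : ℤ))

lemma rk_tyOf (n d k : ℕ) : rk (tyOf n d k) = n := by simp [rk, tyOf]

lemma chi_tyOf (n d k n' d' k' : ℕ) : chi (tyOf n d k) (tyOf n' d' k') = euler n d k n' d' k' := by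
  simp only [chi, tyOf, euler]; push_cast; ring

lemma tot_tyOf (n d k : ℕ) : tot (tyOf n d k) = n + 2 * d + k := by
  simp only [tot, tyOf]; push_cast; ring

lemma tyOf_inj {n d k n' d' k' : ℕ} (h : tyOf n d k = tyOf n' d' k') :
    (n, d, k) = (n', d', k') := by
  simp only [tyOf, Prod.mk.injEq, Nat.cast_inj] at h
  obtain ⟨a, b, c⟩ := h
  simp only [Prod.mk.injEq]
  omega

/-- A type of positive rank is of the form `tyOf n d k`. -/
lemma exists_tyOf (M : QRep) (h : 1 ≤ rk M.ty) : ∃ n d k : ℕ, 1 ≤ n ∧ M.ty = tyOf n d k := by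
  have h1 := M.pos
  refine ⟨(rk M.ty).toNat, finrank ℂ M.U, finrank ℂ M.V, by omega, ?_⟩
  have h2 : ((rk M.ty).toNat : ℤ) = rk M.ty := Int.toNat_of_nonneg (by omega)
  simp only [tyOf]
  push_cast
  rw [h2]
  simp only [rk, QRep.ty]
  refine Prod.ext rfl (Prod.ext ?_ rfl)
  simp

lemma slope_le_iff {α : ℝ} {n d k n' d' k' : ℕ} (hn : 1 ≤ n) (hn' : 1 ≤ n') :
    slope α n d k ≤ slope α n' d' k' ↔ 0 ≤ cr α (tyOf n' d' k') (tyOf n d k) := by
  have h1 : (0 : ℝ) < n := by exact_mod_cast hn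
  have h2 : (0 : ℝ) < n' := by exact_mod_cast hn'
  have e1 : slope α n d k = (d + α * k) / n := by simp only [slope]; push_cast; ring
  have e2 : slope α n' d' k' = (d' + α * k') / n' := by simp only [slope]; push_cast; ring
  have e3 : cr α (tyOf n' d' k') (tyOf n d k) = (d' + α * k') * n - (d + α * k) * n' := by
    simp only [cr, lam]
    rw [rk_tyOf, rk_tyOf]
    simp only [tyOf]
    push_cast
    ring
  rw [e1, e2, e3, div_le_div_iff₀ h1 h2]
  constructor <;> intro h <;> linarith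

/-- Stable subobjects of real type contradict admissibility. -/
lemma sub_contra {α : ℝ} {n d k : ℕ} (hn : 1 ≤ n) (hadm : Adm α n d k)
    {k₀ w₀ u₀ : ℕ} {p : Idx k₀ w₀ u₀ → ℂ} (hp : Gen p) (hty : (ofCoord p).ty = tyOf n d k)
    (IH : ∀ n' d' k' : ℕ, 1 ≤ n' → n' + 2 * d' + k' < n + 2 * d + k →
      ∀ M : QRep, M.ty = tyOf n' d' k' → Stable α M → Adm α n' d' k')
    (A : QRep) (i : Hom A (ofCoord p)) (hi : i.Inj) (hA : Stable α A) (rA : 1 ≤ rk A.ty)
    (cA : chi A.ty A.ty = 1) (hne : A.ty ≠ tyOf n d k) (hcr : 0 ≤ cr α A.ty (tyOf n d k)) :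
    False := by
  obtain ⟨n', d', k', hn', hAt⟩ := exists_tyOf A rA
  have hle := hi.tyLE
  have h1 := count_sub hp i hi
  rw [hty, chi_sub_right, cA] at h1
  rw [hty] at hle
  have htot := tot_lt_of_tyLE hle hne
  rw [hAt] at hle htot h1 cA hne hcr
  rw [tot_tyOf, tot_tyOf] at htot
  have hadm' := IH n' d' k' hn' (by omega) A hAt hA
  have h2 : (n', d', k') ≠ (n, d, k) := by
    intro h
    simp only [Prod.mk.injEq] at h
    obtain ⟨rfl, rfl, rfl⟩ := h
    exact hne rfl
  rw [Adm] at hadm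
  obtain ⟨a, b, c⟩ := hle
  simp only [tyOf, Nat.cast_le] at a b c
  have h3 := (hadm.2.2 n' d' k' hn' a c b h2 (by rw [← chi_tyOf]; exact cA) hadm').1
    ((slope_le_iff hn hn').2 hcr)
  rw [← chi_tyOf] at h3
  linarith

/-- Stable quotients of real type contradict admissibility. -/
lemma quot_contra {α : ℝ} {n d k : ℕ} (hn : 1 ≤ n) (hadm : Adm α n d k)
    {k₀ w₀ u₀ : ℕ} {p : Idx k₀ w₀ u₀ → ℂ} (hp : Gen p) (hty : (ofCoord p).ty = tyOf n d k)
    (IH : ∀ n' d' k' : ℕ, 1 ≤ n' → n' + 2 * d' + k' < n + 2 * d + k →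
      ∀ M : QRep, M.ty = tyOf n' d' k' → Stable α M → Adm α n' d' k')
    (B : QRep) (q : Hom (ofCoord p) B) (hq : q.Surj) (hB : Stable α B) (rB : 1 ≤ rk B.ty)
    (cB : chi B.ty B.ty = 1) (hne : B.ty ≠ tyOf n d k) (hcr : 0 ≤ cr α (tyOf n d k) B.ty) :
    False := by
  obtain ⟨n', d', k', hn', hBt⟩ := exists_tyOf B rB
  have hle := hq.tyLE
  have h1 := count_sub hp q.kerι q.kerι_inj
  rw [Hom.ty_ker_of_surj hq, sub_sub_cancel, chi_sub_left, cB, hty] at h1
  rw [hty] at hle
  have htot := tot_lt_of_tyLE hle hne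
  rw [hBt] at hle htot h1 cB hne hcr
  rw [tot_tyOf, tot_tyOf] at htot
  have hadm' := IH n' d' k' hn' (by omega) B hBt hB
  have h2 : (n', d', k') ≠ (n, d, k) := by
    intro h
    simp only [Prod.mk.injEq] at h
    obtain ⟨rfl, rfl, rfl⟩ := h
    exact hne rfl
  rw [Adm] at hadm
  obtain ⟨a, b, c⟩ := hle
  simp only [tyOf, Nat.cast_le] at a b c
  have h3 := (hadm.2.2 n' d' k' hn' a c b h2 (by rw [← chi_tyOf]; exact cB) hadm').2
    ((slope_le_iff hn' hn).2 hcr)
  rw [← chi_tyOf] at h3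
  linarith

/-- Existence for admissible types (induction step). -/
lemma suff_step {α : ℝ} (hα : 0 < α) {n d k : ℕ} (hn : 1 ≤ n) (hadm : Adm α n d k)
    {p : Idx k (n + d) d → ℂ} (hp : Gen p)
    (IH : ∀ n' d' k' : ℕ, 1 ≤ n' → n' + 2 * d' + k' < n + 2 * d + k →
      ∀ M : QRep, M.ty = tyOf n' d' k' → Stable α M → Adm α n' d' k') :
    Stable α (ofCoord p) := by
  have hty : (ofCoord p).ty = tyOf n d k := ty_ofCoord p
  have hadm1 : chi (tyOf n d k) (tyOf n d k) ≤ 1 := by
    have h := hadm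
    rw [Adm] at h
    rw [chi_tyOf]
    exact h.1
  have hkw : k ≤ n + d := by
    by_contra hc
    push Not at hc
    rw [chi_self, rk_tyOf] at hadm1
    simp only [tyOf] at hadm1
    have h1 : (k : ℤ) ≥ 1 := by omega
    have h2 : ((n + d : ℕ) : ℤ) - k ≤ -1 := by omega
    have h3 : (n : ℤ) ≥ 1 := by exact_mod_cast hn
    nlinarith
  set M := ofCoord p with hM
  have rM : 1 ≤ rk M.ty := by rw [hty, rk_tyOf]; exact_mod_cast hn
  have hM0 : M.ty ≠ 0 := ne_zero_of_rk rM
  by_contra hns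
  by_cases hss : Semistable α M
  · -- the semistable case
    obtain ⟨A, i, hi, hA, hnA, hAM⟩ := exists_stable_sub' hα hM0 hss hns
    obtain ⟨B₀, q₀, hq₀, hB₀, hnB₀, hB₀M⟩ := exists_stable_quot' hα hM0 hss hns
    have nonreal_sub : ∀ (A : QRep) (i : Hom A M), i.Inj → Stable α A → nu α A.ty = nu α M.ty →
        A.ty ≠ M.ty → chi A.ty A.ty ≤ 0 := by
      intro A i hi hA hnA hAM
      by_contra hc
      have h1 := chi_le_one hα hA
      refine sub_contra hn hadm hp hty IH A i hi hA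
        (rk_pos_of_nu_le hα A.pos hA.1 M.pos rM hnA.le) (by omega) (by rwa [← hty]) ?_
      rw [← hty, cr_nonneg_iff hα A.pos hA.1 M.pos hM0, hnA]
    have nonreal_quot : ∀ (B : QRep) (q : Hom M B), q.Surj → Stable α B → nu α B.ty = nu α M.ty →
        B.ty ≠ M.ty → chi B.ty B.ty ≤ 0 := by
      intro B q hq hB hnB hBM
      by_contra hc
      have h1 := chi_le_one hα hB
      refine quot_contra hn hadm hp hty IH B q hq hB
        (rk_pos_of_nu_le hα B.pos hB.1 M.pos rM hnB.le) (by omega) (by rwa [← hty]) ?_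
      rw [← hty, cr_nonneg_iff hα M.pos hM0 B.pos hB.1, hnB]
    have cA := nonreal_sub A i hi hA hnA hAM
    have cB₀ := nonreal_quot B₀ q₀ hq₀ hB₀ hnB₀ hB₀M
    -- a stable quotient of `M / A`
    obtain ⟨n1, n2, n3⟩ := coker_phase hα hss hM0 i hi hA.1 hnA hAM
    have e1 : chi A.ty i.coker.ty ≤ 0 := chi_nonpos_right hα hA cA (tot i.coker.ty + 1).toNat
      i.coker n3 (Or.inr (by rw [n2, hnA])) (by
        have := i.coker.pos.tot_pos n1
        omega)
    have e2 : 0 ≤ chi A.ty i.coker.ty := by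
      rw [Hom.ty_coker_of_inj hi]
      exact count_sub hp i hi
    have e3 : chi A.ty i.coker.ty = 0 := le_antisymm e1 e2
    obtain ⟨B, q, hq, hB, hmin⟩ := exists_stable_quot hα n1
    have hnB : nu α B.ty = nu α M.ty := by
      rw [← n2]
      exact le_antisymm (hmin i.coker (Hom.id _) (Hom.id_surj _) n1).1
        (n3.nu_ge hα q hq hB.1 n1)
    have hBM : B.ty ≠ M.ty := by
      intro h
      have h1 := tot_le_of_tyLE hq.tyLE
      rw [h, Hom.ty_coker_of_inj hi, tot_sub] at h1
      have := A.pos.tot_pos hA.1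
      omega
    have cB := nonreal_quot B (q.comp i.cokerπ) (hq.comp i.cokerπ_surj) hB hnB hBM
    have e4 : 0 ≤ chi A.ty B.ty := by
      by_cases hBc : B.ty = i.coker.ty
      · rw [hBc, e3]
      · obtain ⟨m1, m2, m3⟩ := ker_phase hα n3 n1 q hq hB.1 (by rw [hnB, n2]) hBc
        have h1 : chi A.ty q.ker.ty ≤ 0 := chi_nonpos_right hα hA cA (tot q.ker.ty + 1).toNat
          q.ker m3 (Or.inr (by rw [m2, n2, hnA])) (by
            have := q.ker.pos.tot_pos m1
            omega)
        rw [Hom.ty_ker_of_surj hq, chi_sub_right, e3] at h1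
        linarith
    have rA : 1 ≤ rk A.ty := rk_pos_of_nu_le hα A.pos hA.1 M.pos rM hnA.le
    have rB : 1 ≤ rk B.ty := rk_pos_of_nu_le hα B.pos hB.1 M.pos rM hnB.le
    obtain ⟨f1, f2, f3, f4⟩ := lemN0 hα hA hB cA cB rA rB
      ((cr_eq_zero_iff hα A.pos hA.1 B.pos hB.1).2 (by rw [hnA, hnB])) e4
    -- `chi A M = 0`
    have g1 : chi A.ty M.ty = 0 := by
      rw [Hom.ty_coker_of_inj hi, chi_sub_right, f3] at e3
      linarith
    -- `chi M B = 0`
    have g2 : chi M.ty B.ty = 0 := by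
      obtain ⟨m1, m2, m3⟩ := ker_phase hα hss hM0 (q.comp i.cokerπ) (hq.comp i.cokerπ_surj)
        hB.1 hnB hBM
      have h1 := chi_nonpos_left hα hB cB (tot (q.comp i.cokerπ).ker.ty + 1).toNat
        (q.comp i.cokerπ).ker m3 (Or.inr (by rw [m2, hnB])) (by
            have := (q.comp i.cokerπ).ker.pos.tot_pos m1
            omega)
      have h2 := count_sub hp (q.comp i.cokerπ).kerι (Hom.kerι_inj _)
      rw [Hom.ty_ker_of_surj (hq.comp i.cokerπ_surj), chi_sub_left, f4] at h1
      rw [Hom.ty_ker_of_surj (hq.comp i.cokerπ_surj), sub_sub_cancel, chi_sub_left, f4] at h2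
      have h3 : (ofCoord p).ty = M.ty := rfl
      rw [h3] at h2
      linarith
    -- `chi M A = 0`
    have g3 : chi M.ty A.ty = 0 := by
      obtain ⟨-, h1⟩ := chi_comb (a := A.ty) (b := A.ty) (X := B.ty) (D := rk A.ty) (p := rk B.ty)
        (q := 0) (by linarith) (by ring) (by linarith) M.ty
      rw [g2, mul_zero, zero_mul, add_zero] at h1
      rcases mul_eq_zero.1 h1.symm with h | h
      · omega
      · exact h
    obtain ⟨p1, p2⟩ := null_prop f3 rA A.pos.1 g1 g3
    -- `M` is null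
    have hMn : chi M.ty M.ty = 0 := by
      obtain ⟨h1, -⟩ := chi_comb (a := A.ty) (b := A.ty) (X := M.ty) (D := rk A.ty) (p := rk M.ty)
        (q := 0) (by linarith) (by ring) (by linarith) M.ty
      rw [g1, mul_zero, zero_mul, add_zero] at h1
      rcases mul_eq_zero.1 h1 with h | h
      · omega
      · exact h
    -- primitivity
    have hgcd : Nat.gcd n (Nat.gcd d k) = 1 := by
      have h := hadm
      rw [Adm] at h
      exact h.2.1 (by rw [← chi_tyOf, ← hty]; exact hMn)
    obtain ⟨n', d', k', hn', hAt⟩ := exists_tyOf A rA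
    have hlt := tot_lt_of_tyLE hi.tyLE hAM
    rw [hty, hAt, rk_tyOf, rk_tyOf] at p1 p2
    rw [hty, hAt, tot_tyOf, tot_tyOf] at hlt
    simp only [tyOf] at p1 p2
    have q1 : k * n' = k' * n := by exact_mod_cast p1
    have q2 : d * n' = d' * n := by exact_mod_cast p2
    have hdvd : n ∣ n' := by
      have h1 : n ∣ Nat.gcd (n' * n) (Nat.gcd (n' * d) (n' * k)) := by
        refine Nat.dvd_gcd (Dvd.intro_left _ rfl) (Nat.dvd_gcd ?_ ?_)
        · rw [mul_comm n' d, q2]; exact Dvd.intro_left _ rfl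
        · rw [mul_comm n' k, q1]; exact Dvd.intro_left _ rfl
      rw [Nat.gcd_mul_left, Nat.gcd_mul_left, hgcd, mul_one] at h1
      exact h1
    obtain ⟨c, hc⟩ := hdvd
    have hc1 : 1 ≤ c := by
      rcases Nat.eq_zero_or_pos c with h | h
      · rw [h, mul_zero] at hc; omega
      · exact h
    have hd' : d' = d * c := by
      apply Nat.eq_of_mul_eq_mul_right (show 0 < n by omega)
      rw [← q2, hc]; ring
    have hk' : k' = k * c := by
      apply Nat.eq_of_mul_eq_mul_right (show 0 < n by omega)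
      rw [← q1, hc]; ring
    have z1 : n ≤ n' := by rw [hc]; exact Nat.le_mul_of_pos_right n hc1
    have z2 : d ≤ d' := by rw [hd']; exact Nat.le_mul_of_pos_right d hc1
    have z3 : k ≤ k' := by rw [hk']; exact Nat.le_mul_of_pos_right k hc1
    omega
  · -- the unstable case
    obtain ⟨S, j, hj, hS0, hmax⟩ := exists_max_sub α hM0 (fun t => (tot t : ℝ))
    have hmax' : ∀ (C : QRep) (l : Hom C M), l.Inj → C.ty ≠ 0 →
        nu α C.ty ≤ nu α S.ty ∧ (nu α C.ty = nu α S.ty → tot C.ty ≤ tot S.ty) := by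
      intro C l hl hC
      obtain ⟨h1, h2⟩ := hmax C l hl hC
      exact ⟨h1, fun e => by exact_mod_cast h2 e⟩
    have hSM : nu α M.ty < nu α S.ty := by
      unfold Semistable at hss
      push Not at hss
      obtain ⟨C, l, hl, hCcr⟩ := hss
      have hC0 : C.ty ≠ 0 := by
        intro h; rw [h, cr_zero_left] at hCcr; exact lt_irrefl _ hCcr
      rw [cr_pos_iff hα C.pos hC0 M.pos hM0] at hCcr
      exact hCcr.trans_le (hmax' C l hl hC0).1
    have hSne : S.ty ≠ M.ty := by
      intro h; rw [h] at hSM; exact lt_irrefl _ hSM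
    have hSss : Semistable α S := by
      intro C l hl
      by_cases hC : C.ty = 0
      · rw [hC, cr_zero_left]
      rw [cr_nonpos_iff hα C.pos hC S.pos hS0]
      exact (hmax' C (j.comp l) (hj.comp hl) hC).1
    have hQty : j.coker.ty = M.ty - S.ty := Hom.ty_coker_of_inj hj
    have hHomSQ : HomZero S j.coker := by
      intro g
      by_contra hg
      have h1 := Hom.im_ty_ne_zero hg
      have h2 : nu α S.ty ≤ nu α g.im.ty := hSss.nu_ge hα g.toIm g.toIm_surj h1 hS0
      -- preimage of the image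
      have h3 : (Hom.preim j.cokerπ g.imι).ty = S.ty + g.im.ty := by
        rw [Hom.ty_preim j.cokerπ_surj g.imι_inj, Hom.ty_ker_of_surj j.cokerπ_surj, hQty,
          sub_sub_cancel]
      have h4 : (Hom.preim j.cokerπ g.imι).ty ≠ 0 := by
        intro h
        have h5 := S.pos.tot_pos hS0
        have h6 := g.im.pos.tot_pos h1
        have h7 := congrArg tot h3
        rw [h, tot_add] at h7
        simp only [tot, Prod.fst_zero, Prod.snd_zero] at h5 h6 h7
        omega
      obtain ⟨h5, h6⟩ := hmax' _ (Hom.preimι j.cokerπ g.imι) (Hom.preimι_inj _ _) h4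
      have h7 : nu α (Hom.preim j.cokerπ g.imι).ty = nu α S.ty := by
        apply le_antisymm h5
        rw [← cr_nonneg_iff hα (QRep.pos _) h4 S.pos hS0, h3, cr_add_left, cr_self, zero_add,
          cr_nonneg_iff hα g.im.pos h1 S.pos hS0]
        exact h2
      have h8 := h6 h7
      rw [h3, tot_add] at h8
      have := g.im.pos.tot_pos h1
      omega
    have hExtSQ : ExtZero S j.coker := hHomSQ.extZero (by
      rw [hQty]
      exact count_sub hp j hj)
    -- stable subobject of `S`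
    obtain ⟨A, i, hi, hA, hAmax⟩ := exists_stable_sub hα hS0
    have hnA : nu α A.ty = nu α S.ty :=
      le_antisymm (hSss.nu_le hα i hi hA.1 hS0) (hAmax S (Hom.id S) (Hom.id_inj S) hS0).1
    have rA : 1 ≤ rk A.ty := rk_pos_of_gen hp hkw (by omega) (j.comp i) (hj.comp hi) hA.1
    have hAM : A.ty ≠ M.ty := by
      intro h; rw [← hnA, h] at hSM; exact lt_irrefl _ hSM
    have cA : chi A.ty A.ty ≤ 0 := by
      by_contra hc
      have h1 := chi_le_one hα hA
      refine sub_contra hn hadm hp hty IH A (j.comp i) (hj.comp hi) hA rA (by omega)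
        (by rwa [← hty]) ?_
      rw [← hty]
      refine ((cr_pos_iff hα A.pos hA.1 M.pos hM0).2 ?_).le
      rw [hnA]; exact hSM
    -- stable quotient of `M`
    obtain ⟨B, q, hq, hB, hBmin⟩ := exists_stable_quot hα hM0
    have hnB : nu α B.ty ≤ nu α M.ty := (hBmin M (Hom.id M) (Hom.id_surj M) hM0).1
    have rB : 1 ≤ rk B.ty := rk_pos_of_nu_le hα B.pos hB.1 M.pos rM hnB
    have hHomSB : HomZero S B := homZero_of_nu_lt hα hSss hB.semistable (hnB.trans_lt hSM)
    have hBM : B.ty ≠ M.ty := by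
      intro h
      have h1 := tot_le_of_tyLE (Hom.desc_surj (hHomSB (q.comp j)) hq).tyLE
      rw [h, hQty, tot_sub] at h1
      have := S.pos.tot_pos hS0
      omega
    have cB : chi B.ty B.ty ≤ 0 := by
      by_contra hc
      have h1 := chi_le_one hα hB
      refine quot_contra hn hadm hp hty IH B q hq hB rB (by omega) (by rwa [← hty]) ?_
      rw [← hty, cr_nonneg_iff hα M.pos hM0 B.pos hB.1]
      exact hnB
    have hExtAB : ExtZero A B :=
      (hExtSQ.of_inj i hi).of_surj (Hom.desc j q (hHomSB (q.comp j)))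
        (Hom.desc_surj (hHomSB (q.comp j)) hq)
    have := lemN hα hA hB cA cB rA rB (by
      rw [cr_pos_iff hα A.pos hA.1 B.pos hB.1, hnA]
      exact hnB.trans_lt hSM)
    have := hExtAB.chi_nonneg
    omega

end CohP1
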