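import Pool.Agent.Lib_helper87.Coh.Main

/-!
# Types of stable representations are admissible
-/

namespace CohP1

open Module

variable {A B C M N X Y : QRep}

lemma nec_step {α : ℝ} (hα : 0 < α) {n d k : ℕ} (hn : 1 ≤ n) (hM : Stable α M)
    (hty : M.ty = tyOf n d k)
    (IH : ∀ n' d' k' : ℕ, 1 ≤ n' → n' + 2 * d' + k' < n + 2 * d + k → Adm α n' d' k' →
      ∀ p : Idx k' (n' + d') d' → ℂ, Gen p → Stable α (ofCoord p)) :
    Adm α n d k := by
  have hM0 : M.ty ≠ 0 := hM.1
  have key : ∀ n' d' k' : ℕ, 1 ≤ n' → k' ≤ k → d' ≤ d → n' + d' ≤ n + d →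
      (n', d', k') ≠ (n, d, k) → Adm α n' d' k' →
      (slope α n d k ≤ slope α n' d' k' → euler n' d' k' n d k ≤ 0) ∧
      (slope α n' d' k' ≤ slope α n d k → euler n d k n' d' k' ≤ 0) := by
    intro n' d' k' hn' hk hd hnd hne hadm
    have hlt : n' + 2 * d' + k' < n + 2 * d + k := by
      simp only [ne_eq, Prod.mk.injEq, not_and] at hne
      omega
    obtain ⟨p, hp⟩ := exists_algInd (Idx k' (n' + d') d')
    have hC := IH n' d' k' hn' hlt hadm p hp
    have hCt : (ofCoord p).ty = tyOf n' d' k' := ty_ofCoord p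
    set C := ofCoord p with hCdef
    have hneT : C.ty ≠ M.ty := by
      rw [hCt, hty]
      intro h
      exact hne (tyOf_inj h)
    constructor
    · intro hs
      by_contra hc
      rw [slope_le_iff hn hn', ← hty, ← hCt,
        cr_nonneg_iff hα C.pos hC.1 M.pos hM0] at hs
      rw [← chi_tyOf, ← hty, ← hCt] at hc
      obtain ⟨g, hg⟩ := exists_hom_of_chi_pos (not_le.1 hc)
      obtain ⟨h1, h2⟩ := iso_of_stable hα hC hM hg hs
      exact hneT (by rw [← Hom.ty_im_of_inj h1, Hom.ty_im_of_surj h2])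
    · intro hs
      by_contra hc
      rw [slope_le_iff hn' hn, ← hty, ← hCt,
        cr_nonneg_iff hα M.pos hM0 C.pos hC.1] at hs
      rw [← chi_tyOf, ← hty, ← hCt] at hc
      obtain ⟨g, hg⟩ := exists_hom_of_chi_pos (not_le.1 hc)
      obtain ⟨h1, h2⟩ := iso_of_stable hα hM hC hg hs
      exact hneT (by rw [← Hom.ty_im_of_surj h2, Hom.ty_im_of_inj h1])
  rw [Adm]
  refine ⟨?_, ?_, fun n' d' k' h1 h2 h3 h4 h5 _ h7 => key n' d' k' h1 h2 h3 h4 h5 h7⟩
  · rw [← chi_tyOf, ← hty]
    exact chi_le_one hα hM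
  · intro hnull
    by_contra hg
    obtain ⟨g, hgdef⟩ : ∃ g, g = Nat.gcd n (Nat.gcd d k) := ⟨_, rfl⟩
    rw [← hgdef] at hg
    have hgn : g ∣ n := by rw [hgdef]; exact Nat.gcd_dvd_left _ _
    have hgd : g ∣ d := by
      rw [hgdef]; exact (Nat.gcd_dvd_right _ _).trans (Nat.gcd_dvd_left _ _)
    have hgk : g ∣ k := by
      rw [hgdef]; exact (Nat.gcd_dvd_right _ _).trans (Nat.gcd_dvd_right _ _)
    obtain ⟨n0, hn0⟩ := hgn
    obtain ⟨d0, hd0⟩ := hgd
    obtain ⟨k0, hk0⟩ := hgk
    have hg2 : 2 ≤ g := by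
      rcases Nat.eq_zero_or_pos g with h | h
      · rw [h, zero_mul] at hn0; omega
      · omega
    have hn01 : 1 ≤ n0 := by
      rcases Nat.eq_zero_or_pos n0 with h | h
      · rw [h, mul_zero] at hn0; omega
      · exact h
    have hgcd0 : Nat.gcd n0 (Nat.gcd d0 k0) = 1 := by
      have h1 : g = g * Nat.gcd n0 (Nat.gcd d0 k0) := by
        conv_lhs => rw [hgdef, hn0, hd0, hk0, Nat.gcd_mul_left, Nat.gcd_mul_left]
      have h2 : g * Nat.gcd n0 (Nat.gcd d0 k0) = g * 1 := by rw [mul_one]; exact h1.symm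
      exact Nat.eq_of_mul_eq_mul_left (by omega) h2
    have hn0n : n0 < n := by rw [hn0]; nlinarith
    have hd0d : d0 ≤ d := by rw [hd0]; exact Nat.le_mul_of_pos_left d0 (by omega)
    have hk0k : k0 ≤ k := by rw [hk0]; exact Nat.le_mul_of_pos_left k0 (by omega)
    have hEβ : tyOf n d k = (g : ℤ) • tyOf n0 d0 k0 := by
      simp only [tyOf, hn0, hd0, hk0]
      push_cast
      simp [mul_add]
    have hchi0 : chi (tyOf n0 d0 k0) (tyOf n0 d0 k0) = 0 := by
      rw [← chi_tyOf] at hnull
      have h1 : chi (tyOf n d k) (tyOf n d k) = g * g * chi (tyOf n0 d0 k0) (tyOf n0 d0 k0) := by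
        rw [hEβ]
        simp only [chi, Prod.smul_fst, Prod.smul_snd, smul_eq_mul]
        ring
      rw [h1] at hnull
      have h2 : (0 : ℤ) < g * g := by positivity
      rcases mul_eq_zero.1 hnull with h | h
      · omega
      · exact h
    have hslope : slope α n0 d0 k0 = slope α n d k := by
      have h1 : (0 : ℝ) < n0 := by exact_mod_cast hn01
      have h2 : (0 : ℝ) < g := by exact_mod_cast (by omega : 0 < g)
      simp only [slope, hn0, hd0, hk0]
      push_cast
      field_simp
    -- the primitive type is admissible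
    have hadm0 : Adm α n0 d0 k0 := by
      rw [Adm]
      refine ⟨by rw [← chi_tyOf, hchi0]; exact zero_le_one, fun _ => hgcd0, ?_⟩
      intro n' d' k' h1 h2 h3 h4 h5 h6 h7
      have hne : (n', d', k') ≠ (n, d, k) := by
        intro h
        simp only [Prod.mk.injEq] at h
        omega
      obtain ⟨k1, k2⟩ := key n' d' k' h1 (h2.trans hk0k) (h3.trans hd0d) (by omega) hne h7
      rw [hslope]
      constructor
      · intro hs
        have := k1 hs
        rw [← chi_tyOf, hEβ] at this
        have h8 : chi (tyOf n' d' k') ((g : ℤ) • tyOf n0 d0 k0) =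
            g * chi (tyOf n' d' k') (tyOf n0 d0 k0) := by
          simp only [chi, Prod.smul_fst, Prod.smul_snd, smul_eq_mul]
          ring
        rw [h8] at this
        rw [← chi_tyOf]
        by_contra hc
        push Not at hc
        have h9 : (0 : ℤ) < g := by omega
        have := mul_pos h9 hc
        omega
      · intro hs
        have := k2 hs
        rw [← chi_tyOf, hEβ] at this
        have h8 : chi ((g : ℤ) • tyOf n0 d0 k0) (tyOf n' d' k') =
            g * chi (tyOf n0 d0 k0) (tyOf n' d' k') := by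
          simp only [chi, Prod.smul_fst, Prod.smul_snd, smul_eq_mul]
          ring
        rw [h8] at this
        rw [← chi_tyOf]
        by_contra hc
        push Not at hc
        have h9 : (0 : ℤ) < g := by omega
        have := mul_pos h9 hc
        omega
    have hst := IH n0 d0 k0 hn01 (by omega) hadm0
    -- two non-isomorphic stable representations of the primitive type
    obtain ⟨p, q, hp, hq, hpq⟩ := exists_nonIso (k := k0) (w := n0 + d0) (u := d0)
      (by simp only [ne_eq, Prod.mk.injEq, not_and]; omega) (by exact hchi0.le)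
    have hDt : (ofCoord p).ty = tyOf n0 d0 k0 := ty_ofCoord p
    have hDt' : (ofCoord q).ty = tyOf n0 d0 k0 := ty_ofCoord q
    have hHom : HomZero (ofCoord p) (ofCoord q) := by
      intro h
      by_contra hz
      exact hpq ⟨h, iso_of_stable hα (hst p hp) (hst q hq) hz (by rw [hDt, hDt'])⟩
    have hExt : ExtZero (ofCoord p) (ofCoord q) := hHom.extZero (by rw [hDt, hDt', hchi0])
    obtain ⟨k1, w1, u1, r, hr, hrt, A', i', hi', hA't⟩ := exists_gen_sub (hExt.pow (g - 1))
    obtain ⟨k2, w2, u2, s, hs, hsty, hsst⟩ := exists_gen_stable hM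
    have hrt' : (ofCoord r).ty = tyOf n d k := by
      rw [hrt, QRep.ty_pow, hDt, hDt', hEβ]
      have : ((g - 1 : ℕ) : ℤ) = g - 1 := by omega
      rw [this, sub_smul, one_smul]
      abel
    rw [hty] at hsty
    have heq : ((k1 : ℤ), (w1 : ℤ), (u1 : ℤ)) = ((k2 : ℤ), (w2 : ℤ), (u2 : ℤ)) := by
      rw [← ty_ofCoord r, ← ty_ofCoord s, hrt', hsty]
    simp only [Prod.mk.injEq, Nat.cast_inj] at heq
    obtain ⟨rfl, rfl, rfl⟩ := heq
    obtain ⟨A'', i'', hi'', hA''t⟩ := gen_alike hr hs i' hi'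
    have hAt : A''.ty = tyOf n0 d0 k0 := by rw [hA''t, hA't, hDt]
    have hA0 : A''.ty ≠ 0 := by
      rw [hAt]
      exact ne_zero_of_rk (by rw [rk_tyOf]; exact_mod_cast hn01)
    have hAne : A''.ty ≠ (ofCoord s).ty := by
      rw [hAt, hsty]
      intro h
      have := tyOf_inj h
      simp only [Prod.mk.injEq] at this
      omega
    have hcr := hsst.2 A'' i'' hi'' hA0 hAne
    rw [hAt, hsty] at hcr
    have := (slope_le_iff (α := α) hn hn01 (d := d) (k := k) (d' := d0) (k' := k0)).1 hslope.ge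
    linarith

/-- **Main theorem for representations.** -/
theorem main_rep_aux {α : ℝ} (hα : 0 < α) (N : ℕ) : ∀ n d k : ℕ, 1 ≤ n → n + 2 * d + k < N →
    (Adm α n d k → ∀ p : Idx k (n + d) d → ℂ, Gen p → Stable α (ofCoord p)) ∧
    (∀ M : QRep, M.ty = tyOf n d k → Stable α M → Adm α n d k) := by
  induction N with
  | zero => intro n d k _ h; omega
  | succ N IH =>
    intro n d k hn hN
    constructor
    · intro hadm p hp
      exact suff_step hα hn hadm hp fun n' d' k' h1 h2 => (IH n' d' k' h1 (by omega)).2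
    · intro M hty hM
      exact nec_step hα hn hM hty fun n' d' k' h1 h2 => (IH n' d' k' h1 (by omega)).1

theorem stable_of_adm {α : ℝ} (hα : 0 < α) {n d k : ℕ} (hn : 1 ≤ n) (h : Adm α n d k)
    (p : Idx k (n + d) d → ℂ) (hp : Gen p) : Stable α (ofCoord p) :=
  (main_rep_aux hα (n + 2 * d + k + 1) n d k hn (by omega)).1 h p hp

theorem adm_of_stable {α : ℝ} (hα : 0 < α) {n d k : ℕ} (hn : 1 ≤ n) (M : QRep)
    (hty : M.ty = tyOf n d k) (hM : Stable α M) : Adm α n d k :=
  (main_rep_aux hα (n + 2 * d + k + 1) n d k hn (by omega)).2 M hty hM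

theorem exists_stable_iff {α : ℝ} (hα : 0 < α) {n d k : ℕ} (hn : 1 ≤ n) :
    (∃ M : QRep, M.ty = tyOf n d k ∧ Stable α M) ↔ Adm α n d k := by
  constructor
  · rintro ⟨M, hty, hM⟩
    exact adm_of_stable hα hn M hty hM
  · intro h
    obtain ⟨p, hp⟩ := exists_algInd (Idx k (n + d) d)
    exact ⟨ofCoord p, ty_ofCoord p, stable_of_adm hα hn h p hp⟩

end CohP1
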