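import Pool.Agent.Lib_helper87.Coh.Euler

/-!
# Numerical lemmas
-/

namespace CohP1

/-- `chi` in terms of rank, degree and number of sections. -/
lemma chi_formula (X Y : Ty) : chi X Y = rk X * rk Y - X.1 * (Y.2.1 - Y.1) +
    (rk X * Y.2.2 - X.2.2 * rk Y) := by
  simp only [chi, rk]; ring

lemma chi_self (X : Ty) : chi X X = rk X ^ 2 - X.1 * (X.2.1 - X.1) := by
  simp only [chi, rk]; ring

lemma nonreal_pos {X : Ty} (h : chi X X ≤ 0) (hn : 1 ≤ rk X) (hk : 0 ≤ X.1) :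
    1 ≤ X.1 ∧ 1 ≤ X.2.1 - X.1 := by
  rw [chi_self] at h
  have h1 : 0 < X.1 * (X.2.1 - X.1) := by nlinarith
  have h2 : 0 < X.1 := by
    rcases eq_or_lt_of_le hk with h3 | h3
    · rw [← h3] at h1; simp at h1
    · exact h3
  exact ⟨h2, by have := (mul_pos_iff_of_pos_left h2).1 h1; omega⟩

/-- NL1. -/
lemma chi_neg_of_ge {X Y : Ty} (hY : chi Y Y ≤ 0) (hn : 1 ≤ rk X) (hn' : 1 ≤ rk Y)
    (hk' : 0 ≤ Y.1) (h1 : Y.1 * rk X ≤ X.1 * rk Y) (h2 : Y.2.2 * rk X ≤ X.2.2 * rk Y)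
    (h3 : Y.1 * rk X < X.1 * rk Y ∨ Y.2.2 * rk X < X.2.2 * rk Y) : chi X Y < 0 := by
  obtain ⟨a, b⟩ := nonreal_pos hY hn' hk'
  rw [chi_self] at hY
  rw [chi_formula]
  have e1 : 0 ≤ (X.1 * rk Y - Y.1 * rk X) * (Y.2.1 - Y.1) :=
    mul_nonneg (by linarith) (by linarith)
  have e2 : 0 ≤ rk Y * (X.2.2 * rk Y - Y.2.2 * rk X) := mul_nonneg (by linarith) (by linarith)
  have e3 : 0 ≤ rk X * (Y.1 * (Y.2.1 - Y.1) - rk Y ^ 2) := mul_nonneg (by linarith) (by linarith)
  have e4 : rk Y * (rk X * rk Y - X.1 * (Y.2.1 - Y.1) + (rk X * Y.2.2 - X.2.2 * rk Y)) < 0 := by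
    rcases h3 with h3 | h3
    · have e5 : 0 < (X.1 * rk Y - Y.1 * rk X) * (Y.2.1 - Y.1) :=
        mul_pos (by linarith) (by linarith)
      nlinarith
    · have e5 : 0 < rk Y * (X.2.2 * rk Y - Y.2.2 * rk X) :=
        mul_pos (by linarith) (by linarith)
      nlinarith
  by_contra hc
  push Not at hc
  have := mul_nonneg (show (0 : ℤ) ≤ rk Y by linarith) hc
  linarith

/-- NL2. -/
lemma chi_neg_of_rank_le {X Y : Ty} (hX : chi X X ≤ 0) (hY : chi Y Y ≤ 0) (hn : 1 ≤ rk X)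
    (hn' : 1 ≤ rk Y) (hk : 0 ≤ X.1) (hk' : 0 ≤ Y.1) (h1 : Y.1 * rk X < X.1 * rk Y)
    (h2 : rk X ≤ X.1) : chi X Y < 0 := by
  obtain ⟨a, b⟩ := nonreal_pos hX hn hk
  obtain ⟨a', b'⟩ := nonreal_pos hY hn' hk'
  rw [chi_self] at hX hY
  obtain ⟨k, w, u⟩ := X
  obtain ⟨k', w', u'⟩ := Y
  simp only [rk, chi] at *
  -- ranks and third coordinates
  obtain ⟨n, hnd⟩ : ∃ n, n = w - u := ⟨_, rfl⟩
  obtain ⟨n', hnd'⟩ : ∃ n', n' = w' - u' := ⟨_, rfl⟩
  obtain ⟨m, hmd⟩ : ∃ m, m = w - k := ⟨_, rfl⟩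
  obtain ⟨m', hmd'⟩ : ∃ m', m' = w' - k' := ⟨_, rfl⟩
  rw [← hnd, ← hmd] at hX
  rw [← hnd', ← hmd'] at hY
  rw [← hnd] at hn h1 h2
  rw [← hnd'] at hn' h1
  rw [← hmd] at b
  rw [← hmd'] at b'
  have hchi : k * k' + w * w' + u * u' - k * w' - 2 * u * w' =
      (n - k) * n' + n * k' - m * n' - (k - n) * m' := by
    rw [hnd, hnd', hmd, hmd']; ring
  rw [hchi]
  -- k (k-n) m' ≥ (k-n) n' n
  have f1 : 0 ≤ (k - n) * (k' * m' - n' ^ 2) * k :=
    mul_nonneg (mul_nonneg (by linarith) (by linarith)) (by linarith)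
  have f2 : 0 ≤ (k - n) * n' * (k * n' - k' * n) :=
    mul_nonneg (mul_nonneg (by linarith) (by linarith)) (by linarith)
  have f3 : 0 ≤ k' * (k * (k - n) * m' - (k - n) * n' * n) := by nlinarith
  have f4 : 0 ≤ k * (k - n) * m' - (k - n) * n' * n := by
    by_contra hc
    push Not at hc
    have := mul_neg_of_pos_of_neg (show (0 : ℤ) < k' by linarith) hc
    linarith
  have f5 : 0 ≤ n' * (k * m - n ^ 2) := mul_nonneg (by linarith) (by linarith)
  have f6 : 0 < k * (k * n' - k' * n) := mul_pos (by linarith) (by linarith)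
  have f7 : k * ((n - k) * n' + n * k' - m * n' - (k - n) * m') < 0 := by nlinarith
  by_contra hc
  push Not at hc
  have := mul_nonneg (show (0 : ℤ) ≤ k by linarith) hc
  linarith

/-- NL3. -/
lemma chi_neg_of_dvd {X Y : Ty} (hX : chi X X ≤ 0) (hY : chi Y Y ≤ 0) (hn : 1 ≤ rk X)
    (hn' : 1 ≤ rk Y) (hk : 0 ≤ X.1) (hk' : 0 ≤ Y.1) (h1 : rk X ∣ X.2.2) (h2 : rk Y ∣ Y.2.2)
    (h3 : Y.2.2 * rk X < X.2.2 * rk Y) : chi X Y < 0 := by
  obtain ⟨a, b⟩ := nonreal_pos hX hn hk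
  obtain ⟨a', b'⟩ := nonreal_pos hY hn' hk'
  rw [chi_formula]
  obtain ⟨s, hs⟩ := h1
  obtain ⟨t, ht⟩ := h2
  rw [hs, ht] at h3 ⊢
  have h4 : 0 < rk X * rk Y * (s - t) := by nlinarith
  have h5 : 0 < rk X * rk Y := mul_pos (by linarith) (by linarith)
  have h6 : 0 < s - t := (mul_pos_iff_of_pos_left h5).1 h4
  have h7 : rk X * rk Y * 1 ≤ rk X * rk Y * (s - t) := mul_le_mul_of_nonneg_left h6 h5.le
  have h8 : 0 < X.1 * (Y.2.1 - Y.1) := mul_pos (by linarith) (by linarith)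
  nlinarith

/-! ### Types of the same slope -/

/-- Types of the same slope as `X`. -/
lemma same_slope {α : ℝ} {a b X : Ty} (hX : 1 ≤ rk X) (ha : cr α a X = 0) (hb : cr α b X = 0) :
    (rk a * b.1 - rk b * a.1) * X.2.2 =
      (rk X * b.1 - rk b * X.1) * a.2.2 + (rk a * X.1 - rk X * a.1) * b.2.2 := by
  have hX' : (0 : ℝ) < rk X := by exact_mod_cast hX
  simp only [cr, lam] at ha hb
  have h : ((rk a : ℝ) * b.1 - rk b * a.1) * X.2.2 =
      (rk X * b.1 - rk b * X.1) * a.2.2 + (rk a * X.1 - rk X * a.1) * b.2.2 := by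
    have h2 : (rk X : ℝ) * (((rk a : ℝ) * b.1 - rk b * a.1) * X.2.2) = rk X *
      ((rk X * b.1 - rk b * X.1) * a.2.2 + (rk a * X.1 - rk X * a.1) * b.2.2) := by
      have e1 : (rk X : ℝ) * a.2.2 = (X.2.2 + α * X.1) * rk a - α * a.1 * rk X := by linarith
      have e2 : (rk X : ℝ) * b.2.2 = (X.2.2 + α * X.1) * rk b - α * b.1 * rk X := by linarith
      calc (rk X : ℝ) * (((rk a : ℝ) * b.1 - rk b * a.1) * X.2.2) =
          (rk X * b.1 - rk b * X.1) * ((X.2.2 + α * X.1) * rk a - α * a.1 * rk X) +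
            (rk a * X.1 - rk X * a.1) * ((X.2.2 + α * X.1) * rk b - α * b.1 * rk X) := by ring
        _ = (rk X * b.1 - rk b * X.1) * (rk X * a.2.2) +
            (rk a * X.1 - rk X * a.1) * (rk X * b.2.2) := by rw [e1, e2]
        _ = _ := by ring
    exact mul_left_cancel₀ hX'.ne' h2
  exact_mod_cast h

/-- `chi` is determined by rank, sections, degree. -/
lemma chi_comb {a b X : Ty} {D p q : ℤ} (h1 : D * X.1 = p * a.1 + q * b.1)
    (h2 : D * rk X = p * rk a + q * rk b) (h3 : D * X.2.2 = p * a.2.2 + q * b.2.2) (Z : Ty) :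
    D * chi X Z = p * chi a Z + q * chi b Z ∧ D * chi Z X = p * chi Z a + q * chi Z b := by
  obtain ⟨k, w, u⟩ := X
  obtain ⟨k1, w1, u1⟩ := a
  obtain ⟨k2, w2, u2⟩ := b
  obtain ⟨k3, w3, u3⟩ := Z
  simp only [rk, chi] at *
  have h4 : D * w = p * w1 + q * w2 := by linarith
  constructor
  · linear_combination (k3 - w3) * h1 + w3 * h4 + (u3 - 2 * w3) * h3
  · linear_combination k3 * h1 + (w3 - k3 - 2 * u3) * h4 + u3 * h3

/-- Lemma R. -/
lemma chi_eq_zero_of_real {α : ℝ} {a b X : Ty} (hna : 1 ≤ rk a) (hnb : 1 ≤ rk b) (hX : 1 ≤ rk X)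
    (ha : cr α a X = 0) (hb : cr α b X = 0) (haa : chi a a = 1) (hbb : chi b b = 1)
    (hab : chi a b ≤ 0) (h1 : 1 ≤ chi a X) (h2 : 1 ≤ chi X b) : chi a b = 0 := by
  have h3 := same_slope hX ha hb
  obtain ⟨D, hD⟩ : ∃ D, D = rk a * b.1 - rk b * a.1 := ⟨_, rfl⟩
  obtain ⟨p, hp⟩ : ∃ p, p = rk X * b.1 - rk b * X.1 := ⟨_, rfl⟩
  obtain ⟨q, hq⟩ : ∃ q, q = rk a * X.1 - rk X * a.1 := ⟨_, rfl⟩
  rw [← hD, ← hp, ← hq] at h3
  have c1 : D * X.1 = p * a.1 + q * b.1 := by rw [hD, hp, hq]; ring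
  have c2 : D * rk X = p * rk a + q * rk b := by rw [hD, hp, hq]; ring
  have hD0 : D ≠ 0 := by
    intro h0
    -- a, b proportional
    have hba : cr α b a = 0 := by
      have hX' : (0 : ℝ) < rk X := by exact_mod_cast hX
      simp only [cr] at *
      have : (rk X : ℝ) * (lam α b * rk a - lam α a * rk b) = 0 := by
        have e1 : lam α b * rk X = lam α X * rk b := by linarith
        have e2 : lam α a * rk X = lam α X * rk a := by linarith
        calc (rk X : ℝ) * (lam α b * rk a - lam α a * rk b) =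
            (lam α b * rk X) * rk a - (lam α a * rk X) * rk b := by ring
          _ = 0 := by rw [e1, e2]; ring
      rcases mul_eq_zero.1 this with h | h
      · exact absurd h hX'.ne'
      · exact h
    have hk : rk a * b.1 = rk b * a.1 := by linarith
    have hu : rk a * b.2.2 = rk b * a.2.2 := by
      have : (rk a : ℝ) * b.2.2 = rk b * a.2.2 := by
        simp only [cr, lam] at hba
        have hk' : (rk a : ℝ) * b.1 = rk b * a.1 := by exact_mod_cast hk
        have : α * ((rk a : ℝ) * b.1) = α * (rk b * a.1) := by rw [hk']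
        linarith
      exact_mod_cast this
    obtain ⟨e1, -⟩ := chi_comb (a := a) (b := a) (X := b) (D := rk a) (p := rk b) (q := 0)
      (by linarith) (by ring) (by linarith) b
    obtain ⟨e3, e4⟩ := chi_comb (a := a) (b := a) (X := b) (D := rk a) (p := rk b) (q := 0)
      (by linarith) (by ring) (by linarith) a
    rw [hbb] at e1
    have : 0 < rk b * chi a b := by linarith
    have h5 : 0 < chi a b := (mul_pos_iff_of_pos_left (by linarith)).1 this
    linarith
  obtain ⟨-, e1⟩ := chi_comb c1 c2 h3 a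
  obtain ⟨e2, -⟩ := chi_comb c1 c2 h3 b
  rw [haa] at e1
  rw [hbb] at e2
  by_contra hne
  have he : 1 ≤ - chi a b := by omega
  obtain ⟨e, hee⟩ : ∃ e, e = - chi a b := ⟨_, rfl⟩
  have hchi : chi a b = -e := by omega
  rw [hchi] at e1 e2
  rw [← hee] at he
  -- e1 : D * chi a X = p * 1 + q * -e ; e2 : D * chi X b = p * -e + q * 1
  rcases lt_or_gt_of_ne hD0 with hneg | hpos
  · have g1 : p - e * q ≤ D := by nlinarith
    have g2 : q - e * p ≤ D := by nlinarith
    have g3 : 0 < p ∨ 0 < q := by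
      by_contra hc
      push Not at hc
      nlinarith
    have g4 : 0 < p ∧ 0 < q := by
      rcases g3 with g3 | g3
      · refine ⟨g3, ?_⟩
        have : 0 < e * q := by linarith
        exact (mul_pos_iff_of_pos_left (by linarith)).1 this
      · refine ⟨?_, g3⟩
        have : 0 < e * p := by linarith
        exact (mul_pos_iff_of_pos_left (by linarith)).1 this
    have g5 : 0 < p * rk a := mul_pos g4.1 (by linarith)
    have g6 : 0 < q * rk b := mul_pos g4.2 (by linarith)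
    have g7 : D * rk X < 0 := mul_neg_of_neg_of_pos hneg (by linarith)
    linarith
  · have g1 : D ≤ p - e * q := by nlinarith
    have g2 : D ≤ q - e * p := by nlinarith
    have g3 : p < 0 ∨ q < 0 := by
      by_contra hc
      push Not at hc
      nlinarith
    have g4 : p < 0 ∧ q < 0 := by
      rcases g3 with g3 | g3
      · refine ⟨g3, ?_⟩
        have : e * q < 0 := by linarith
        by_contra hc
        push Not at hc
        have := mul_nonneg (show (0 : ℤ) ≤ e by linarith) hc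
        linarith
      · refine ⟨?_, g3⟩
        have : e * p < 0 := by linarith
        by_contra hc
        push Not at hc
        have := mul_nonneg (show (0 : ℤ) ≤ e by linarith) hc
        linarith
    have g5 : p * rk a < 0 := mul_neg_of_neg_of_pos g4.1 (by linarith)
    have g6 : q * rk b < 0 := mul_neg_of_neg_of_pos g4.2 (by linarith)
    have g7 : 0 < D * rk X := mul_pos hpos (by linarith)
    linarith

/-- Determinant. -/
def det3 (a b c : Ty) : ℤ := a.1 * (b.2.1 * c.2.2 - b.2.2 * c.2.1) -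
  a.2.1 * (b.1 * c.2.2 - b.2.2 * c.1) + a.2.2 * (b.1 * c.2.1 - b.2.1 * c.1)

/-- Gram determinant identity. -/
lemma gram (a b Z Y : Ty) :
    chi a a * (chi b b * chi Z Y - chi b Y * chi Z b) -
      chi a b * (chi b a * chi Z Y - chi b Y * chi Z a) +
      chi a Y * (chi b a * chi Z b - chi b b * chi Z a) = det3 a b Z * det3 a b Y := by
  simp only [chi, det3]; ring

lemma eq_zero_of_chi_left {Y : Ty} (h : ∀ Z, chi Z Y = 0) : Y = 0 := by
  have h1 := h (1, 0, 0)
  have h2 := h (0, 1, 0)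
  have h3 := h (0, 0, 1)
  obtain ⟨k, w, u⟩ := Y
  simp only [chi] at h1 h2 h3
  simp only [Prod.mk_eq_zero]
  omega

lemma eq_zero_of_chi_right {Y : Ty} (h : ∀ Z, chi Y Z = 0) : Y = 0 := by
  have h1 := h (1, 0, 0)
  have h2 := h (0, 1, 0)
  have h3 := h (0, 0, 1)
  obtain ⟨k, w, u⟩ := Y
  simp only [chi] at h1 h2 h3
  simp only [Prod.mk_eq_zero]
  omega

/-- Right-handed Gram lemma. -/
lemma eq_zero_of_gram {a b Y : Ty} (haa : chi a a = 1) (hbb : chi b b = 1) (hab : chi a b = 0)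
    (haY : chi a Y = 0) (hbY : chi b Y = 0) (hY : chi Y Y ≤ 0) : Y = 0 := by
  have h1 : ∀ Z, chi Z Y = det3 a b Z * det3 a b Y := by
    intro Z
    have := gram a b Z Y
    rw [haa, hbb, hab, haY, hbY] at this
    linarith
  have h2 : det3 a b Y = 0 := by
    have := h1 Y
    have h3 : det3 a b Y * det3 a b Y ≤ 0 := by rw [← this]; exact hY
    have h4 := mul_self_nonneg (det3 a b Y)
    exact mul_self_eq_zero.1 (le_antisymm h3 h4)
  exact eq_zero_of_chi_left fun Z => by rw [h1, h2, mul_zero]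

/-- Left-handed Gram lemma. -/
lemma eq_zero_of_gram' {a b X : Ty} (haa : chi a a = 1) (hbb : chi b b = 1) (hab : chi a b = 0)
    (haX : chi X a = 0) (hbX : chi X b = 0) (hX : chi X X ≤ 0) : X = 0 := by
  have h1 : ∀ Z, chi X Z = det3 a b X * det3 a b Z := by
    intro Z
    have := gram a b X Z
    rw [haa, hbb, hab, haX, hbX] at this
    linarith
  have h2 : det3 a b X = 0 := by
    have := h1 X
    have h3 : det3 a b X * det3 a b X ≤ 0 := by rw [← this]; exact hX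
    have h4 := mul_self_nonneg (det3 a b X)
    exact mul_self_eq_zero.1 (le_antisymm h3 h4)
  exact eq_zero_of_chi_right fun Z => by rw [h1, h2, zero_mul]

lemma no_golden {n k : ℤ} (hk : 1 ≤ k) (h : n ^ 2 = k * (n + k)) : False := by
  have h1 : (2 * n - k) ^ 2 = 5 * k ^ 2 := by nlinarith
  have h5 : Irrational (√5) := by
    have := Nat.Prime.irrational_sqrt (p := 5) (by norm_num)
    simpa using this
  have hk' : (0 : ℝ) < k := by exact_mod_cast hk
  have h2 : ((2 * n - k : ℤ) : ℝ) ^ 2 = 5 * (k : ℝ) ^ 2 := by exact_mod_cast h1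
  have h3 : |((2 * n - k : ℤ) : ℝ)| = √5 * k := by
    rw [← Real.sqrt_sq_eq_abs, h2, Real.sqrt_mul (by norm_num), Real.sqrt_sq hk'.le]
  apply h5
  refine ⟨(|2 * n - k| : ℤ) / k, ?_⟩
  push_cast
  rw [div_eq_iff hk'.ne', ← h3]
  push_cast
  rfl

/-- The null lemma. -/
lemma null_prop {δ β : Ty} (hδ : chi δ δ = 0) (hn : 1 ≤ rk δ) (hk : 0 ≤ δ.1)
    (h1 : chi δ β = 0) (h2 : chi β δ = 0) :
    β.1 * rk δ = δ.1 * rk β ∧ β.2.2 * rk δ = δ.2.2 * rk β := by
  obtain ⟨a, b⟩ := nonreal_pos hδ.le hn hk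
  obtain ⟨k', w', u'⟩ := δ
  obtain ⟨k, w, u⟩ := β
  simp only [rk, chi] at *
  obtain ⟨n, hnd⟩ : ∃ n, n = w - u := ⟨_, rfl⟩
  obtain ⟨n', hnd'⟩ : ∃ n', n' = w' - u' := ⟨_, rfl⟩
  obtain ⟨m, hmd⟩ : ∃ m, m = w - k := ⟨_, rfl⟩
  obtain ⟨m', hmd'⟩ : ∃ m', m' = w' - k' := ⟨_, rfl⟩
  have hδ' : n' ^ 2 = k' * m' := by rw [hnd', hmd']; linarith
  have e1 : n' * n - k' * m + n' * (k + m) - n * (k' + m') = 0 := by
    rw [hnd, hnd', hmd, hmd']; linarith
  have e2 : n * n' - k * m' + n * (k' + m') - n' * (k + m) = 0 := by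
    rw [hnd, hnd', hmd, hmd']; linarith
  rw [← hnd'] at hn
  rw [← hmd'] at b
  have f1 : m' * (k * n' - k' * n) + k' * (m * n' - m' * n) = 0 := by
    linear_combination (-n') * (e1 + e2) + 2 * n * hδ'
  have f2 : -(m' * (k * n' - k' * n)) + k' * (m * n' - m' * n) -
      2 * n' * ((k * n' - k' * n) + (m * n' - m' * n)) = 0 := by
    linear_combination n' * (e2 - e1)
  have f3 : 2 * (n' * (k * n' - k' * n) * (n' + k' - m')) = 0 := by
    linear_combination k' * (f1 - f2) - 2 * n' * f1 + 2 * (k * n' - k' * n) * hδ'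
  have f4 : n' * (k * n' - k' * n) * (n' + k' - m') = 0 := by linarith
  have hgold : n' + k' - m' ≠ 0 := by
    intro h0
    have hm : m' = n' + k' := by linarith
    rw [hm] at hδ'
    exact no_golden a hδ'
  have hA : k * n' - k' * n = 0 := by
    rcases mul_eq_zero.1 f4 with h | h
    · rcases mul_eq_zero.1 h with h | h
      · omega
      · exact h
    · exact absurd h hgold
  have hC : m * n' - m' * n = 0 := by
    rw [hA, mul_zero, zero_add] at f1
    rcases mul_eq_zero.1 f1 with h | h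
    · omega
    · exact h
  rw [← hnd, ← hnd']
  refine ⟨by linarith, ?_⟩
  have hu : u = m + k - n := by rw [hmd, hnd]; ring
  have hu' : u' = m' + k' - n' := by rw [hmd', hnd']; ring
  rw [hu, hu']
  linear_combination hA + hC

end CohP1
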