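import Pool.Agent.Lib_helper87.Coh.Num

/-!
# Numerical lemmas for the end points
-/

namespace CohP1

/-- NL4. -/
lemma real_pair_rank {a b : Ty} (hna : 1 ≤ rk a) (hnb : 1 ≤ rk b) (ha : 0 ≤ a.1) (ham : 0 ≤ a.2.1 - a.1)
    (hb : 0 ≤ b.1) (haa : chi a a = 1) (hbb : chi b b = 1) (hab : chi a b = 0) (hba : chi b a ≤ 0)
    (hD : b.1 * rk a < a.1 * rk b) : a.1 ≤ rk a := by
  by_contra hc
  push Not at hc
  rw [chi_self] at haa hbb
  obtain ⟨k, w, u⟩ := a
  obtain ⟨P, w', u'⟩ := b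
  simp only [rk, chi] at *
  obtain ⟨n, hnd⟩ : ∃ n, n = w - u := ⟨_, rfl⟩
  obtain ⟨N, hnd'⟩ : ∃ n', n' = w' - u' := ⟨_, rfl⟩
  obtain ⟨m, hmd⟩ : ∃ m, m = w - k := ⟨_, rfl⟩
  obtain ⟨Q, hmd'⟩ : ∃ m', m' = w' - P := ⟨_, rfl⟩
  have e1 : n * P = (k - n) * (N + Q) + m * N := by
    rw [hnd, hnd', hmd, hmd']; linarith
  have e2 : 2 * n * N ≤ k * Q + m * P := by
    rw [hnd, hnd', hmd, hmd']; linarith
  rw [← hnd, ← hmd] at haa
  rw [← hnd', ← hmd'] at hbb
  rw [← hnd] at hna hD hc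
  rw [← hnd'] at hnb hD
  rw [← hmd] at ham
  -- n k Q ≥ (n² + 1) N
  have f1 : (n ^ 2 + 1) * N ≤ n * k * Q := by
    have h1 : m * (P * n) ≤ m * (k * N) := mul_le_mul_of_nonneg_left hD.le ham
    have h2 : n * (2 * n * N) ≤ n * (k * Q + m * P) := mul_le_mul_of_nonneg_left e2 (by linarith)
    have h3 : k * m = n ^ 2 - 1 := by linarith
    have h4 : m * (k * N) = (n ^ 2 - 1) * N := by rw [← h3]; ring
    nlinarith
  -- n² k P ≥ N (n k² + k - 2 n)
  have f2 : N * (n * k ^ 2 + k - 2 * n) ≤ n ^ 2 * k * P := by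
    have h1 : n ^ 2 * k * P = (k - n) * (n * k * N + n * k * Q) + n * (k * m) * N := by
      have : n ^ 2 * k * P = n * k * (n * P) := by ring
      rw [this, e1]; ring
    have h3 : k * m = n ^ 2 - 1 := by linarith
    rw [h1, h3]
    have h4 : (k - n) * ((n ^ 2 + 1) * N) ≤ (k - n) * (n * k * Q) :=
      mul_le_mul_of_nonneg_left f1 (by linarith)
    nlinarith
  have g1 : 0 < n * k ^ 2 + k - 2 * n := by nlinarith
  have g2 : 0 ≤ N * (n * k ^ 2 + k - 2 * n) := mul_nonneg (by linarith) g1.le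
  have f3 : (N * (n * k ^ 2 + k - 2 * n)) * ((n ^ 2 + 1) * N) ≤ (n ^ 2 * k * P) * (n * k * Q) :=
    mul_le_mul f2 f1 (mul_nonneg (by positivity) (by linarith)) (g2.trans f2)
  have f4 : (n ^ 2 * k * P) * (n * k * Q) = n ^ 3 * k ^ 2 * (N ^ 2 - 1) := by
    have : P * Q = N ^ 2 - 1 := by linarith
    rw [← this]; ring
  have f5 : (N * (n * k ^ 2 + k - 2 * n)) * ((n ^ 2 + 1) * N) =
      N ^ 2 * (n ^ 3 * k ^ 2) + N ^ 2 * (n * (k - n) * (k + 2 * n) + (k - 2 * n)) := by ring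
  have f6 : 0 < n * (k - n) * (k + 2 * n) + (k - 2 * n) := by
    have h1 : 1 * (k + 2 * n) ≤ n * (k - n) * (k + 2 * n) := by
      apply mul_le_mul_of_nonneg_right _ (by linarith)
      nlinarith
    linarith
  have f7 : 0 < N ^ 2 * (n * (k - n) * (k + 2 * n) + (k - 2 * n)) := mul_pos (by positivity) f6
  have f8 : 0 < n ^ 3 * k ^ 2 := by
    have : 0 < k := by linarith
    positivity
  rw [f4, f5] at f3
  nlinarith

/-- E3. -/
lemma chi_nonpos_of_ranks {b y : Ty} (hnb : 1 ≤ rk b) (hb : 0 ≤ b.1)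
    (hbb : chi b b = 1) (hy : Pos y) (hny : 1 ≤ rk y) (hkb : rk b < b.1) (hky : y.1 < rk y) :
    chi b y ≤ 0 := by
  rw [chi_self] at hbb
  obtain ⟨hy1, hy2, hy3⟩ := hy
  obtain ⟨k, w, u⟩ := b
  obtain ⟨k', w', u'⟩ := y
  simp only [rk, chi] at *
  obtain ⟨n, hnd⟩ : ∃ n, n = w - u := ⟨_, rfl⟩
  obtain ⟨m, hmd⟩ : ∃ m, m = w - k := ⟨_, rfl⟩
  obtain ⟨n', hnd'⟩ : ∃ n', n' = w' - u' := ⟨_, rfl⟩
  have hchi : k * k' + w * w' + u * u' - k * w' - 2 * u * w' =
      -(k - n) * (n' + u') + k * k' - (k + m - n) * n' := by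
    rw [hnd, hmd, hnd']; ring
  rw [hchi]
  rw [← hnd, ← hmd] at hbb
  rw [← hnd] at hnb hkb
  rw [← hnd'] at hny hky
  have h1 : 0 ≤ k * (k + m - 2 * n) := by nlinarith
  have h2 : 0 ≤ k + m - 2 * n := by
    by_contra hc
    push Not at hc
    have := mul_neg_of_pos_of_neg (show (0 : ℤ) < k by linarith) hc
    linarith
  have h3 : k * k' ≤ k * (n' - 1) := mul_le_mul_of_nonneg_left (by linarith) hb
  have h4 : 0 ≤ (k - n) * u' := mul_nonneg (by linarith) hy3
  have h5 : 0 ≤ (k + m - 2 * n) * n' := mul_nonneg h2 (by linarith)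
  nlinarith

/-- E4. -/
lemma chi_pos_of_ranks {b y : Ty} (hnb : 1 ≤ rk b) (hb : 0 ≤ b.1) (hbb : chi b b = 1)
    (hny : 1 ≤ rk y) (hkb : rk b < b.1) (h1 : b.1 * rk y < y.1 * rk b)
    (h2 : y.2.2 * rk b < b.2.2 * rk y) : 0 < chi y y := by
  rw [chi_self] at hbb ⊢
  obtain ⟨k, w, u⟩ := b
  obtain ⟨k', w', u'⟩ := y
  simp only [rk] at *
  obtain ⟨n, hnd⟩ : ∃ n, n = w - u := ⟨_, rfl⟩
  obtain ⟨m, hmd⟩ : ∃ m, m = w - k := ⟨_, rfl⟩
  obtain ⟨n', hnd'⟩ : ∃ n', n' = w' - u' := ⟨_, rfl⟩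
  obtain ⟨m', hmd'⟩ : ∃ m', m' = w' - k' := ⟨_, rfl⟩
  rw [← hnd, ← hmd] at hbb
  rw [← hnd'] at hny h1 h2 ⊢
  rw [← hmd']
  rw [← hnd] at hnb hkb h1 h2
  obtain ⟨X, hX⟩ : ∃ X, X = k' * n - k * n' := ⟨_, rfl⟩
  obtain ⟨V, hV⟩ : ∃ V, V = u * n' - u' * n := ⟨_, rfl⟩
  have hX1 : 1 ≤ X := by omega
  have hV1 : 1 ≤ V := by omega
  have e1 : k' * n = k * n' + X := by rw [hX]; ring
  have e2 : m' * n = m * n' - V - X := by
    rw [hV, hX, hmd, hmd', hnd, hnd']; ring
  have e3 : n ^ 2 * (k' * m') = (k * n' + X) * (m * n' - V - X) := by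
    rw [← e1, ← e2]; ring
  have hmk : m < k := by
    by_contra hc
    push Not at hc
    have : k * k ≤ k * m := mul_le_mul_of_nonneg_left hc hb
    nlinarith
  have e4 : (k * n' + X) * (m * n' - V - X) = (n ^ 2 - 1) * n' ^ 2 -
      n' * (k * V + (k - m) * X) - X * (V + X) := by
    have : k * m = n ^ 2 - 1 := by linarith
    rw [← this]; ring
  have h3 : 0 ≤ n' * (k * V + (k - m) * X) := by
    apply mul_nonneg (by linarith)
    have := mul_nonneg hb (show (0 : ℤ) ≤ V by linarith)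
    have := mul_nonneg (show (0 : ℤ) ≤ k - m by linarith) (show (0 : ℤ) ≤ X by linarith)
    linarith
  have h4 : 0 ≤ X * (V + X) := mul_nonneg (by linarith) (by linarith)
  have h5 : n ^ 2 * (k' * m') < n ^ 2 * n' ^ 2 := by
    rw [e3, e4]
    have : 0 < n' ^ 2 := by positivity
    nlinarith
  have h6 : k' * m' < n' ^ 2 := lt_of_mul_lt_mul_left h5 (by positivity)
  linarith

/-- Coordinates of `y` with respect to `a`, `b` and the type `(0,1,1)`. -/
structure Coords (a b y : Ty) (D X Y G : ℤ) : Prop where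
  pos : 0 < D
  h1 : D * y.1 = X * a.1 + Y * b.1
  h2 : D * rk y = X * rk a + Y * rk b
  h3 : D * y.2.2 = X * a.2.2 + Y * b.2.2 - G

lemma Coords.chi_left {a b y : Ty} {D X Y G : ℤ} (h : Coords a b y D X Y G) (z : Ty) :
    D * chi z y = X * chi z a + Y * chi z b - G * (rk z - z.1) := by
  obtain ⟨-, h1, h2, h3⟩ := h
  obtain ⟨k, w, u⟩ := y
  obtain ⟨k1, w1, u1⟩ := a
  obtain ⟨k2, w2, u2⟩ := b
  obtain ⟨k3, w3, u3⟩ := z
  simp only [rk, chi] at *
  have h4 : D * w = X * w1 + Y * w2 - G := by linarith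
  linear_combination k3 * h1 + (w3 - k3 - 2 * u3) * h4 + u3 * h3

lemma Coords.chi_right {a b y : Ty} {D X Y G : ℤ} (h : Coords a b y D X Y G) (z : Ty) :
    D * chi y z = X * chi a z + Y * chi b z + G * rk z := by
  obtain ⟨-, h1, h2, h3⟩ := h
  obtain ⟨k, w, u⟩ := y
  obtain ⟨k1, w1, u1⟩ := a
  obtain ⟨k2, w2, u2⟩ := b
  obtain ⟨k3, w3, u3⟩ := z
  simp only [rk, chi] at *
  have h4 : D * w = X * w1 + Y * w2 - G := by linarith
  linear_combination (k3 - w3) * h1 + w3 * h4 + (u3 - 2 * w3) * h3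

/-- Relations at a wall. -/
structure WallNum (u a b : Ty) (c₁ c₂ : ℤ) : Prop where
  na : 1 ≤ rk a
  nb : 1 ≤ rk b
  aa : chi a a = 1
  bb : chi b b = 1
  ab : chi a b = 0
  ba : chi b a ≤ 0
  hc₁ : 1 ≤ c₁
  hc₂ : 1 ≤ c₂
  uu : chi u u = 1
  u1 : u.1 = c₁ * a.1 + c₂ * b.1
  u2 : rk u = c₁ * rk a + c₂ * rk b
  u3 : u.2.2 = c₁ * a.2.2 + c₂ * b.2.2

lemma WallNum.chi_left {u a b : Ty} {c₁ c₂ : ℤ} (h : WallNum u a b c₁ c₂) (z : Ty) :
    chi z u = c₁ * chi z a + c₂ * chi z b := by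
  have := (chi_comb (a := a) (b := b) (X := u) (D := 1) (p := c₁) (q := c₂) (by rw [h.u1]; ring)
    (by rw [h.u2]; ring) (by rw [h.u3]; ring) z).2
  linarith

lemma WallNum.chi_right {u a b : Ty} {c₁ c₂ : ℤ} (h : WallNum u a b c₁ c₂) (z : Ty) :
    chi u z = c₁ * chi a z + c₂ * chi b z := by
  have := (chi_comb (a := a) (b := b) (X := u) (D := 1) (p := c₁) (q := c₂) (by rw [h.u1]; ring)
    (by rw [h.u2]; ring) (by rw [h.u3]; ring) z).1
  linarith

/-- `c₁ - e c₂ ≤ 0`. -/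
lemma WallNum.le {u a b : Ty} {c₁ c₂ : ℤ} (h : WallNum u a b c₁ c₂) :
    c₁ + chi b a * c₂ ≤ 0 := by
  have h1 := h.uu
  rw [h.chi_right, h.chi_left, h.chi_left, h.aa, h.bb, h.ab] at h1
  by_contra hc
  push Not at hc
  have h2 : 1 * 1 ≤ c₁ * (c₁ + chi b a * c₂) :=
    mul_le_mul h.hc₁ hc (by norm_num) (by linarith [h.hc₁])
  have h3 : 1 * 1 ≤ c₂ * c₂ := mul_le_mul h.hc₂ h.hc₂ (by norm_num) (by linarith [h.hc₂])
  nlinarith

/-- Numerical part of P1. -/
lemma numP1 {u a b y : Ty} {c₁ c₂ D X Y G : ℤ} (h : WallNum u a b c₁ c₂)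
    (c : Coords a b y D X Y G) (hy : 1 ≤ rk y) (hG : 0 ≤ G) (hu : u.1 < rk u)
    (hchi : 0 < chi u y) (ga : 0 < chi a y → Y < 0)
    (g3 : ¬ (0 < chi b y ∧ 0 < chi y b)) : False := by
  have h1 := c.chi_left u
  have hDy : 0 < D * rk y := mul_pos c.pos (by linarith)
  have h2 := c.h2
  rw [h.chi_right a, h.chi_right b, h.aa, h.bb, h.ab] at h1
  have hY : 0 < Y := by
    by_contra hc
    push Not at hc
    have hX : 0 < X := by
      by_contra hc'
      push Not at hc'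
      have := mul_nonneg (show (0 : ℤ) ≤ rk a by linarith [h.na]) (neg_nonneg.2 hc')
      have := mul_nonneg (show (0 : ℤ) ≤ rk b by linarith [h.nb]) (neg_nonneg.2 hc)
      nlinarith
    have e1 : 0 < D * chi u y := mul_pos c.pos hchi
    have e2 := mul_nonneg hX.le (neg_nonneg.2 h.le)
    have e3 := mul_nonneg (neg_nonneg.2 hc) (show (0 : ℤ) ≤ c₂ by linarith [h.hc₂])
    have e4 : 0 ≤ G * (rk u - u.1) := mul_nonneg hG (by linarith)
    nlinarith
  have hay : chi a y ≤ 0 := by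
    by_contra hc
    push Not at hc
    exact absurd (ga hc) (by linarith)
  have hby : 0 < chi b y := by
    rw [h.chi_right] at hchi
    have := mul_nonneg (show (0 : ℤ) ≤ c₁ by linarith [h.hc₁]) (neg_nonneg.2 hay)
    have : 0 < c₂ * chi b y := by linarith
    exact (mul_pos_iff_of_pos_left (by linarith [h.hc₂])).1 this
  refine g3 ⟨hby, ?_⟩
  have h3 := c.chi_right b
  rw [h.ab, h.bb] at h3
  have : 0 < D * chi y b := by
    rw [h3]
    have := mul_nonneg hG (show 0 ≤ rk b by linarith [h.nb])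
    linarith
  exact (mul_pos_iff_of_pos_left c.pos).1 this

/-- Numerical part of P2. -/
lemma numP2 {u a b y : Ty} {c₁ c₂ D X Y G : ℤ} (h : WallNum u a b c₁ c₂)
    (c : Coords a b y D X Y G) (hy : 1 ≤ rk y) (hG : G ≤ 0) (ha : a.1 ≤ rk a) (hb : b.1 ≤ rk b)
    (hchi : 0 < chi y u) (ga : 0 < chi y a → 0 < Y) (gb : 0 < chi y b → X < 0)
    (g3a : ¬ (0 < chi a y ∧ 0 < chi y a)) (g3b : ¬ (0 < chi b y ∧ 0 < chi y b)) : False := by
  have hDy : 0 < D * rk y := mul_pos c.pos (by linarith)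
  have h2 := c.h2
  have hna := h.na
  have hnb := h.nb
  by_cases hyb : 0 < chi y b
  · have hX := gb hyb
    have hY : 0 < Y := by
      by_contra hc'
      push Not at hc'
      have := mul_nonneg (show (0 : ℤ) ≤ rk a by linarith) (show 0 ≤ -X by linarith)
      have := mul_nonneg (show (0 : ℤ) ≤ rk b by linarith) (neg_nonneg.2 hc')
      nlinarith
    refine g3b ⟨?_, hyb⟩
    have h3 := c.chi_left b
    rw [h.bb] at h3
    have e1 := mul_nonneg (show 0 ≤ -X by linarith) (neg_nonneg.2 h.ba)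
    have e2 := mul_nonneg (show 0 ≤ -G by linarith) (show 0 ≤ rk b - b.1 by linarith)
    have : 0 < D * chi b y := by nlinarith
    exact (mul_pos_iff_of_pos_left c.pos).1 this
  · push Not at hyb
    have hya : 0 < chi y a := by
      rw [h.chi_left] at hchi
      have := mul_nonneg (show (0 : ℤ) ≤ c₂ by linarith [h.hc₂]) (neg_nonneg.2 hyb)
      have : 0 < c₁ * chi y a := by linarith
      exact (mul_pos_iff_of_pos_left (by linarith [h.hc₁])).1 this
    have hY := ga hya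
    by_cases hX : 0 < X
    · refine g3a ⟨?_, hya⟩
      have h3 := c.chi_left a
      rw [h.aa, h.ab] at h3
      have e2 := mul_nonneg (show 0 ≤ -G by linarith) (show 0 ≤ rk a - a.1 by linarith)
      have : 0 < D * chi a y := by nlinarith
      exact (mul_pos_iff_of_pos_left c.pos).1 this
    · push Not at hX
      have h3 := c.chi_right a
      rw [h.aa] at h3
      have e0 : 0 < D * chi y a := mul_pos c.pos hya
      have e1 := mul_nonneg hY.le (neg_nonneg.2 h.ba)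
      have e2 := mul_nonneg (show 0 ≤ -G by linarith) (show 0 ≤ rk a by linarith)
      nlinarith

/-- Numerical part of Q1. -/
lemma numQ1 {u a b y : Ty} {c₁ c₂ D X Y G : ℤ} (h : WallNum u a b c₁ c₂)
    (c : Coords a b y D X Y G) (hyp : Pos y) (hb0 : 0 ≤ b.1) (hy : 1 ≤ rk y) (hG : 0 ≤ G)
    (hchi : 0 < chi u y) (ga : 0 < chi a y → Y < 0)
    (hs : Y ≤ 0 → y.1 * rk a ≤ a.1 * rk y)
    (g3a : ¬ (0 < chi a y ∧ 0 < chi y a)) (g3b : ¬ (0 < chi b y ∧ 0 < chi y b)) : False := by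
  have hDy : 0 < D * rk y := mul_pos c.pos (by linarith)
  have h2 := c.h2
  have hna := h.na
  have hnb := h.nb
  have key : chi a y ≤ 0 → 0 < chi b y := by
    intro hay
    rw [h.chi_right] at hchi
    have := mul_nonneg (show (0 : ℤ) ≤ c₁ by linarith [h.hc₁]) (neg_nonneg.2 hay)
    have : 0 < c₂ * chi b y := by linarith
    exact (mul_pos_iff_of_pos_left (by linarith [h.hc₂])).1 this
  by_cases hY : 0 < Y
  · have hay : chi a y ≤ 0 := by
      by_contra hc
      push Not at hc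
      exact absurd (ga hc) (by linarith)
    refine g3b ⟨key hay, ?_⟩
    have h3 := c.chi_right b
    rw [h.ab, h.bb] at h3
    have : 0 < D * chi y b := by
      rw [h3]
      have := mul_nonneg hG (show 0 ≤ rk b by linarith)
      linarith
    exact (mul_pos_iff_of_pos_left c.pos).1 this
  · push Not at hY
    have hX : 0 < X := by
      by_contra hc'
      push Not at hc'
      have := mul_nonneg (show (0 : ℤ) ≤ rk a by linarith) (neg_nonneg.2 hc')
      have := mul_nonneg (show (0 : ℤ) ≤ rk b by linarith) (neg_nonneg.2 hY)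
      nlinarith
    have hya : 0 < chi y a := by
      have h3 := c.chi_right a
      rw [h.aa] at h3
      have e1 := mul_nonneg (neg_nonneg.2 hY) (neg_nonneg.2 h.ba)
      have e2 := mul_nonneg hG (show 0 ≤ rk a by linarith)
      have : 0 < D * chi y a := by nlinarith
      exact (mul_pos_iff_of_pos_left c.pos).1 this
    have hay : chi a y ≤ 0 := by
      by_contra hc
      push Not at hc
      exact g3a ⟨hc, hya⟩
    have hby := key hay
    have hka : a.1 < rk a := by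
      by_contra hc
      push Not at hc
      have h3 := c.chi_left a
      rw [h.aa, h.ab] at h3
      have e2 := mul_nonneg hG (show 0 ≤ a.1 - rk a by linarith)
      have : 0 < D * chi a y := by nlinarith
      have := (mul_pos_iff_of_pos_left c.pos).1 this
      linarith
    have hkb : rk b < b.1 := by
      by_contra hc
      push Not at hc
      have h3 := c.chi_left b
      rw [h.bb] at h3
      have e0 := mul_nonneg hX.le (neg_nonneg.2 h.ba)
      have e2 := mul_nonneg hG (show 0 ≤ rk b - b.1 by linarith)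
      have e3 : 0 < D * chi b y := mul_pos c.pos hby
      nlinarith
    have hky : y.1 < rk y := by
      have h3 := hs hY
      have h4 : a.1 * rk y < rk a * rk y := mul_lt_mul_of_pos_right hka (by linarith)
      have h5 : rk a * y.1 < rk a * rk y := by linarith
      exact lt_of_mul_lt_mul_left h5 (by linarith)
    have := chi_nonpos_of_ranks hnb hb0 h.bb hyp hy hkb hky
    linarith

/-- Numerical part of Q2. -/
lemma numQ2 {u a b y : Ty} {c₁ c₂ D X Y G : ℤ} (h : WallNum u a b c₁ c₂)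
    (c : Coords a b y D X Y G) (hy : 1 ≤ rk y) (hG : G ≤ 0)
    (hchi : 0 < chi y u) (ga : 0 < chi y a → 0 < Y ∧ a.1 ≤ rk a)
    (gb : 0 < chi y b → X < 0 ∧ b.1 ≤ rk b)
    (g3a : ¬ (0 < chi a y ∧ 0 < chi y a)) (g3b : ¬ (0 < chi b y ∧ 0 < chi y b)) : False := by
  have hDy : 0 < D * rk y := mul_pos c.pos (by linarith)
  have h2 := c.h2
  have hna := h.na
  have hnb := h.nb
  by_cases hyb : 0 < chi y b
  · obtain ⟨hX, hb⟩ := gb hyb
    have hY : 0 < Y := by
      by_contra hc'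
      push Not at hc'
      have := mul_nonneg (show (0 : ℤ) ≤ rk a by linarith) (show 0 ≤ -X by linarith)
      have := mul_nonneg (show (0 : ℤ) ≤ rk b by linarith) (neg_nonneg.2 hc')
      nlinarith
    refine g3b ⟨?_, hyb⟩
    have h3 := c.chi_left b
    rw [h.bb] at h3
    have e1 := mul_nonneg (show 0 ≤ -X by linarith) (neg_nonneg.2 h.ba)
    have e2 := mul_nonneg (show 0 ≤ -G by linarith) (show 0 ≤ rk b - b.1 by linarith)
    have : 0 < D * chi b y := by nlinarith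
    exact (mul_pos_iff_of_pos_left c.pos).1 this
  · push Not at hyb
    have hya : 0 < chi y a := by
      rw [h.chi_left] at hchi
      have := mul_nonneg (show (0 : ℤ) ≤ c₂ by linarith [h.hc₂]) (neg_nonneg.2 hyb)
      have : 0 < c₁ * chi y a := by linarith
      exact (mul_pos_iff_of_pos_left (by linarith [h.hc₁])).1 this
    obtain ⟨hY, ha⟩ := ga hya
    by_cases hX : 0 < X
    · refine g3a ⟨?_, hya⟩
      have h3 := c.chi_left a
      rw [h.aa, h.ab] at h3
      have e2 := mul_nonneg (show 0 ≤ -G by linarith) (show 0 ≤ rk a - a.1 by linarith)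
      have : 0 < D * chi a y := by nlinarith
      exact (mul_pos_iff_of_pos_left c.pos).1 this
    · push Not at hX
      have h3 := c.chi_right a
      rw [h.aa] at h3
      have e0 : 0 < D * chi y a := mul_pos c.pos hya
      have e1 := mul_nonneg hY.le (neg_nonneg.2 h.ba)
      have e2 := mul_nonneg (show 0 ≤ -G by linarith) (show 0 ≤ rk a by linarith)
      nlinarith

end CohP1
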