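import Pool.Agent.Lib_helper87.Coh.St

/-!
# Position of the stability intervals
-/

namespace CohP1

open Module Topology

lemma cr_shift (p q : Ty) (α β : ℝ) :
    cr β p q = cr α p q + (β - α) * ((p.1 * rk q - q.1 * rk p : ℤ) : ℝ) := by
  simp only [cr, lam]; push_cast; ring

lemma cr_at (p q : Ty) (α : ℝ) : cr α p q = α * ((p.1 * rk q - q.1 * rk p : ℤ) : ℝ) +
    ((p.2.2 * rk q - q.2.2 * rk p : ℤ) : ℝ) := by
  simp only [cr, lam]; push_cast; ring

lemma WallData.cr_ab {e : ℝ} {u a b : Ty} {c₁ c₂ : ℤ} (h : WallData e u a b c₁ c₂)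
    (hu : 1 ≤ rk u) : cr e a b = 0 := by
  have hX' : (0 : ℝ) < rk u := by exact_mod_cast hu
  have ha := h.cra
  have hb := h.crb
  simp only [cr] at *
  have : (rk u : ℝ) * (lam e a * rk b - lam e b * rk a) = 0 := by
    have e1 : lam e b * rk u = lam e u * rk b := by linarith
    have e2 : lam e a * rk u = lam e u * rk a := by linarith
    calc (rk u : ℝ) * (lam e a * rk b - lam e b * rk a) =
        (lam e a * rk u) * rk b - (lam e b * rk u) * rk a := by ring
      _ = 0 := by rw [e1, e2]; ring
  rcases mul_eq_zero.1 this with h | h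
  · exact absurd h hX'.ne'
  · exact h

/-- The sign of the third coordinate. -/
lemma WallData.cr_left {e : ℝ} {u a b y : Ty} {c₁ c₂ D X Y G : ℤ} (h : WallData e u a b c₁ c₂)
    (hu : 1 ≤ rk u) (c : Coords a b y D X Y G) :
    (D : ℝ) * cr e a y = G * rk a ∧ (D : ℝ) * cr e b y = G * rk b ∧
      (D : ℝ) * cr e u y = G * rk u := by
  have hab := h.cr_ab hu
  have h1 : (D : ℝ) * y.1 = X * a.1 + Y * b.1 := by exact_mod_cast c.h1
  have h2 : (D : ℝ) * rk y = X * rk a + Y * rk b := by exact_mod_cast c.h2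
  have h3 : (D : ℝ) * y.2.2 = X * a.2.2 + Y * b.2.2 - G := by exact_mod_cast c.h3
  have hlam : (D : ℝ) * lam e y = X * lam e a + Y * lam e b - G := by
    simp only [lam]
    linear_combination h3 + e * h1
  have e1 : (D : ℝ) * cr e a y = G * rk a := by
    simp only [cr] at hab ⊢
    linear_combination lam e a * h2 - rk a * hlam + Y * hab
  have e2 : (D : ℝ) * cr e b y = G * rk b := by
    simp only [cr] at hab ⊢
    linear_combination lam e b * h2 - rk b * hlam - X * hab
  refine ⟨e1, e2, ?_⟩
  have u1 : (u.1 : ℝ) = c₁ * a.1 + c₂ * b.1 := by exact_mod_cast h.u1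
  have u2 : (rk u : ℝ) = c₁ * rk a + c₂ * rk b := by exact_mod_cast h.u2
  have u3 : (u.2.2 : ℝ) = c₁ * a.2.2 + c₂ * b.2.2 := by exact_mod_cast h.u3
  have hl : lam e u = c₁ * lam e a + c₂ * lam e b := by
    simp only [lam]
    linear_combination u3 + e * u1
  have : cr e u y = c₁ * cr e a y + c₂ * cr e b y := by
    simp only [cr]
    rw [hl, u2]; ring
  rw [this, u2]
  linear_combination c₁ * e1 + c₂ * e2

lemma not_st_of_le {y : Ty} {e : ℝ} (he : 0 < e) (H : ∀ α, 0 < α → St α y → e ≤ α) :
    ¬ St e y := by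
  intro h
  obtain ⟨ε, hε, hball⟩ := Metric.eventually_nhds_iff.1 (h.eventually.and (lt_mem_nhds he))
  have := hball (y := e - ε / 2) (by
    rw [Real.dist_eq]
    have : e - ε / 2 - e = - (ε / 2) := by ring
    rw [this, abs_neg, abs_of_pos] <;> linarith)
  have := H _ this.2 this.1
  linarith

lemma not_st_of_ge {y : Ty} {e : ℝ} (he : 0 < e) (H : ∀ α, 0 < α → St α y → α ≤ e) :
    ¬ St e y := by
  intro h
  obtain ⟨ε, hε, hball⟩ := Metric.eventually_nhds_iff.1 h.eventually
  have := hball (y := e + ε / 2) (by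
    rw [Real.dist_eq]
    have : e + ε / 2 - e = ε / 2 := by ring
    rw [this, abs_of_pos] <;> linarith)
  have := H _ (by linarith) this
  linarith

/-- The upper wall of a real type. -/
lemma upper_facts {e : ℝ} {u a b : Ty} {c₁ c₂ : ℤ} (h : WallData e u a b c₁ c₂) {α : ℝ}
    (hu : 1 ≤ rk u) (hα : α < e) (hc : cr α a u < 0) :
    b.1 * rk a < a.1 * rk b ∧ a.1 ≤ rk a ∧ b.1 < rk b ∧ u.1 < rk u := by
  have h1 := cr_shift a u α e
  rw [h.cra] at h1
  have h2 : (0 : ℝ) < (e - α) * ((a.1 * rk u - u.1 * rk a : ℤ) : ℝ) := by linarith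
  have h3 : (0 : ℝ) < ((a.1 * rk u - u.1 * rk a : ℤ) : ℝ) :=
    (mul_pos_iff_of_pos_left (by linarith)).1 h2
  have h4 : 0 < a.1 * rk u - u.1 * rk a := by exact_mod_cast h3
  have h5 : a.1 * rk u - u.1 * rk a = c₂ * (a.1 * rk b - b.1 * rk a) := by
    rw [h.u1, h.u2]; ring
  rw [h5] at h4
  have h6 : 0 < a.1 * rk b - b.1 * rk a :=
    (mul_pos_iff_of_pos_left (by linarith [h.hc₂])).1 h4
  have ha1 := h.sa.pos.1
  have hb1 := h.sb.pos.1
  have h7 : a.1 ≤ rk a := by
    by_contra hcon
    push Not at hcon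
    have haa := h.aa
    rw [chi_self] at haa
    have hm : 0 ≤ a.2.1 - a.1 := by
      by_contra hc'
      push Not at hc'
      have := mul_neg_of_pos_of_neg (show 0 < a.1 by linarith [h.na]) hc'
      nlinarith [h.na]
    have := real_pair_rank h.na h.nb ha1 hm hb1 h.aa h.bb h.ab h.ba (by linarith)
    linarith
  have h8 : b.1 < rk b := by
    have e1 : a.1 * rk b ≤ rk a * rk b := mul_le_mul_of_nonneg_right h7 (by linarith [h.nb])
    have e2 : rk a * b.1 < rk a * rk b := by linarith
    exact lt_of_mul_lt_mul_left e2 (by linarith [h.na])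
  refine ⟨by linarith, h7, h8, ?_⟩
  rw [h.u1, h.u2]
  have e1 : c₁ * a.1 ≤ c₁ * rk a := mul_le_mul_of_nonneg_left h7 (by linarith [h.hc₁])
  have e2 : c₂ * b.1 < c₂ * rk b := mul_lt_mul_of_pos_left h8 (by linarith [h.hc₂])
  linarith

lemma upper_real {y : Ty} {α e : ℝ} (hα : 0 < α) (hαe : α ≤ e) (hy : chi y y = 1)
    (ry : 1 ≤ rk y) (h1 : St α y) (h2 : ¬ St e y) : y.1 < rk y := by
  obtain ⟨f, hf, hss, hns, -⟩ := exists_first_wall h1 h2
  have hf' : α < f := by
    rcases hf with h | h
    · exact h.1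
    · linarith [h.1, h.2]
  obtain ⟨a, b, c₁, c₂, hW, hca, -⟩ := wall_structure hα (by linarith) hy ry h1 hss hns
  exact (upper_facts hW ry hf' hca).2.2.2

/-- Claim P: real types with stability interval on the left of the one of `y`. -/
theorem claimP {y : Ty} (ry : 1 ≤ rk y) {α₁ : ℝ} (hα₁ : 0 < α₁) (hy : St α₁ y) (N : ℕ) :
    ∀ (u : Ty) (α e : ℝ), tot u < N → chi u u = 1 → 1 ≤ rk u → 0 < α → α < e → St α u →
      Semistable e (genRep u) → ¬ St e u → (∀ β, 0 < β → St β y → e ≤ β) →
      ¬ (0 < chi u y ∧ 0 ≤ cr e u y) ∧ ¬ (0 < chi y u ∧ cr e u y ≤ 0) := by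
  induction N with
  | zero =>
    intro u α e ht _ _ _ _ hu
    have := hu.pos.tot_pos hu.ne_zero
    simp only [Nat.cast_zero] at ht
    omega
  | succ N IH =>
    intro u α e ht cu ru hα hαe hu hss hns H
    have he : 0 < e := hα.trans hαe
    have hye := not_st_of_le he H
    obtain ⟨a, b, c₁, c₂, hW, hca, -⟩ := wall_structure hα he cu ru hu hss hns
    obtain ⟨hDab, hka, hkb, hku⟩ := upper_facts hW ru hαe hca
    -- general facts
    have GF : ∀ v : Ty, tot v < tot u → chi v v = 1 → 1 ≤ rk v → St e v →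
        ∃ e', e < e' ∧ (0 < chi v y → cr e' v y < 0) ∧ (0 < chi y v → 0 < cr e' v y) := by
      intro v htv cv rv hv
      by_cases hcom : ∃ β, 0 < β ∧ St β y ∧ St β v
      · obtain ⟨β, hβ, h1, h2⟩ := hcom
        have hne : v ≠ y := by rintro rfl; exact hye hv
        have hβe : e < β := by
          rcases lt_or_eq_of_le (H β hβ h1) with h | h
          · exact h
          · exact absurd (h ▸ h1) hye
        refine ⟨β, hβe, fun hc => St.cr_neg hβ h2 h1 hne hc, fun hc => ?_⟩
        have := St.cr_neg hβ h1 h2 (Ne.symm hne) hc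
        rw [cr_swap] at this
        linarith
      · push Not at hcom
        obtain ⟨e', he', hss', hns', hst⟩ := exists_first_wall hv (hcom α₁ hα₁ hy)
        have hαe' := H α₁ hα₁ hy
        have hee' : e < e' := by
          rcases he' with h | h
          · exact h.1
          · linarith [h.1, h.2]
        have := IH v e e' (by push_cast at ht; omega) cv rv he hee' hv hss' hns' (by
          intro β hβ hyβ
          by_contra hc
          push Not at hc
          exact hcom β hβ hyβ (hst β (Or.inl ⟨H β hβ hyβ, hc⟩)))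
        refine ⟨e', hee', fun hc => ?_, fun hc => ?_⟩
        · by_contra hc'
          push Not at hc'
          exact this.1 ⟨hc, hc'⟩
        · by_contra hc'
          push Not at hc'
          exact this.2 ⟨hc, hc'⟩
    obtain ⟨ea, hea, ga1, ga2⟩ := GF a hW.ta hW.aa hW.na hW.sa
    obtain ⟨eb, heb, gb1, gb2⟩ := GF b hW.tb hW.bb hW.nb hW.sb
    -- coordinates
    have hC : Coords a b y (a.1 * rk b - b.1 * rk a) (y.1 * rk b - b.1 * rk y)
        (a.1 * rk y - y.1 * rk a) ((y.1 * rk b - b.1 * rk y) * a.2.2 +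
          (a.1 * rk y - y.1 * rk a) * b.2.2 - (a.1 * rk b - b.1 * rk a) * y.2.2) :=
      ⟨by linarith, by ring, by ring, by ring⟩
    obtain ⟨s1, s2, s3⟩ := hW.cr_left ru hC
    have hDpos : (0 : ℝ) < ((a.1 * rk b - b.1 * rk a : ℤ) : ℝ) := by
      exact_mod_cast hC.pos
    obtain ⟨G, hG⟩ : ∃ G, G = (y.1 * rk b - b.1 * rk y) * a.2.2 +
          (a.1 * rk y - y.1 * rk a) * b.2.2 - (a.1 * rk b - b.1 * rk a) * y.2.2 := ⟨_, rfl⟩
    rw [← hG] at hC s1 s2 s3
    have hru : (0 : ℝ) < rk u := by exact_mod_cast (by linarith : 0 < rk u)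
    have hra : (0 : ℝ) < rk a := by exact_mod_cast (by linarith [hW.na] : 0 < rk a)
    have hrb : (0 : ℝ) < rk b := by exact_mod_cast (by linarith [hW.nb] : 0 < rk b)
    have g3a : ¬ (0 < chi a y ∧ 0 < chi y a) := fun h => by
      have := ga1 h.1; have := ga2 h.2; linarith
    have g3b : ¬ (0 < chi b y ∧ 0 < chi y b) := fun h => by
      have := gb1 h.1; have := gb2 h.2; linarith
    constructor
    · rintro ⟨hchi, hcr⟩
      have hGpos' : (0 : ℝ) ≤ G := by
        have h1 : 0 ≤ (G : ℝ) * rk u := by rw [← s3]; exact mul_nonneg hDpos.le hcr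
        by_contra hc
        push Not at hc
        have := mul_neg_of_neg_of_pos hc hru
        linarith
      have hGpos : 0 ≤ G := by exact_mod_cast hGpos'
      refine numP1 hW.toWallNum hC ry hGpos hku hchi (fun hc => ?_) g3b
      have h1 := ga1 hc
      rw [cr_shift a y e ea] at h1
      have h2 : 0 ≤ cr e a y := by
        have : 0 ≤ ((a.1 * rk b - b.1 * rk a : ℤ) : ℝ) * cr e a y := by
          rw [s1]; exact mul_nonneg hGpos' hra.le
        by_contra hc
        push Not at hc
        have := mul_neg_of_pos_of_neg hDpos hc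
        linarith
      by_contra hc'
      push Not at hc'
      have h3 : (0 : ℝ) ≤ ((a.1 * rk y - y.1 * rk a : ℤ) : ℝ) := by exact_mod_cast hc'
      have := mul_nonneg (show 0 ≤ ea - e by linarith) h3
      linarith
    · rintro ⟨hchi, hcr⟩
      have hGneg : G ≤ 0 := by
        by_contra hc
        push Not at hc
        have hc' : (0 : ℝ) < G := by exact_mod_cast hc
        have := mul_pos hc' hru
        have := mul_nonneg hDpos.le (neg_nonneg.2 hcr)
        linarith
      have hGneg' : (G : ℝ) ≤ 0 := by exact_mod_cast hGneg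
      have hcra : cr e a y ≤ 0 := by
        by_contra hc
        push Not at hc
        have := mul_pos hDpos hc
        have := mul_nonneg (neg_nonneg.2 hGneg') hra.le
        linarith
      have hcrb : cr e b y ≤ 0 := by
        by_contra hc
        push Not at hc
        have := mul_pos hDpos hc
        have := mul_nonneg (neg_nonneg.2 hGneg') hrb.le
        linarith
      refine numP2 hW.toWallNum hC ry hGneg hka hkb.le hchi (fun hc => ?_) (fun hc => ?_) g3a g3b
      · have h1 := ga2 hc
        rw [cr_shift a y e ea] at h1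
        by_contra hc'
        push Not at hc'
        have h3 : ((a.1 * rk y - y.1 * rk a : ℤ) : ℝ) ≤ 0 := by exact_mod_cast hc'
        have := mul_nonneg (show 0 ≤ ea - e by linarith) (neg_nonneg.2 h3)
        linarith
      · have h1 := gb2 hc
        rw [cr_shift b y e eb] at h1
        by_contra hc'
        push Not at hc'
        have h3 : ((b.1 * rk y - y.1 * rk b : ℤ) : ℝ) ≤ 0 := by
          exact_mod_cast (by linarith : b.1 * rk y - y.1 * rk b ≤ 0)
        have := mul_nonneg (show 0 ≤ eb - e by linarith) (neg_nonneg.2 h3)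
        linarith

/-- Claim Q: real types with stability interval on the right of the one of `y`. -/
theorem claimQ {y : Ty} (ry : 1 ≤ rk y) {α₁ : ℝ} (hα₁ : 0 < α₁) (hy : St α₁ y) (N : ℕ) :
    ∀ (u : Ty) (α e : ℝ), tot u < N → chi u u = 1 → 1 ≤ rk u → 0 < e → e < α → St α u →
      Semistable e (genRep u) → ¬ St e u → (∀ β, 0 < β → St β y → β ≤ e) →
      ¬ (0 < chi u y ∧ 0 ≤ cr e u y) ∧ ¬ (0 < chi y u ∧ cr e u y ≤ 0) := by
  induction N with
  | zero =>
    intro u α e ht _ _ _ _ hu
    have := hu.pos.tot_pos hu.ne_zero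
    simp only [Nat.cast_zero] at ht
    omega
  | succ N IH =>
    intro u α e ht cu ru he hαe hu hss hns H
    have hα : 0 < α := he.trans hαe
    have hye := not_st_of_ge he H
    obtain ⟨a, b, c₁, c₂, hW, hca, -⟩ := wall_structure hα he cu ru hu hss hns
    have hDab : a.1 * rk b < b.1 * rk a := by
      have h1 := cr_shift a u α e
      rw [hW.cra] at h1
      have h2 : (0 : ℝ) < (α - e) * (-((a.1 * rk u - u.1 * rk a : ℤ) : ℝ)) := by linarith
      have h3 : (0 : ℝ) < -((a.1 * rk u - u.1 * rk a : ℤ) : ℝ) :=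
        (mul_pos_iff_of_pos_left (by linarith)).1 h2
      have h4 : 0 < -(a.1 * rk u - u.1 * rk a) := by exact_mod_cast h3
      have h5 : -(a.1 * rk u - u.1 * rk a) = c₂ * (b.1 * rk a - a.1 * rk b) := by
        rw [hW.u1, hW.u2]; ring
      rw [h5] at h4
      have h6 := (mul_pos_iff_of_pos_left (by linarith [hW.hc₂])).1 h4
      linarith
    -- `y` is not real with large rank quotient
    have hyreal : ∀ v : Ty, chi v v = 1 → 1 ≤ rk v → 0 ≤ v.1 → v.1 * rk y < y.1 * rk v →
        y.2.2 * rk v < v.2.2 * rk y → v.1 ≤ rk v := by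
      intro v cv rv hv0 h1 h2
      by_contra hc
      push Not at hc
      have h3 := chi_pos_of_ranks rv hv0 cv ry hc h1 h2
      have h4 := hy.chi_le_one hα₁
      have h5 := upper_real hα₁ (H α₁ hα₁ hy) (by omega) ry hy hye
      have h6 : rk v * rk y < v.1 * rk y := mul_lt_mul_of_pos_right hc (by linarith)
      have h7 : y.1 * rk v < rk y * rk v := mul_lt_mul_of_pos_right h5 (by linarith)
      linarith
    -- general facts
    have GF : ∀ v : Ty, tot v < tot u → chi v v = 1 → 1 ≤ rk v → St e v →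
        ∃ e', 0 < e' ∧ e' < e ∧ (0 < chi v y → cr e' v y < 0) ∧ (0 < chi y v → 0 < cr e' v y) := by
      intro v htv cv rv hv
      by_cases hcom : ∃ β, 0 < β ∧ St β y ∧ St β v
      · obtain ⟨β, hβ, h1, h2⟩ := hcom
        have hne : v ≠ y := by rintro rfl; exact hye hv
        have hβe : β < e := by
          rcases lt_or_eq_of_le (H β hβ h1) with h | h
          · exact h
          · exact absurd (h ▸ h1) hye
        refine ⟨β, hβ, hβe, fun hc => St.cr_neg hβ h2 h1 hne hc, fun hc => ?_⟩
        have := St.cr_neg hβ h1 h2 (Ne.symm hne) hc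
        rw [cr_swap] at this
        linarith
      · push Not at hcom
        obtain ⟨e', he', hss', hns', hst⟩ := exists_first_wall hv (hcom α₁ hα₁ hy)
        have hαe' := H α₁ hα₁ hy
        have hee' : e' < e := by
          rcases he' with h | h
          · linarith [h.1, h.2]
          · exact h.2
        have he'0 : 0 < e' := by
          rcases he' with h | h
          · linarith [h.1, h.2]
          · linarith [h.1]
        have := IH v e e' (by push_cast at ht; omega) cv rv he'0 hee' hv hss' hns' (by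
          intro β hβ hyβ
          by_contra hc
          push Not at hc
          exact hcom β hβ hyβ (hst β (Or.inr ⟨hc, H β hβ hyβ⟩)))
        refine ⟨e', he'0, hee', fun hc => ?_, fun hc => ?_⟩
        · by_contra hc'
          push Not at hc'
          exact this.1 ⟨hc, hc'⟩
        · by_contra hc'
          push Not at hc'
          exact this.2 ⟨hc, hc'⟩
    obtain ⟨ea, hea0, hea, ga1, ga2⟩ := GF a hW.ta hW.aa hW.na hW.sa
    obtain ⟨eb, heb0, heb, gb1, gb2⟩ := GF b hW.tb hW.bb hW.nb hW.sb
    -- coordinates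
    have hC : Coords a b y (b.1 * rk a - a.1 * rk b) (b.1 * rk y - y.1 * rk b)
        (y.1 * rk a - a.1 * rk y) ((b.1 * rk y - y.1 * rk b) * a.2.2 +
          (y.1 * rk a - a.1 * rk y) * b.2.2 - (b.1 * rk a - a.1 * rk b) * y.2.2) :=
      ⟨by linarith, by ring, by ring, by ring⟩
    obtain ⟨s1, s2, s3⟩ := hW.cr_left ru hC
    have hDpos : (0 : ℝ) < ((b.1 * rk a - a.1 * rk b : ℤ) : ℝ) := by
      exact_mod_cast hC.pos
    obtain ⟨G, hG⟩ : ∃ G, G = (b.1 * rk y - y.1 * rk b) * a.2.2 +
          (y.1 * rk a - a.1 * rk y) * b.2.2 - (b.1 * rk a - a.1 * rk b) * y.2.2 := ⟨_, rfl⟩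
    rw [← hG] at hC s1 s2 s3
    have hru : (0 : ℝ) < rk u := by exact_mod_cast (by linarith : 0 < rk u)
    have hra : (0 : ℝ) < rk a := by exact_mod_cast (by linarith [hW.na] : 0 < rk a)
    have hrb : (0 : ℝ) < rk b := by exact_mod_cast (by linarith [hW.nb] : 0 < rk b)
    have g3a : ¬ (0 < chi a y ∧ 0 < chi y a) := fun h => by
      have := ga1 h.1; have := ga2 h.2; linarith
    have g3b : ¬ (0 < chi b y ∧ 0 < chi y b) := fun h => by
      have := gb1 h.1; have := gb2 h.2; linarith
    constructor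
    · rintro ⟨hchi, hcr⟩
      have hGpos' : (0 : ℝ) ≤ G := by
        have h1 : 0 ≤ (G : ℝ) * rk u := by rw [← s3]; exact mul_nonneg hDpos.le hcr
        by_contra hc
        push Not at hc
        have := mul_neg_of_neg_of_pos hc hru
        linarith
      have hGpos : 0 ≤ G := by exact_mod_cast hGpos'
      refine numQ1 hW.toWallNum hC hy.pos hW.sb.pos.1 ry hGpos hchi (fun hc => ?_)
        (fun hc => by linarith) g3a g3b
      have h1 := ga1 hc
      rw [cr_shift a y e ea] at h1
      have h2 : 0 ≤ cr e a y := by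
        have : 0 ≤ ((b.1 * rk a - a.1 * rk b : ℤ) : ℝ) * cr e a y := by
          rw [s1]; exact mul_nonneg hGpos' hra.le
        by_contra hc
        push Not at hc
        have := mul_neg_of_pos_of_neg hDpos hc
        linarith
      by_contra hc'
      push Not at hc'
      have h3 : ((a.1 * rk y - y.1 * rk a : ℤ) : ℝ) ≤ 0 := by
        exact_mod_cast (by linarith : a.1 * rk y - y.1 * rk a ≤ 0)
      have := mul_nonneg (show 0 ≤ e - ea by linarith) (neg_nonneg.2 h3)
      linarith
    · rintro ⟨hchi, hcr⟩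
      have hGneg : G ≤ 0 := by
        by_contra hc
        push Not at hc
        have hc' : (0 : ℝ) < G := by exact_mod_cast hc
        have := mul_pos hc' hru
        have := mul_nonneg hDpos.le (neg_nonneg.2 hcr)
        linarith
      have hGneg' : (G : ℝ) ≤ 0 := by exact_mod_cast hGneg
      have hcra : cr e a y ≤ 0 := by
        by_contra hc
        push Not at hc
        have := mul_pos hDpos hc
        have := mul_nonneg (neg_nonneg.2 hGneg') hra.le
        linarith
      have hcrb : cr e b y ≤ 0 := by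
        by_contra hc
        push Not at hc
        have := mul_pos hDpos hc
        have := mul_nonneg (neg_nonneg.2 hGneg') hrb.le
        linarith
      have sgn : ∀ (v : Ty) (f : ℝ), 0 < f → f < e → 0 < cr f v y → cr e v y ≤ 0 →
          v.1 * rk y - y.1 * rk v < 0 ∧ 0 < v.2.2 * rk y - y.2.2 * rk v := by
        intro v f hf0 hf h1 h2
        have h3 := cr_shift v y f e
        have h4 : ((v.1 * rk y - y.1 * rk v : ℤ) : ℝ) < 0 := by
          by_contra hc'
          push Not at hc'
          have := mul_nonneg (show 0 ≤ e - f by linarith) hc'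
          linarith
        refine ⟨by exact_mod_cast h4, ?_⟩
        rw [cr_at] at h1
        have h5 : (0 : ℝ) < ((v.2.2 * rk y - y.2.2 * rk v : ℤ) : ℝ) := by
          have := mul_neg_of_pos_of_neg hf0 h4
          linarith
        exact_mod_cast h5
      refine numQ2 hW.toWallNum hC ry hGneg hchi (fun hc => ?_) (fun hc => ?_) g3a g3b
      · obtain ⟨h1, h2⟩ := sgn a ea hea0 hea (ga2 hc) hcra
        exact ⟨by linarith, hyreal a hW.aa hW.na hW.sa.pos.1 (by linarith) (by linarith)⟩
      · obtain ⟨h1, h2⟩ := sgn b eb heb0 heb (gb2 hc) hcrb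
        exact ⟨by linarith, hyreal b hW.bb hW.nb hW.sb.pos.1 (by linarith) (by linarith)⟩

end CohP1
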