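import Pool.Agent.Lib_helper87.Coh.Main2
import Pool.Agent.Lib_helper87.Coh.Num2

/-!
# Stability of types
-/

namespace CohP1

open Module Topology

variable {A B C M N X Y : QRep}

/-- There is a stable representation of type `t`. -/
def St (α : ℝ) (t : Ty) : Prop := ∃ M : QRep, M.ty = t ∧ Stable α M

lemma gen_stable_iff {α : ℝ} {k w u : ℕ} {p q : Idx k w u → ℂ} (hp : Gen p) (hq : Gen q)
    (h : Stable α (ofCoord p)) : Stable α (ofCoord q) := by
  refine ⟨by rw [ty_ofCoord, ← ty_ofCoord p]; exact h.1, fun A i hi h0 h1 => ?_⟩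
  obtain ⟨A', i', hi', ht⟩ := gen_alike hq hp i hi
  rw [ty_ofCoord, ← ty_ofCoord p] at h1 ⊢
  rw [← ht] at h0 h1 ⊢
  exact h.2 A' i' hi' h0 h1

lemma gen_semistable_iff {α : ℝ} {k w u : ℕ} {p q : Idx k w u → ℂ} (hp : Gen p) (hq : Gen q)
    (h : Semistable α (ofCoord p)) : Semistable α (ofCoord q) := by
  intro A i hi
  obtain ⟨A', i', hi', ht⟩ := gen_alike hq hp i hi
  rw [ty_ofCoord, ← ty_ofCoord p, ← ht]
  exact h A' i' hi'

/-- Coordinates of a generic representation of type `t`. -/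
noncomputable def genPt (t : Ty) : Idx t.1.toNat t.2.1.toNat t.2.2.toNat → ℂ :=
  Classical.choose (exists_algInd (Idx t.1.toNat t.2.1.toNat t.2.2.toNat))

lemma gen_genPt (t : Ty) : Gen (genPt t) :=
  Classical.choose_spec (exists_algInd (Idx t.1.toNat t.2.1.toNat t.2.2.toNat))

/-- A generic representation of type `t`. -/
noncomputable def genRep (t : Ty) : QRep := ofCoord (genPt t)

lemma ty_genRep {t : Ty} (ht : Pos t) : (genRep t).ty = t := by
  obtain ⟨h1, h2, h3⟩ := ht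
  unfold genRep
  rw [ty_ofCoord]
  refine Prod.ext (Int.toNat_of_nonneg h1) (Prod.ext (Int.toNat_of_nonneg h2)
    (Int.toNat_of_nonneg h3))

lemma St.pos {α : ℝ} {t : Ty} (h : St α t) : Pos t := by
  obtain ⟨M, rfl, -⟩ := h
  exact M.pos

lemma St.ne_zero {α : ℝ} {t : Ty} (h : St α t) : t ≠ 0 := by
  obtain ⟨M, rfl, h⟩ := h
  exact h.1

lemma St.stable {α : ℝ} {t : Ty} (h : St α t) : Stable α (genRep t) := by
  obtain ⟨M, rfl, h⟩ := h
  obtain ⟨k, w, u, p, hp, hpt, hps⟩ := exists_gen_stable h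
  have h1 : k = M.ty.1.toNat := by rw [← hpt, ty_ofCoord]; simp
  have h2 : w = M.ty.2.1.toNat := by rw [← hpt, ty_ofCoord]; simp
  have h3 : u = M.ty.2.2.toNat := by rw [← hpt, ty_ofCoord]; simp
  subst h1 h2 h3
  exact gen_stable_iff hp (gen_genPt _) hps

lemma st_iff {α : ℝ} {t : Ty} (ht : Pos t) : St α t ↔ Stable α (genRep t) :=
  ⟨fun h => h.stable, fun h => ⟨genRep t, ty_genRep ht, h⟩⟩

lemma St.chi_le_one {α : ℝ} (hα : 0 < α) {t : Ty} (h : St α t) : chi t t ≤ 1 := by
  obtain ⟨M, rfl, h⟩ := h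
  exact CohP1.chi_le_one hα h

lemma St.eventually {α : ℝ} {t : Ty} (h : St α t) : ∀ᶠ β in 𝓝 α, St β t := by
  filter_upwards [h.stable.eventually] with β hβ
  exact (st_iff h.pos).2 hβ

lemma cr_affine (p q : Ty) (α β c : ℝ) :
    cr ((1 - c) * α + c * β) p q = (1 - c) * cr α p q + c * cr β p q := by
  simp only [cr, lam]; ring

lemma Stable.between {α β γ : ℝ} (h1 : Stable α M) (h2 : Semistable β M)
    (h : (α ≤ γ ∧ γ < β) ∨ (β < γ ∧ γ ≤ α)) : Stable γ M := by
  refine ⟨h1.1, fun A i hi h0 hne => ?_⟩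
  have e1 := h1.2 A i hi h0 hne
  have e2 := h2 A i hi
  have hβα : β - α ≠ 0 := by rcases h with h | h <;> intro h' <;> linarith [h.1, h.2]
  obtain ⟨c, hc⟩ : ∃ c, c = (γ - α) / (β - α) := ⟨_, rfl⟩
  have hcm : c * (β - α) = γ - α := by rw [hc]; exact div_mul_cancel₀ _ hβα
  have hc0 : 0 ≤ c := by
    rw [hc]
    rcases h with h | h
    · exact div_nonneg (by linarith) (by linarith)
    · exact div_nonneg_of_nonpos (by linarith) (by linarith)
  have hc1 : c < 1 := by
    rw [hc]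
    rcases h with h | h
    · rw [div_lt_one (by linarith)]; linarith
    · rw [div_lt_one_of_neg (by linarith)]; linarith
  have : γ = (1 - c) * α + c * β := by linarith
  rw [this, cr_affine]
  have := mul_neg_of_pos_of_neg (show 0 < 1 - c by linarith) e1
  have := mul_nonpos_of_nonneg_of_nonpos hc0 e2
  linarith

lemma St.between {α β γ : ℝ} {t : Ty} (h1 : St α t) (h2 : St β t) (h : α ≤ γ) (h' : γ ≤ β) :
    St γ t := by
  rcases lt_or_eq_of_le h' with h3 | h3
  · exact (st_iff h1.pos).2 (h1.stable.between h2.stable.semistable (Or.inl ⟨h, h3⟩))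
  · rw [h3]; exact h2

/-- Stable types and the Euler form. -/
lemma St.cr_neg {α : ℝ} (hα : 0 < α) {s t : Ty} (h1 : St α s) (h2 : St α t) (hne : s ≠ t)
    (hchi : 0 < chi s t) : cr α s t < 0 := by
  obtain ⟨M, rfl, hM⟩ := h1
  obtain ⟨N, rfl, hN⟩ := h2
  obtain ⟨g, hg⟩ := exists_hom_of_chi_pos hchi
  by_contra hc
  push Not at hc
  rw [cr_nonneg_iff hα M.pos hM.1 N.pos hN.1] at hc
  obtain ⟨e1, e2⟩ := iso_of_stable hα hM hN hg hc
  exact hne (by rw [← Hom.ty_im_of_inj e1, Hom.ty_im_of_surj e2])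

/-- Stable representations of real type are rigid. -/
lemma ext_self_zero {α : ℝ} (hα : 0 < α) (hM : Stable α M) (hc : chi M.ty M.ty = 1) :
    ExtZero M M := by
  have h1 : LinearMap.ker (Phi M M) ≤ Submodule.span ℂ {(Hom.id M).pre} := by
    intro p hp
    obtain ⟨μ, h2, h3, h4⟩ := end_scalar hα hM (Hom.ofPre p hp)
    rw [Submodule.mem_span_singleton]
    refine ⟨μ, ?_⟩
    have e1 : p.1 = μ • LinearMap.id := sub_eq_zero.1 h2
    have e2 : p.2.1 = μ • LinearMap.id := sub_eq_zero.1 h3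
    have e3 : p.2.2 = μ • LinearMap.id := sub_eq_zero.1 h4
    exact (Prod.ext e1 (Prod.ext e2 e3)).symm
  have h2 := Submodule.finrank_mono h1
  have h3 : finrank ℂ (Submodule.span ℂ {(Hom.id M).pre}) ≤ 1 := by
    have := finrank_span_le_card (R := ℂ) ({(Hom.id M).pre} : Set (PreHom M M))
    simpa using this
  have h4 := chi_eq' M M
  have h5 : finrank ℂ (LinearMap.range (Phi M M)) ≤ finrank ℂ (PreExt M M) := Submodule.finrank_le _
  have h6 : finrank ℂ (LinearMap.range (Phi M M)) = finrank ℂ (PreExt M M) := by omega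
  exact LinearMap.range_eq_top.1 (Submodule.eq_top_of_finrank_eq h6)

/-- Vanishing of `Ext` and a nonzero morphism. -/
lemma ExtZero.one_le {M N : QRep} (h : ExtZero M N) {g : Hom M N} (hg : ¬ g.IsZero) :
    1 ≤ chi M.ty N.ty := by
  have h1 := h.chi_nonneg
  by_contra hc
  have h2 : chi M.ty N.ty = 0 := by omega
  have h4 := chi_eq' M N
  have h5 : LinearMap.range (Phi M N) = ⊤ := LinearMap.range_eq_top.2 h
  rw [h5, finrank_top, h2] at h4
  have h6 : finrank ℂ (LinearMap.ker (Phi M N)) = 0 := by omega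
  have h7 := Submodule.finrank_eq_zero.1 h6
  exact hg (homZero_iff.2 h7 g)

lemma Hom.Inj.not_isZero {i : Hom A M} (hi : i.Inj) (hA : A.ty ≠ 0) : ¬ i.IsZero := by
  rintro ⟨h1, h2, h3⟩
  apply hA
  have e1 : finrank ℂ A.V = 0 := finrank_zero_iff_forall_zero.2 fun a => hi.1 (by
    rw [map_zero, h1]; rfl)
  have e2 : finrank ℂ A.W = 0 := finrank_zero_iff_forall_zero.2 fun a => hi.2.1 (by
    rw [map_zero, h2]; rfl)
  have e3 : finrank ℂ A.U = 0 := finrank_zero_iff_forall_zero.2 fun a => hi.2.2 (by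
    rw [map_zero, h3]; rfl)
  simp [QRep.ty, e1, e2, e3]

lemma Hom.Surj.not_isZero {q : Hom M B} (hq : q.Surj) (hB : B.ty ≠ 0) : ¬ q.IsZero := by
  intro hz
  apply hB
  have e1 : finrank ℂ B.V = 0 := finrank_zero_iff_forall_zero.2 fun a => by
    obtain ⟨b, rfl⟩ := hq.1 a; rw [hz.1]; rfl
  have e2 : finrank ℂ B.W = 0 := finrank_zero_iff_forall_zero.2 fun a => by
    obtain ⟨b, rfl⟩ := hq.2.1 a; rw [hz.2.1]; rfl
  have e3 : finrank ℂ B.U = 0 := finrank_zero_iff_forall_zero.2 fun a => by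
    obtain ⟨b, rfl⟩ := hq.2.2 a; rw [hz.2.2]; rfl
  simp [QRep.ty, e1, e2, e3]

/-- Data at a wall of a real type. -/
structure WallData (e : ℝ) (u a b : Ty) (c₁ c₂ : ℤ) : Prop extends WallNum u a b c₁ c₂ where
  sa : St e a
  sb : St e b
  cra : cr e a u = 0
  crb : cr e b u = 0
  ta : tot a < tot u
  tb : tot b < tot u

lemma indep_of_chi {e : ℝ} {a b u : Ty} (hna : 1 ≤ rk a) (hu : 1 ≤ rk u)
    (ha : cr e a u = 0) (hb : cr e b u = 0) (hbb : chi b b = 1) (hab : chi a b = 0) :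
    rk a * b.1 - rk b * a.1 ≠ 0 := by
  intro h0
  have hba : cr e b a = 0 := by
    have hX' : (0 : ℝ) < rk u := by exact_mod_cast hu
    simp only [cr] at *
    have : (rk u : ℝ) * (lam e b * rk a - lam e a * rk b) = 0 := by
      have e1 : lam e b * rk u = lam e u * rk b := by linarith
      have e2 : lam e a * rk u = lam e u * rk a := by linarith
      calc (rk u : ℝ) * (lam e b * rk a - lam e a * rk b) =
          (lam e b * rk u) * rk a - (lam e a * rk u) * rk b := by ring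
        _ = 0 := by rw [e1, e2]; ring
    rcases mul_eq_zero.1 this with h | h
    · exact absurd h hX'.ne'
    · exact h
  have hk : rk a * b.1 = rk b * a.1 := by linarith
  have hu' : rk a * b.2.2 = rk b * a.2.2 := by
    have : (rk a : ℝ) * b.2.2 = rk b * a.2.2 := by
      simp only [cr, lam] at hba
      have hk' : (rk a : ℝ) * b.1 = rk b * a.1 := by exact_mod_cast hk
      have : e * ((rk a : ℝ) * b.1) = e * (rk b * a.1) := by rw [hk']
      linarith
    exact_mod_cast this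
  obtain ⟨e1, -⟩ := chi_comb (a := a) (b := a) (X := b) (D := rk a) (p := rk b) (q := 0)
    (by linarith) (by ring) (by linarith) b
  rw [hbb, hab] at e1
  linarith

/-- The structure of the walls of real types. -/
lemma wall_structure {α e : ℝ} (hα : 0 < α) (he : 0 < e) {u : Ty} (hu : chi u u = 1)
    (ru : 1 ≤ rk u) (h1 : St α u) (h2 : Semistable e (genRep u)) (h3 : ¬ St e u) :
    ∃ a b c₁ c₂, WallData e u a b c₁ c₂ ∧ cr α a u < 0 ∧ 0 < cr α b u := by
  have hty := ty_genRep h1.pos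
  have hst := h1.stable
  have hns : ¬ Stable e (genRep u) := fun h => h3 ((st_iff h1.pos).2 h)
  have hself : ExtZero (genRep u) (genRep u) := ext_self_zero hα hst (by rw [hty]; exact hu)
  have hM0 : (genRep u).ty ≠ 0 := hst.1
  have rM : 1 ≤ rk (genRep u).ty := by rw [hty]; exact ru
  rcases wall_trichotomy hα he (gen_genPt u) hst rM h2 hns with
    ⟨A, i, hi, hA, hnA, hAM, cA⟩ | ⟨B, r, hr, hB, hnB, hBM, cB⟩ |
    ⟨A, i, B, r, hi, hr, hA, hB, hnA, hnB, hAM, hBM, cA, cB, cAB⟩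
  · exfalso
    have e1 := (hself.of_inj i hi).one_le (hi.not_isZero hA.1)
    have e2 := chi_nonpos_right he hA cA (tot (genRep u).ty + 1).toNat (genRep u) h2
      (Or.inr hnA.symm) (by
        have := (genRep u).pos.tot_pos hM0
        omega)
    omega
  · exfalso
    have e1 := (hself.of_surj r hr).one_le (hr.not_isZero hB.1)
    have e2 := chi_nonpos_left he hB cB (tot (genRep u).ty + 1).toNat (genRep u) h2
      (Or.inr hnB.symm) (by
        have := (genRep u).pos.tot_pos hM0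
        omega)
    omega
  · have e3 : (ofCoord (genPt u)).ty = u := hty
    rw [e3] at hnA hnB hAM hBM
    have rA : 1 ≤ rk A.ty := rk_pos_of_nu_le he A.pos hA.1 h1.pos ru hnA.le
    have rB : 1 ≤ rk B.ty := rk_pos_of_nu_le he B.pos hB.1 h1.pos ru hnB.le
    have crA : cr e A.ty u = 0 := (cr_eq_zero_iff he A.pos hA.1 h1.pos h1.ne_zero).2 hnA
    have crB : cr e B.ty u = 0 := (cr_eq_zero_iff he B.pos hB.1 h1.pos h1.ne_zero).2 hnB
    have hBA : chi B.ty A.ty ≤ 0 := by
      by_contra hc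
      push Not at hc
      have hne : B.ty ≠ A.ty := by
        intro h; rw [h] at cAB; omega
      have := St.cr_neg he ⟨B, rfl, hB⟩ ⟨A, rfl, hA⟩ hne hc
      rw [cr_neg_iff he B.pos hB.1 A.pos hA.1, hnA, hnB] at this
      exact lt_irrefl _ this
    have hAu : 1 ≤ chi A.ty u := by
      have := count_sub (gen_genPt u) i hi
      rw [e3, chi_sub_right, cA] at this
      linarith
    have huB : 1 ≤ chi u B.ty := by
      have := count_sub (gen_genPt u) r.kerι r.kerι_inj
      rw [Hom.ty_ker_of_surj hr, sub_sub_cancel, chi_sub_left, cB, e3] at this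
      linarith
    have hD := indep_of_chi rA ru crA crB cB cAB
    have hss := same_slope ru crA crB
    obtain ⟨D, hDd⟩ : ∃ D, D = rk A.ty * B.ty.1 - rk B.ty * A.ty.1 := ⟨_, rfl⟩
    obtain ⟨p, hp⟩ : ∃ p, p = rk u * B.ty.1 - rk B.ty * u.1 := ⟨_, rfl⟩
    obtain ⟨q, hq⟩ : ∃ q, q = rk A.ty * u.1 - rk u * A.ty.1 := ⟨_, rfl⟩
    rw [← hDd, ← hp, ← hq] at hss
    rw [← hDd] at hD
    have d1 : D * u.1 = p * A.ty.1 + q * B.ty.1 := by rw [hDd, hp, hq]; ring
    have d2 : D * rk u = p * rk A.ty + q * rk B.ty := by rw [hDd, hp, hq]; ring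
    obtain ⟨-, f1⟩ := chi_comb d1 d2 hss A.ty
    obtain ⟨f2, -⟩ := chi_comb d1 d2 hss B.ty
    rw [cA, cAB] at f1
    rw [cAB, cB] at f2
    have f1' : p = D * chi A.ty u := by linarith
    have f2' : q = D * chi u B.ty := by linarith
    have tA : tot A.ty < tot u := by
      have := hi.tyLE
      rw [e3] at this
      exact tot_lt_of_tyLE this hAM
    have tB : tot B.ty < tot u := by
      have := hr.tyLE
      rw [e3] at this
      exact tot_lt_of_tyLE this hBM
    refine ⟨A.ty, B.ty, chi A.ty u, chi u B.ty, ⟨⟨rA, rB, cA, cB, cAB, hBA, hAu, huB, hu, ?_, ?_, ?_⟩,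
      ⟨A, rfl, hA⟩, ⟨B, rfl, hB⟩, crA, crB, tA, tB⟩, ?_, ?_⟩
    · apply mul_left_cancel₀ hD
      rw [d1, f1', f2']; ring
    · apply mul_left_cancel₀ hD
      rw [d2, f1', f2']; ring
    · apply mul_left_cancel₀ hD
      rw [hss, f1', f2']; ring
    · have := hst.2 A i hi hA.1 (by rw [hty]; exact hAM)
      rwa [hty] at this
    · have hk : r.ker.ty = u - B.ty := by rw [Hom.ty_ker_of_surj hr, e3]
      have := hst.2 r.ker r.kerι r.kerι_inj (by
        rw [hk]; intro h; exact hBM (sub_eq_zero.1 h).symm) (by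
        rw [hk, hty]; intro h; exact hB.1 (sub_eq_self.1 h))
      rw [hk, hty, cr_sub_left, cr_self] at this
      linarith

/-- The first wall in a given direction. -/
lemma exists_first_wall {α α' : ℝ} {t : Ty} (h : St α t) (h' : ¬ St α' t) :
    ∃ e, ((α < e ∧ e ≤ α') ∨ (α' ≤ e ∧ e < α)) ∧ Semistable e (genRep t) ∧ ¬ St e t ∧
      ∀ γ, ((α ≤ γ ∧ γ < e) ∨ (e < γ ∧ γ ≤ α)) → St γ t := by
  obtain ⟨e, he, h1, -, h3⟩ := exists_wall (α' := α') h.stable h.stable (fun hc =>
    h' ((st_iff h.pos).2 hc.1))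
  have h4 : ¬ St e t := fun hc => h3 ⟨hc.stable, hc.stable⟩
  have hne : e ≠ α := by rintro rfl; exact h4 h
  refine ⟨e, ?_, h1, h4, fun γ hγ => (st_iff h.pos).2 (h.stable.between h1 hγ)⟩
  rcases le_total α α' with hle | hle
  · rw [Set.uIcc_of_le hle] at he
    exact Or.inl ⟨lt_of_le_of_ne he.1 (Ne.symm hne), he.2⟩
  · rw [Set.uIcc_of_ge hle] at he
    exact Or.inr ⟨he.1, lt_of_le_of_ne he.2 hne⟩

end CohP1
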