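import Pool.Agent.Lib_helper87.Coh.Sub

/-!
# Slope stability: subobjects of maximal phase, quotients of minimal phase
-/

namespace CohP1

open Module

/-! ### Phases -/

lemma rho_pos {α : ℝ} (hα : 0 < α) {p : Ty} (hp : Pos p) (h0 : p ≠ 0) : 0 < rho α p := by
  obtain ⟨a, b, c⟩ := p
  obtain ⟨ha, hb, hc⟩ := hp
  simp only [rho] at *
  have ha' : (0 : ℝ) ≤ (a : ℝ) := by exact_mod_cast ha
  have hb' : (0 : ℝ) ≤ (b : ℝ) := by exact_mod_cast hb
  have hc' : (0 : ℝ) ≤ (c : ℝ) := by exact_mod_cast hc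
  have h2 : 0 ≤ 2 * α * (a : ℝ) := by positivity
  rcases eq_or_lt_of_le ha with h | h
  · rcases eq_or_lt_of_le hb with h' | h'
    · rcases eq_or_lt_of_le hc with h'' | h''
      · exact absurd (by rw [← h, ← h', ← h'']; rfl) h0
      · have : (0 : ℝ) < (c : ℝ) := by exact_mod_cast h''
        linarith
    · have : (0 : ℝ) < (b : ℝ) := by exact_mod_cast h'
      linarith
  · have : (0 : ℝ) < (a : ℝ) := by exact_mod_cast h
    have : 0 < 2 * α * (a : ℝ) := by positivity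
    linarith

lemma cr_eq_rho (α : ℝ) (p q : Ty) : cr α p q = lam α p * rho α q - lam α q * rho α p := by
  simp only [cr, lam, rho, rk]
  push_cast
  ring

lemma cr_pos_iff {α : ℝ} (hα : 0 < α) {p q : Ty} (hp : Pos p) (hp0 : p ≠ 0) (hq : Pos q)
    (hq0 : q ≠ 0) : 0 < cr α p q ↔ nu α q < nu α p := by
  rw [cr_eq_rho, nu, nu, div_lt_div_iff₀ (rho_pos hα hq hq0) (rho_pos hα hp hp0), sub_pos]

lemma cr_neg_iff {α : ℝ} (hα : 0 < α) {p q : Ty} (hp : Pos p) (hp0 : p ≠ 0) (hq : Pos q)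
    (hq0 : q ≠ 0) : cr α p q < 0 ↔ nu α p < nu α q := by
  rw [cr_eq_rho, nu, nu, div_lt_div_iff₀ (rho_pos hα hp hp0) (rho_pos hα hq hq0), sub_neg]

lemma cr_nonneg_iff {α : ℝ} (hα : 0 < α) {p q : Ty} (hp : Pos p) (hp0 : p ≠ 0) (hq : Pos q)
    (hq0 : q ≠ 0) : 0 ≤ cr α p q ↔ nu α q ≤ nu α p := by
  rw [← not_lt, cr_neg_iff hα hp hp0 hq hq0, not_lt]

lemma cr_nonpos_iff {α : ℝ} (hα : 0 < α) {p q : Ty} (hp : Pos p) (hp0 : p ≠ 0) (hq : Pos q)
    (hq0 : q ≠ 0) : cr α p q ≤ 0 ↔ nu α p ≤ nu α q := by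
  rw [← not_lt, cr_pos_iff hα hp hp0 hq hq0, not_lt]

lemma cr_eq_zero_iff {α : ℝ} (hα : 0 < α) {p q : Ty} (hp : Pos p) (hp0 : p ≠ 0) (hq : Pos q)
    (hq0 : q ≠ 0) : cr α p q = 0 ↔ nu α p = nu α q := by
  rw [le_antisymm_iff, le_antisymm_iff, cr_nonpos_iff hα hp hp0 hq hq0,
    cr_nonneg_iff hα hp hp0 hq hq0]

lemma cr_add_left (α : ℝ) (p q r : Ty) : cr α (p + q) r = cr α p r + cr α q r := by
  simp [cr, lam, rk]; ring
lemma cr_sub_left (α : ℝ) (p q r : Ty) : cr α (p - q) r = cr α p r - cr α q r := by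
  simp [cr, lam, rk]; ring
lemma cr_add_right (α : ℝ) (p q r : Ty) : cr α p (q + r) = cr α p q + cr α p r := by
  simp [cr, lam, rk]; ring
lemma cr_sub_right (α : ℝ) (p q r : Ty) : cr α p (q - r) = cr α p q - cr α p r := by
  simp [cr, lam, rk]; ring
lemma cr_self (α : ℝ) (p : Ty) : cr α p p = 0 := by simp [cr]
lemma cr_swap (α : ℝ) (p q : Ty) : cr α p q = - cr α q p := by simp [cr]
lemma cr_zero_left (α : ℝ) (p : Ty) : cr α 0 p = 0 := by simp [cr, lam, rk]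
lemma cr_zero_right (α : ℝ) (p : Ty) : cr α p 0 = 0 := by simp [cr, lam, rk]

/-! ### Extremal elements of finite sets -/

lemma exists_lexmax {T : Set Ty} (hT : T.Finite) (hne : T.Nonempty) (f g : Ty → ℝ) :
    ∃ t ∈ T, ∀ s ∈ T, f s ≤ f t ∧ (f s = f t → g s ≤ g t) := by
  obtain ⟨t0, ht0, hmax⟩ := hT.exists_maximalFor f T hne
  have hmax' : ∀ s ∈ T, f s ≤ f t0 := fun s hs => by
    rcases le_total (f s) (f t0) with h | h
    · exact h
    · exact hmax hs h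
  have hT2 : ({s ∈ T | f s = f t0} : Set Ty).Finite := hT.subset (Set.sep_subset _ _)
  obtain ⟨t1, ht1, hmax1⟩ := hT2.exists_maximalFor g _ ⟨t0, ht0, rfl⟩
  refine ⟨t1, ht1.1, fun s hs => ⟨by rw [ht1.2]; exact hmax' s hs, fun hst => ?_⟩⟩
  have hs' : s ∈ ({s ∈ T | f s = f t0} : Set Ty) := ⟨hs, by rw [hst, ht1.2]⟩
  rcases le_total (g s) (g t1) with h | h
  · exact h
  · exact hmax1 hs' h

lemma finite_types (q : Ty) : ({t : Ty | Pos t ∧ TyLE t q} : Set Ty).Finite := by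
  refine (Set.finite_Icc (0 : Ty) q).subset ?_
  rintro ⟨a, b, c⟩ ⟨⟨h1, h2, h3⟩, h4, h5, h6⟩
  exact ⟨⟨h1, h2, h3⟩, ⟨h4, h5, h6⟩⟩

variable {A B C M N : QRep}

/-- A nonzero subobject of maximal phase, with `g` maximal among those. -/
lemma exists_max_sub (α : ℝ) (hM : M.ty ≠ 0) (g : Ty → ℝ) :
    ∃ (A : QRep) (i : Hom A M), i.Inj ∧ A.ty ≠ 0 ∧ ∀ (B : QRep) (j : Hom B M), j.Inj → B.ty ≠ 0 →
      nu α B.ty ≤ nu α A.ty ∧ (nu α B.ty = nu α A.ty → g B.ty ≤ g A.ty) := by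
  set T : Set Ty := {t | ∃ (A : QRep) (i : Hom A M), i.Inj ∧ A.ty ≠ 0 ∧ A.ty = t} with hT
  have hfin : T.Finite := (finite_types M.ty).subset (by
    rintro t ⟨A, i, hi, -, rfl⟩
    exact ⟨A.pos, hi.tyLE⟩)
  obtain ⟨t, ⟨A, i, hi, hA, rfl⟩, h⟩ := exists_lexmax hfin
    ⟨M.ty, M, Hom.id M, Hom.id_inj M, hM, rfl⟩ (nu α) g
  exact ⟨A, i, hi, hA, fun B j hj hB => h B.ty ⟨B, j, hj, hB, rfl⟩⟩

/-- A nonzero quotient of minimal phase, with `g` maximal among those. -/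
lemma exists_min_quot (α : ℝ) (hM : M.ty ≠ 0) (g : Ty → ℝ) :
    ∃ (A : QRep) (p : Hom M A), p.Surj ∧ A.ty ≠ 0 ∧ ∀ (B : QRep) (q : Hom M B), q.Surj → B.ty ≠ 0 →
      nu α A.ty ≤ nu α B.ty ∧ (nu α B.ty = nu α A.ty → g B.ty ≤ g A.ty) := by
  set T : Set Ty := {t | ∃ (A : QRep) (i : Hom M A), i.Surj ∧ A.ty ≠ 0 ∧ A.ty = t} with hT
  have hfin : T.Finite := (finite_types M.ty).subset (by
    rintro t ⟨A, i, hi, -, rfl⟩
    exact ⟨A.pos, hi.tyLE⟩)
  obtain ⟨t, ⟨A, i, hi, hA, rfl⟩, h⟩ := exists_lexmax hfin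
    ⟨M.ty, M, Hom.id M, Hom.id_surj M, hM, rfl⟩ (fun t => - nu α t) g
  refine ⟨A, i, hi, hA, fun B j hj hB => ?_⟩
  obtain ⟨h1, h2⟩ := h B.ty ⟨B, j, hj, hB, rfl⟩
  exact ⟨by linarith, fun e => h2 (by rw [e])⟩

/-- Stable subobject of maximal phase. -/
lemma exists_stable_sub {α : ℝ} (hα : 0 < α) (hM : M.ty ≠ 0) :
    ∃ (A : QRep) (i : Hom A M), i.Inj ∧ Stable α A ∧ ∀ (B : QRep) (j : Hom B M), j.Inj → B.ty ≠ 0 →
      nu α B.ty ≤ nu α A.ty ∧ (nu α B.ty = nu α A.ty → tot A.ty ≤ tot B.ty) := by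
  obtain ⟨A, i, hi, hA, h⟩ := exists_max_sub α hM (fun t => - (tot t : ℝ))
  have h' : ∀ (B : QRep) (j : Hom B M), j.Inj → B.ty ≠ 0 →
      nu α B.ty ≤ nu α A.ty ∧ (nu α B.ty = nu α A.ty → tot A.ty ≤ tot B.ty) := by
    intro B j hj hB
    obtain ⟨h1, h2⟩ := h B j hj hB
    refine ⟨h1, fun e => ?_⟩
    have := h2 e
    have : (tot A.ty : ℝ) ≤ (tot B.ty : ℝ) := by linarith
    exact_mod_cast this
  refine ⟨A, i, hi, ⟨hA, fun B j hj hB hBA => ?_⟩, h'⟩
  obtain ⟨h1, h2⟩ := h' B (i.comp j) (hi.comp hj) hB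
  rw [cr_neg_iff hα B.pos hB A.pos hA]
  rcases lt_or_eq_of_le h1 with h3 | h3
  · exact h3
  · exfalso
    have h4 := h2 h3
    have h5 := hj.tyLE
    apply hBA
    obtain ⟨a, b, c⟩ := h5
    simp only [tot] at h4
    refine Prod.ext ?_ (Prod.ext ?_ ?_) <;> omega

/-- Stable quotient of minimal phase. -/
lemma exists_stable_quot {α : ℝ} (hα : 0 < α) (hM : M.ty ≠ 0) :
    ∃ (A : QRep) (p : Hom M A), p.Surj ∧ Stable α A ∧ ∀ (B : QRep) (q : Hom M B), q.Surj →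
      B.ty ≠ 0 → nu α A.ty ≤ nu α B.ty ∧ (nu α B.ty = nu α A.ty → tot A.ty ≤ tot B.ty) := by
  obtain ⟨A, i, hi, hA, h⟩ := exists_min_quot α hM (fun t => - (tot t : ℝ))
  have h' : ∀ (B : QRep) (j : Hom M B), j.Surj → B.ty ≠ 0 →
      nu α A.ty ≤ nu α B.ty ∧ (nu α B.ty = nu α A.ty → tot A.ty ≤ tot B.ty) := by
    intro B j hj hB
    obtain ⟨h1, h2⟩ := h B j hj hB
    refine ⟨h1, fun e => ?_⟩
    have := h2 e
    have : (tot A.ty : ℝ) ≤ (tot B.ty : ℝ) := by linarith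
    exact_mod_cast this
  refine ⟨A, i, hi, ⟨hA, fun B j hj hB hBA => ?_⟩, h'⟩
  -- quotient `A / B`
  have hQty : j.coker.ty = A.ty - B.ty := Hom.ty_coker_of_inj hj
  have hQ0 : j.coker.ty ≠ 0 := by
    rw [hQty]
    intro h0
    exact hBA (sub_eq_zero.1 h0).symm
  obtain ⟨h1, h2⟩ := h' j.coker (j.cokerπ.comp i) (j.cokerπ_surj.comp hi) hQ0
  have h3 : nu α j.coker.ty ≠ nu α A.ty := by
    intro h3
    have h4 := h2 h3
    rw [hQty, tot_sub] at h4
    have h5 := B.pos.tot_pos hB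
    omega
  have h4 : nu α A.ty < nu α j.coker.ty := lt_of_le_of_ne h1 (Ne.symm h3)
  rw [← cr_pos_iff hα j.coker.pos hQ0 A.pos hA, hQty, cr_sub_left, cr_self] at h4
  linarith

/-! ### Morphisms and phases -/

lemma Semistable.nu_le {α : ℝ} (hα : 0 < α) (hM : Semistable α M) (i : Hom A M) (hi : i.Inj)
    (hA : A.ty ≠ 0) (hM0 : M.ty ≠ 0) : nu α A.ty ≤ nu α M.ty :=
  (cr_nonpos_iff hα A.pos hA M.pos hM0).1 (hM A i hi)

lemma Semistable.nu_ge {α : ℝ} (hα : 0 < α) (hM : Semistable α M) (p : Hom M B) (hp : p.Surj)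
    (hB : B.ty ≠ 0) (hM0 : M.ty ≠ 0) : nu α M.ty ≤ nu α B.ty := by
  rw [← cr_nonneg_iff hα B.pos hB M.pos hM0]
  have h1 := hM p.ker p.kerι p.kerι_inj
  rw [Hom.ty_ker_of_surj hp, cr_sub_left, cr_self] at h1
  linarith

lemma Stable.semistable {α : ℝ} (hM : Stable α M) : Semistable α M := by
  intro A i hi
  by_cases hA : A.ty = 0
  · rw [hA, cr_zero_left]
  · by_cases hA' : A.ty = M.ty
    · rw [hA', cr_self]
    · exact (hM.2 A i hi hA hA').le

lemma nonzero_of_not_isZero {h : Hom M N} (hz : ¬ h.IsZero) : M.ty ≠ 0 ∧ N.ty ≠ 0 := by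
  have h1 := Hom.im_ty_ne_zero hz
  constructor
  · intro h0
    have h2 := h.ty_ker_im
    have h3 := h.ker.pos
    have h4 := h.im.pos
    apply h1
    rw [h0] at h2
    obtain ⟨a, b, c⟩ := h3
    obtain ⟨a', b', c'⟩ := h4
    have e1 := congrArg Prod.fst h2
    have e2 := congrArg (fun p => p.2.1) h2
    have e3 := congrArg (fun p => p.2.2) h2
    simp only [Prod.fst_add, Prod.snd_add, Prod.fst_zero, Prod.snd_zero] at e1 e2 e3
    refine Prod.ext ?_ (Prod.ext ?_ ?_) <;> simp only [Prod.fst_zero, Prod.snd_zero] <;> omega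
  · intro h0
    apply h1
    have h3 := h.imι_inj.tyLE
    rw [h0] at h3
    have h4 := h.im.pos
    obtain ⟨a, b, c⟩ := h3
    obtain ⟨a', b', c'⟩ := h4
    simp only [Prod.fst_zero, Prod.snd_zero] at a b c
    refine Prod.ext ?_ (Prod.ext ?_ ?_) <;> simp only [Prod.fst_zero, Prod.snd_zero] <;> omega

/-- A nonzero morphism between semistable objects does not decrease the phase. -/
lemma nu_le_of_hom {α : ℝ} (hα : 0 < α) (hM : Semistable α M) (hN : Semistable α N) {h : Hom M N}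
    (hz : ¬ h.IsZero) : nu α M.ty ≤ nu α N.ty := by
  obtain ⟨h1, h2⟩ := nonzero_of_not_isZero hz
  have h3 := Hom.im_ty_ne_zero hz
  exact (hM.nu_ge hα h.toIm h.toIm_surj h3 h1).trans (hN.nu_le hα h.imι h.imι_inj h3 h2)

lemma homZero_of_nu_lt {α : ℝ} (hα : 0 < α) (hM : Semistable α M) (hN : Semistable α N)
    (h : nu α N.ty < nu α M.ty) : HomZero M N := by
  intro g
  by_contra hg
  exact absurd (nu_le_of_hom hα hM hN hg) (not_le.2 h)

/-- A nonzero morphism between stable objects of the same phase is an isomorphism. -/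
lemma iso_of_stable {α : ℝ} (hα : 0 < α) (hM : Stable α M) (hN : Stable α N) {h : Hom M N}
    (hz : ¬ h.IsZero) (hnu : nu α N.ty ≤ nu α M.ty) : h.Inj ∧ h.Surj := by
  have h3 := Hom.im_ty_ne_zero hz
  have h4 := hM.semistable.nu_ge hα h.toIm h.toIm_surj h3 hM.1
  have h5 := hN.semistable.nu_le hα h.imι h.imι_inj h3 hN.1
  have h6 : nu α h.im.ty = nu α N.ty := le_antisymm h5 (hnu.trans h4)
  have h7 : nu α h.im.ty = nu α M.ty := le_antisymm (h5.trans hnu) h4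
  have h8 : h.im.ty = N.ty := by
    by_contra hne
    have := hN.2 h.im h.imι h.imι_inj h3 hne
    rw [cr_neg_iff hα h.im.pos h3 N.pos hN.1, h6] at this
    exact lt_irrefl _ this
  have h9 : h.ker.ty = 0 := by
    by_contra hne
    by_cases hne' : h.ker.ty = M.ty
    · have := h.ty_ker_im
      rw [hne'] at this
      exact h3 (left_eq_add.1 this)
    have := hM.2 h.ker h.kerι h.kerι_inj hne hne'
    have h10 : h.ker.ty = M.ty - h.im.ty := by rw [h.ty_ker_im]; simp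
    rw [h10, cr_sub_left, cr_self] at this
    have h11 := (cr_eq_zero_iff hα h.im.pos h3 M.pos hM.1).2 h7
    rw [h11] at this
    linarith
  have hinj : h.Inj := Hom.inj_of_ker_ty h9
  refine ⟨hinj, hinj.surj_of_ty ?_⟩
  rw [← h8, h.ty_ker_im, h9, zero_add]

/-- A nonzero endomorphism of a stable object is an isomorphism. -/
lemma iso_of_end {α : ℝ} (hα : 0 < α) (hM : Stable α M) {h : Hom M M}
    (hz : ¬ h.IsZero) : h.Inj ∧ h.Surj := iso_of_stable hα hM hM hz le_rfl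

/-- Subobjects of the same phase of a semistable object are semistable. -/
lemma Semistable.of_sub {α : ℝ} (hα : 0 < α) (hM : Semistable α M) (i : Hom A M) (hi : i.Inj)
    (hA : A.ty ≠ 0) (hnu : nu α A.ty = nu α M.ty) : Semistable α A := by
  intro B j hj
  by_cases hB : B.ty = 0
  · rw [hB, cr_zero_left]
  have hM0 : M.ty ≠ 0 := by
    intro h0
    have := hi.tyLE
    have hp := A.pos
    rw [h0] at this
    obtain ⟨a, b, c⟩ := this
    obtain ⟨a', b', c'⟩ := hp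
    simp only [Prod.fst_zero, Prod.snd_zero] at a b c
    exact hA (Prod.ext (le_antisymm a a') (Prod.ext (le_antisymm b b') (le_antisymm c c')))
  rw [cr_nonpos_iff hα B.pos hB A.pos hA, hnu]
  exact hM.nu_le hα (i.comp j) (hi.comp hj) hB hM0

/-- Quotients of the same phase of a semistable object are semistable. -/
lemma Semistable.of_quot {α : ℝ} (hα : 0 < α) (hM : Semistable α M) (p : Hom M B) (hp : p.Surj)
    (hB : B.ty ≠ 0) (hM0 : M.ty ≠ 0) (hnu : nu α B.ty = nu α M.ty) : Semistable α B := by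
  intro C j hj
  by_cases hC : C.ty = 0
  · rw [hC, cr_zero_left]
  rw [cr_nonpos_iff hα C.pos hC B.pos hB, hnu, ← cr_nonpos_iff hα C.pos hC M.pos hM0]
  have h1 := hM _ (p.preimι j) (p.preimι_inj j)
  rw [Hom.ty_preim hp hj, Hom.ty_ker_of_surj hp, cr_add_left, cr_sub_left, cr_self,
    (cr_eq_zero_iff hα B.pos hB M.pos hM0).2 hnu] at h1
  linarith

end CohP1
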