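import Pool.Agent.Lib_helper87.Coh.Defs

/-!
# Preimages, factorization through cokernels
-/

namespace CohP1

open Module

namespace Hom

variable {A B C L M N : QRep}

lemma IsZero.comp_right {g : Hom M N} (hg : g.IsZero) (h : Hom L M) : (g.comp h).IsZero := by
  obtain ⟨a, b, c⟩ := hg
  exact ⟨by simp [comp, a], by simp [comp, b], by simp [comp, c]⟩

/-- Preimage of a subrepresentation. -/
def preim (p : Hom M B) (j : Hom C B) : QRep where
  V := (LinearMap.range j.v).comap p.v
  W := (LinearMap.range j.w).comap p.w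
  U := (LinearMap.range j.u).comap p.u
  f := M.f.restrict (fun a ha => by
    obtain ⟨b, hb⟩ := ha
    exact ⟨C.f b, by rw [j.hf', hb, p.hf']⟩)
  x := M.x.restrict (fun a ha => by
    obtain ⟨b, hb⟩ := ha
    exact ⟨C.x b, by rw [j.hx', hb, p.hx']⟩)
  y := M.y.restrict (fun a ha => by
    obtain ⟨b, hb⟩ := ha
    exact ⟨C.y b, by rw [j.hy', hb, p.hy']⟩)

def preimι (p : Hom M B) (j : Hom C B) : Hom (preim p j) M where
  v := Submodule.subtype _
  w := Submodule.subtype _
  u := Submodule.subtype _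
  hf := rfl
  hx := rfl
  hy := rfl

lemma preimι_inj (p : Hom M B) (j : Hom C B) : (preimι p j).Inj :=
  ⟨Subtype.val_injective, Subtype.val_injective, Subtype.val_injective⟩

lemma finrank_comap_eq {V W : Type} [AddCommGroup V] [Module ℂ V] [FiniteDimensional ℂ V]
    [AddCommGroup W] [Module ℂ W] [FiniteDimensional ℂ W] (p : V →ₗ[ℂ] W)
    (hp : Function.Surjective p) (X : Submodule ℂ W) :
    finrank ℂ (X.comap p) = finrank ℂ (LinearMap.ker p) + finrank ℂ X := by
  have h1 := (p.restrict (p := X.comap p) (q := X) (fun a ha => ha)).finrank_range_add_finrank_ker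
  have h2 : LinearMap.range (p.restrict (p := X.comap p) (q := X) (fun a ha => ha)) = ⊤ := by
    rw [LinearMap.range_eq_top]
    rintro ⟨w, hw⟩
    obtain ⟨v, rfl⟩ := hp w
    exact ⟨⟨v, hw⟩, rfl⟩
  have h3 : finrank ℂ (LinearMap.ker (p.restrict (p := X.comap p) (q := X) (fun a ha => ha))) =
      finrank ℂ (LinearMap.ker p) := by
    let e : LinearMap.ker (p.restrict (p := X.comap p) (q := X) (fun a ha => ha)) →ₗ[ℂ]
        LinearMap.ker p :=
      { toFun := fun a => ⟨a.1.1, by
          have := a.2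
          rw [LinearMap.mem_ker] at this ⊢
          exact congrArg Subtype.val this⟩
        map_add' := fun _ _ => rfl
        map_smul' := fun _ _ => rfl }
    refine LinearEquiv.finrank_eq (LinearEquiv.ofBijective e ⟨?_, ?_⟩)
    · intro a b hab
      have h : a.1.1 = b.1.1 := congrArg (fun z : LinearMap.ker p => z.1) hab
      exact Subtype.ext (Subtype.ext h)
    · rintro ⟨v, hv⟩
      rw [LinearMap.mem_ker] at hv
      exact ⟨⟨⟨v, by rw [Submodule.mem_comap, hv]; exact X.zero_mem⟩, by
        rw [LinearMap.mem_ker]; exact Subtype.ext hv⟩, rfl⟩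
  rw [h2, finrank_top, h3] at h1
  omega

lemma ty_preim {p : Hom M B} (hp : p.Surj) {j : Hom C B} (hj : j.Inj) :
    (preim p j).ty = p.ker.ty + C.ty := by
  have h1 := finrank_comap_eq p.v hp.1 (LinearMap.range j.v)
  have h2 := finrank_comap_eq p.w hp.2.1 (LinearMap.range j.w)
  have h3 := finrank_comap_eq p.u hp.2.2 (LinearMap.range j.u)
  rw [LinearMap.finrank_range_of_inj hj.1] at h1
  rw [LinearMap.finrank_range_of_inj hj.2.1] at h2
  rw [LinearMap.finrank_range_of_inj hj.2.2] at h3
  show ((finrank ℂ ((LinearMap.range j.v).comap p.v) : ℤ),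
    (finrank ℂ ((LinearMap.range j.w).comap p.w) : ℤ),
    (finrank ℂ ((LinearMap.range j.u).comap p.u) : ℤ)) = _
  rw [ty_ker_eq, QRep.ty, h1, h2, h3]
  simp

/-- Factorization through the cokernel. -/
def desc (i : Hom A M) (p : Hom M B) (h : (p.comp i).IsZero) : Hom i.coker B where
  v := (LinearMap.range i.v).liftQ p.v (by
    rintro _ ⟨a, rfl⟩; exact LinearMap.congr_fun h.1 a)
  w := (LinearMap.range i.w).liftQ p.w (by
    rintro _ ⟨a, rfl⟩; exact LinearMap.congr_fun h.2.1 a)
  u := (LinearMap.range i.u).liftQ p.u (by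
    rintro _ ⟨a, rfl⟩; exact LinearMap.congr_fun h.2.2 a)
  hf := by
    refine Submodule.linearMap_qext _ ?_
    exact p.hf
  hx := by
    refine Submodule.linearMap_qext _ ?_
    exact p.hx
  hy := by
    refine Submodule.linearMap_qext _ ?_
    exact p.hy

lemma desc_surj {i : Hom A M} {p : Hom M B} (h : (p.comp i).IsZero) (hp : p.Surj) :
    (desc i p h).Surj := by
  refine ⟨?_, ?_, ?_⟩
  · intro b
    obtain ⟨a, rfl⟩ := hp.1 b
    exact ⟨Submodule.Quotient.mk a, rfl⟩
  · intro b
    obtain ⟨a, rfl⟩ := hp.2.1 b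
    exact ⟨Submodule.Quotient.mk a, rfl⟩
  · intro b
    obtain ⟨a, rfl⟩ := hp.2.2 b
    exact ⟨Submodule.Quotient.mk a, rfl⟩

end Hom

end CohP1
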