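import Mathlib

/-!
# Coherent systems on the projective line

By Grothendieck's theorem every vector bundle on `ℙ¹` is a direct sum `𝒪(a_1) ⊕ ⋯ ⊕ 𝒪(a_n)`; the
global sections of `𝒪(a)` are the binary forms of degree `a`, morphisms `𝒪(b) → 𝒪(a)` are the
binary forms of degree `a - b`.  A coherent subsheaf of a vector bundle on `ℙ¹` is again a vector
bundle, i.e. it is given by an injective morphism `𝒪(b_1) ⊕ ⋯ ⊕ 𝒪(b_r) → 𝒪(a_1) ⊕ ⋯ ⊕ 𝒪(a_n)`.
-/

namespace CohP1

open Module

/-- The homogeneous coordinate ring `ℂ[x, y]` of the projective line. -/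
abbrev S : Type := MvPolynomial (Fin 2) ℂ

/-- Binary forms of degree `a` (only `0` if `a < 0`): the global sections of `𝒪(a)`. -/
noncomputable def Forms (a : ℤ) : Submodule ℂ S where
  carrier := {p | ∀ m ∈ p.support, ((m 0 + m 1 : ℕ) : ℤ) = a}
  zero_mem' := by simp
  add_mem' := by
    intro p q hp hq m hm
    rcases Finset.mem_union.1 (MvPolynomial.support_add hm) with h | h
    · exact hp m h
    · exact hq m h
  smul_mem' := by
    intro c p hp m hm
    exact hp m (MvPolynomial.support_smul hm)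

/-- The space of global sections of `𝒪(a_1) ⊕ ⋯ ⊕ 𝒪(a_n)`. -/
noncomputable def H0 {n : ℕ} (a : Fin n → ℤ) : Submodule ℂ (Fin n → S) :=
  Submodule.pi Set.univ fun i => Forms (a i)

/-- A coherent system `(E, V)` on `ℙ¹` of rank `n`: the bundle `E = 𝒪(a_1) ⊕ ⋯ ⊕ 𝒪(a_n)` and a
subspace `V` of its space of global sections. -/
structure CoherentSystem (n : ℕ) where
  a : Fin n → ℤ
  V : Submodule ℂ (Fin n → S)
  le : V ≤ H0 a

/-- The degree of `E`. -/
def CoherentSystem.degree {n : ℕ} (E : CoherentSystem n) : ℤ := ∑ i, E.a i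

/-- The dimension of `V`. -/
noncomputable def CoherentSystem.dimV {n : ℕ} (E : CoherentSystem n) : ℕ := finrank ℂ E.V

/-- The matrix `φ` of forms defines an injective morphism of coherent systems
`(E', V') → (E, V)`, i.e. makes `(E', V')` a coherent subsystem of `(E, V)`. -/
def IsSubsystem {n r : ℕ} (E : CoherentSystem n) (E' : CoherentSystem r)
    (φ : Matrix (Fin n) (Fin r) S) : Prop :=
  (∀ i j, φ i j ∈ Forms (E.a i - E'.a j)) ∧ Function.Injective φ.mulVec ∧
    ∀ s ∈ E'.V, φ.mulVec s ∈ E.V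

/-- The `α`-slope of a system of type `(n, d, k)`. -/
noncomputable def slope (α : ℝ) (n : ℕ) (d : ℤ) (k : ℕ) : ℝ := d / n + α * (k / n)

/-- `(E, V)` is `α`-stable: `μ_α(E', V') < μ_α(E, V)` for all coherent subsystems
`(E', V') ≠ (E, V)`, `E' ≠ 0`.  (A subsystem equals `(E, V)` if and only if it has the same type.) -/
def CoherentSystem.Stable {n : ℕ} (α : ℝ) (E : CoherentSystem n) : Prop :=
  ∀ (r : ℕ) (E' : CoherentSystem r) (φ : Matrix (Fin n) (Fin r) S), 0 < r → IsSubsystem E E' φ →
    (r, E'.degree, E'.dimV) ≠ (n, E.degree, E.dimV) →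
    slope α r E'.degree E'.dimV < slope α n E.degree E.dimV

end CohP1
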