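import Pool.Agent.Lib_helper87.Coh.Stab
import Pool.Agent.Lib_helper87.Coh.Count
import Pool.Agent.Lib_helper87.Coh.Num

/-!
# Generic representations are torsion free; some explicit stable representations
-/

namespace CohP1

open Module Cardinal

/-- Existence of algebraically independent families. -/
lemma exists_algInd (ι : Type) [Finite ι] : ∃ p : ι → ℂ, AlgebraicIndependent ℚ p := by
  obtain ⟨s, hs⟩ := exists_isTranscendenceBasis ℚ ℂ
  have h1 : #ℂ = #s := IsAlgClosed.cardinal_eq_cardinal_transcendence_basis_of_aleph0_lt' _ hs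
    (le_of_eq Cardinal.mkRat) (by rw [Cardinal.mk_complex]; exact aleph0_lt_continuum)
  rw [Cardinal.mk_complex] at h1
  have h2 : #ι ≤ #s := by
    rw [← h1]
    exact (Cardinal.mk_le_aleph0).trans aleph0_le_continuum
  obtain ⟨f⟩ := h2
  exact ⟨fun i => (f i : ℂ), hs.1.comp f f.injective⟩

/-- Subrepresentation spanned by given subspaces. -/
def QRep.sub (M : QRep) (X : Submodule ℂ M.V) (Y : Submodule ℂ M.W) (Z : Submodule ℂ M.U)
    (hf : ∀ a ∈ X, M.f a ∈ Y) (hx : ∀ a ∈ Z, M.x a ∈ Y) (hy : ∀ a ∈ Z, M.y a ∈ Y) : QRep where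
  V := X
  W := Y
  U := Z
  f := M.f.restrict hf
  x := M.x.restrict hx
  y := M.y.restrict hy

def QRep.subι (M : QRep) (X : Submodule ℂ M.V) (Y : Submodule ℂ M.W) (Z : Submodule ℂ M.U)
    (hf : ∀ a ∈ X, M.f a ∈ Y) (hx : ∀ a ∈ Z, M.x a ∈ Y) (hy : ∀ a ∈ Z, M.y a ∈ Y) :
    Hom (M.sub X Y Z hf hx hy) M where
  v := X.subtype
  w := Y.subtype
  u := Z.subtype
  hf := rfl
  hx := rfl
  hy := rfl

lemma QRep.subι_inj (M : QRep) (X : Submodule ℂ M.V) (Y : Submodule ℂ M.W) (Z : Submodule ℂ M.U)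
    (hf : ∀ a ∈ X, M.f a ∈ Y) (hx : ∀ a ∈ Z, M.x a ∈ Y) (hy : ∀ a ∈ Z, M.y a ∈ Y) :
    (M.subι X Y Z hf hx hy).Inj :=
  ⟨Subtype.val_injective, Subtype.val_injective, Subtype.val_injective⟩

lemma QRep.ty_sub (M : QRep) (X : Submodule ℂ M.V) (Y : Submodule ℂ M.W) (Z : Submodule ℂ M.U)
    (hf : ∀ a ∈ X, M.f a ∈ Y) (hx : ∀ a ∈ Z, M.x a ∈ Y) (hy : ∀ a ∈ Z, M.y a ∈ Y) :
    (M.sub X Y Z hf hx hy).ty = ((finrank ℂ X : ℤ), (finrank ℂ Y : ℤ), (finrank ℂ Z : ℤ)) := rfl

/-- Eigenvectors of pencils. -/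
lemma exists_pencil {U W : Type} [AddCommGroup U] [Module ℂ U] [FiniteDimensional ℂ U]
    [AddCommGroup W] [Module ℂ W] [FiniteDimensional ℂ W] (x y : U →ₗ[ℂ] W)
    (h : finrank ℂ W ≤ finrank ℂ U) (h0 : 0 < finrank ℂ U) :
    ∃ u : U, u ≠ 0 ∧ ∃ v : W, x u ∈ Submodule.span ℂ {v} ∧ y u ∈ Submodule.span ℂ {v} := by
  by_cases hy : Function.Injective y
  · have h1 : finrank ℂ U ≤ finrank ℂ W := LinearMap.finrank_le_finrank_of_injective hy
    have h2 : Function.Surjective y :=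
      (LinearMap.injective_iff_surjective_of_finrank_eq_finrank (le_antisymm h1 h)).1 hy
    let e := LinearEquiv.ofBijective y ⟨hy, h2⟩
    have : Nontrivial U := nontrivial_of_finrank_pos h0
    obtain ⟨μ, hμ⟩ := Module.End.exists_eigenvalue (e.symm.toLinearMap ∘ₗ x : Module.End ℂ U)
    obtain ⟨u, hu⟩ := hμ.exists_hasEigenvector
    refine ⟨u, hu.2, y u, ?_, Submodule.mem_span_singleton_self _⟩
    have h3 : e.symm (x u) = μ • u := hu.apply_eq_smul
    have h4 : x u = μ • y u := by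
      have := congrArg e h3
      rw [e.apply_symm_apply, map_smul] at this
      exact this
    rw [h4]
    exact Submodule.smul_mem _ _ (Submodule.mem_span_singleton_self _)
  · rw [← LinearMap.ker_eq_bot, Submodule.eq_bot_iff] at hy
    push Not at hy
    obtain ⟨u, hu, hu0⟩ := hy
    rw [LinearMap.mem_ker] at hu
    refine ⟨u, hu0, x u, Submodule.mem_span_singleton_self _, ?_⟩
    rw [hu]
    exact Submodule.zero_mem _

/-- Nonzero subrepresentations of generic representations have positive rank. -/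
lemma rk_pos_of_gen {k w u : ℕ} {p : Idx k w u → ℂ} (hp : Gen p) (hkw : k ≤ w) (huw : u < w)
    {A : QRep} (i : Hom A (ofCoord p)) (hi : i.Inj) (hA : A.ty ≠ 0) : 1 ≤ rk A.ty := by
  by_contra hc
  have hb : finrank ℂ A.W ≤ finrank ℂ A.U := by
    simp only [rk, QRep.ty] at hc
    omega
  rcases Nat.eq_zero_or_pos (finrank ℂ A.U) with h0 | h0
  · have h1 : finrank ℂ A.W = 0 := by omega
    have h2 := count_sub hp i hi
    have h3 : A.ty = ((finrank ℂ A.V : ℤ), 0, 0) := by simp [QRep.ty, h0, h1]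
    have h4 : 0 < (finrank ℂ A.V : ℤ) := by
      rcases Nat.eq_zero_or_pos (finrank ℂ A.V) with h5 | h5
      · exfalso; apply hA; rw [h3, h5]; rfl
      · exact_mod_cast h5
    have h6 := hi.tyLE.1
    rw [h3, ty_ofCoord] at h2 h6
    simp only [chi, Prod.mk_sub_mk] at h2 h6
    nlinarith
  · obtain ⟨v0, hv0, z, hz1, hz2⟩ := exists_pencil A.x A.y hb h0
    have hx : ∀ a ∈ Submodule.span ℂ {v0}, A.x a ∈ Submodule.span ℂ {z} := by
      intro a ha
      obtain ⟨c, rfl⟩ := Submodule.mem_span_singleton.1 ha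
      rw [map_smul]
      exact Submodule.smul_mem _ _ hz1
    have hy : ∀ a ∈ Submodule.span ℂ {v0}, A.y a ∈ Submodule.span ℂ {z} := by
      intro a ha
      obtain ⟨c, rfl⟩ := Submodule.mem_span_singleton.1 ha
      rw [map_smul]
      exact Submodule.smul_mem _ _ hz2
    have hf : ∀ a ∈ (⊥ : Submodule ℂ A.V), A.f a ∈ Submodule.span ℂ {z} := by
      intro a ha
      rw [Submodule.mem_bot] at ha
      rw [ha, map_zero]
      exact Submodule.zero_mem _
    have h2 := count_sub hp (i.comp (A.subι ⊥ (Submodule.span ℂ {z}) (Submodule.span ℂ {v0})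
      hf hx hy)) (hi.comp (A.subι_inj _ _ _ _ _ _))
    rw [QRep.ty_sub, finrank_bot, finrank_span_singleton hv0, ty_ofCoord] at h2
    have h3 : finrank ℂ (Submodule.span ℂ {z}) ≤ 1 := by
      have := finrank_span_le_card (R := ℂ) ({z} : Set A.W)
      simpa using this
    have h5 : finrank ℂ (Submodule.span ℂ {z}) = 0 ∨ finrank ℂ (Submodule.span ℂ {z}) = 1 := by
      omega
    have h7 : (u : ℤ) < w := by exact_mod_cast huw
    rcases h5 with h5 | h5
    · rw [h5] at h2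
      simp only [chi, Prod.mk_sub_mk] at h2
      push_cast at h2
      linarith
    · rw [h5] at h2
      simp only [chi, Prod.mk_sub_mk] at h2
      push_cast at h2
      linarith

/-- The line bundle `𝒪(e)`. -/
lemma exists_line (e : ℕ) : ∃ L : QRep, L.ty = (0, (e : ℤ) + 1, (e : ℤ)) ∧
    ∀ α : ℝ, Semistable α L := by
  obtain ⟨p, hp⟩ := exists_algInd (Idx 0 (e + 1) e)
  have hty : (ofCoord p).ty = (0, (e : ℤ) + 1, (e : ℤ)) := by rw [ty_ofCoord]; simp
  refine ⟨ofCoord p, hty, ?_⟩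
  intro α A i hi
  by_cases hA : A.ty = 0
  · rw [hA]; simp [cr, lam, rk]
  have h1 := rk_pos_of_gen hp (Nat.zero_le _) (Nat.lt_succ_self e) i hi hA
  have h2 := hi.tyLE
  have h3 := A.pos
  rw [hty] at h2 ⊢
  obtain ⟨a, b, c⟩ := h2
  obtain ⟨a', b', c'⟩ := h3
  simp only at a b c
  have h4 : A.ty.1 = 0 := le_antisymm a a'
  simp only [cr, lam, h4]
  have h5 : (A.ty.2.2 : ℝ) ≤ e := by exact_mod_cast c
  have h6 : (1 : ℝ) ≤ rk A.ty := by exact_mod_cast h1
  simp only [rk] at h6 ⊢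
  push_cast at h6 ⊢
  have h7 : (0 : ℝ) ≤ e := Nat.cast_nonneg e
  nlinarith

/-- The representation `ℂ → ℂ ⇇ 0`. -/
noncomputable def PRep : QRep where
  V := ℂ
  W := ℂ
  U := Fin 0 → ℂ
  f := LinearMap.id
  x := 0
  y := 0

lemma ty_PRep : PRep.ty = (1, 1, 0) := by
  show ((finrank ℂ ℂ : ℤ), (finrank ℂ ℂ : ℤ), (finrank ℂ (Fin 0 → ℂ) : ℤ)) = _
  simp

lemma semistable_PRep {α : ℝ} (hα : 0 < α) : Semistable α PRep := by
  intro A i hi
  have h1 : Function.Injective A.f := by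
    intro a b hab
    apply hi.1
    have h2 := i.hf' a
    have h3 := i.hf' b
    rw [hab, h3] at h2
    exact h2.symm
  have h2 : (finrank ℂ A.V : ℝ) ≤ finrank ℂ A.W := by
    exact_mod_cast LinearMap.finrank_le_finrank_of_injective h1
  have h3 := hi.tyLE.2.2
  rw [ty_PRep] at h3 ⊢
  have h4 : finrank ℂ A.U = 0 := by
    simp only [QRep.ty] at h3
    omega
  simp only [cr, lam, rk, QRep.ty, h4]
  push_cast
  nlinarith

end CohP1
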