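import Pool.Agent.Lib_helper87.Coh.TF
import Pool.Agent.Lib_helper87.Coh.Brick

/-!
# Crossing a wall
-/

namespace CohP1

open Module Topology

variable {A B C M N X Y : QRep}

lemma nu_lt_half_iff {α : ℝ} (hα : 0 < α) {p : Ty} (hp : Pos p) (h0 : p ≠ 0) :
    nu α p < 1 / 2 ↔ 1 ≤ rk p := by
  have h1 := rho_pos hα hp h0
  rw [nu, div_lt_div_iff₀ h1 (by norm_num)]
  have h2 : rho α p = rk p + 2 * lam α p := by simp only [rho, rk, lam]; push_cast; ring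
  rw [h2]
  constructor
  · intro h
    have : (0 : ℝ) < rk p := by linarith
    exact_mod_cast this
  · intro h
    have : (1 : ℝ) ≤ rk p := by exact_mod_cast h
    linarith

lemma ne_zero_of_rk {p : Ty} (h : 1 ≤ rk p) : p ≠ 0 := by
  rintro rfl
  simp [rk] at h

lemma rk_pos_of_nu_le {α : ℝ} (hα : 0 < α) {p q : Ty} (hp : Pos p) (h0 : p ≠ 0) (hq : Pos q)
    (h1 : 1 ≤ rk q) (h : nu α p ≤ nu α q) : 1 ≤ rk p :=
  (nu_lt_half_iff hα hp h0).1 (h.trans_lt ((nu_lt_half_iff hα hq (ne_zero_of_rk h1)).2 h1))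

lemma tot_lt_of_tyLE {p q : Ty} (h : TyLE p q) (hne : p ≠ q) : tot p < tot q := by
  obtain ⟨a, b, c⟩ := h
  by_contra hc
  apply hne
  simp only [tot] at hc
  refine Prod.ext ?_ (Prod.ext ?_ ?_) <;> omega

lemma tot_le_of_tyLE {p q : Ty} (h : TyLE p q) : tot p ≤ tot q := by
  obtain ⟨a, b, c⟩ := h
  simp only [tot]
  omega

/-- A stable subobject of a semistable, nonstable object. -/
lemma exists_stable_sub' {α : ℝ} (hα : 0 < α) (hM0 : M.ty ≠ 0) (hM : Semistable α M)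
    (hns : ¬ Stable α M) : ∃ (A : QRep) (i : Hom A M), i.Inj ∧ Stable α A ∧
      nu α A.ty = nu α M.ty ∧ A.ty ≠ M.ty := by
  obtain ⟨A, i, hi, hA, h⟩ := exists_stable_sub hα hM0
  have h1 := (h M (Hom.id M) (Hom.id_inj M) hM0).1
  have h2 := hM.nu_le hα i hi hA.1 hM0
  have h3 : nu α A.ty = nu α M.ty := le_antisymm h2 h1
  refine ⟨A, i, hi, hA, h3, fun he => hns ⟨hM0, fun C j hj hC hCM => ?_⟩⟩
  obtain ⟨h4, h5⟩ := h C j hj hC
  rw [cr_neg_iff hα C.pos hC M.pos hM0]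
  rcases lt_or_eq_of_le h4 with h6 | h6
  · rwa [h3] at h6
  · exfalso
    have h7 := h5 h6
    rw [he] at h7
    have := tot_lt_of_tyLE hj.tyLE hCM
    omega

/-- A stable quotient of a semistable, nonstable object. -/
lemma exists_stable_quot' {α : ℝ} (hα : 0 < α) (hM0 : M.ty ≠ 0) (hM : Semistable α M)
    (hns : ¬ Stable α M) : ∃ (B : QRep) (q : Hom M B), q.Surj ∧ Stable α B ∧
      nu α B.ty = nu α M.ty ∧ B.ty ≠ M.ty := by
  obtain ⟨B, q, hq, hB, h⟩ := exists_stable_quot hα hM0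
  have h1 := (h M (Hom.id M) (Hom.id_surj M) hM0).1
  have h2 := hM.nu_ge hα q hq hB.1 hM0
  have h3 : nu α B.ty = nu α M.ty := le_antisymm h1 h2
  refine ⟨B, q, hq, hB, h3, fun he => hns ⟨hM0, fun C j hj hC hCM => ?_⟩⟩
  have h4 := hM C j hj
  rcases lt_or_eq_of_le h4 with h5 | h5
  · exact h5
  · exfalso
    have hQty : j.coker.ty = M.ty - C.ty := Hom.ty_coker_of_inj hj
    have hQ0 : j.coker.ty ≠ 0 := by
      rw [hQty]
      intro h0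
      exact hCM (sub_eq_zero.1 h0).symm
    have h6 : nu α j.coker.ty = nu α B.ty := by
      rw [h3, ← cr_eq_zero_iff hα j.coker.pos hQ0 M.pos hM0, hQty, cr_sub_left, cr_self, h5,
        sub_zero]
    have h7 := (h _ j.cokerπ j.cokerπ_surj hQ0).2 h6
    rw [hQty, tot_sub, he] at h7
    have := C.pos.tot_pos hC
    omega

/-- Inverse of an isomorphism. -/
noncomputable def Hom.inv (h : Hom M N) (hi : h.Inj) (hs : h.Surj) : Hom N M where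
  v := (LinearEquiv.ofBijective h.v ⟨hi.1, hs.1⟩).symm.toLinearMap
  w := (LinearEquiv.ofBijective h.w ⟨hi.2.1, hs.2.1⟩).symm.toLinearMap
  u := (LinearEquiv.ofBijective h.u ⟨hi.2.2, hs.2.2⟩).symm.toLinearMap
  hf := by
    ext a
    obtain ⟨b, rfl⟩ := hs.1 a
    apply hi.2.1
    have e1 : (LinearEquiv.ofBijective h.v ⟨hi.1, hs.1⟩).symm (h.v b) = b :=
      (LinearEquiv.ofBijective h.v ⟨hi.1, hs.1⟩).symm_apply_apply b
    have e2 : h.w ((LinearEquiv.ofBijective h.w ⟨hi.2.1, hs.2.1⟩).symm (N.f (h.v b))) =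
      N.f (h.v b) := (LinearEquiv.ofBijective h.w ⟨hi.2.1, hs.2.1⟩).apply_symm_apply _
    simp only [LinearMap.comp_apply, LinearEquiv.coe_coe]
    rw [e1, e2, h.hf']
  hx := by
    ext a
    obtain ⟨b, rfl⟩ := hs.2.2 a
    apply hi.2.1
    have e1 : (LinearEquiv.ofBijective h.u ⟨hi.2.2, hs.2.2⟩).symm (h.u b) = b :=
      (LinearEquiv.ofBijective h.u ⟨hi.2.2, hs.2.2⟩).symm_apply_apply b
    have e2 : h.w ((LinearEquiv.ofBijective h.w ⟨hi.2.1, hs.2.1⟩).symm (N.x (h.u b))) =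
      N.x (h.u b) := (LinearEquiv.ofBijective h.w ⟨hi.2.1, hs.2.1⟩).apply_symm_apply _
    simp only [LinearMap.comp_apply, LinearEquiv.coe_coe]
    rw [e1, e2, h.hx']
  hy := by
    ext a
    obtain ⟨b, rfl⟩ := hs.2.2 a
    apply hi.2.1
    have e1 : (LinearEquiv.ofBijective h.u ⟨hi.2.2, hs.2.2⟩).symm (h.u b) = b :=
      (LinearEquiv.ofBijective h.u ⟨hi.2.2, hs.2.2⟩).symm_apply_apply b
    have e2 : h.w ((LinearEquiv.ofBijective h.w ⟨hi.2.1, hs.2.1⟩).symm (N.y (h.u b))) =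
      N.y (h.u b) := (LinearEquiv.ofBijective h.w ⟨hi.2.1, hs.2.1⟩).apply_symm_apply _
    simp only [LinearMap.comp_apply, LinearEquiv.coe_coe]
    rw [e1, e2, h.hy']

lemma Hom.inv_surj (h : Hom M N) (hi : h.Inj) (hs : h.Surj) : (h.inv hi hs).Surj :=
  ⟨(LinearEquiv.ofBijective h.v ⟨hi.1, hs.1⟩).symm.surjective,
    (LinearEquiv.ofBijective h.w ⟨hi.2.1, hs.2.1⟩).symm.surjective,
    (LinearEquiv.ofBijective h.u ⟨hi.2.2, hs.2.2⟩).symm.surjective⟩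

/-- Images of composites `X ↠ A ↪ X`. -/
lemma not_brick {α : ℝ} (hα : 0 < α) (hX : Stable α X) (i : Hom A X) (hi : i.Inj) (hA : A.ty ≠ 0)
    (hAX : A.ty ≠ X.ty) (q : Hom X A) (hq : q.Surj) : False := by
  have hz : ¬ (i.comp q).IsZero := by
    rintro ⟨h1, h2, h3⟩
    apply hA
    have hz1 : ∀ a : A.V, a = 0 := by
      intro a
      obtain ⟨b, rfl⟩ := hq.1 a
      apply hi.1
      rw [map_zero]
      exact LinearMap.congr_fun h1 b
    have hz2 : ∀ a : A.W, a = 0 := by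
      intro a
      obtain ⟨b, rfl⟩ := hq.2.1 a
      apply hi.2.1
      rw [map_zero]
      exact LinearMap.congr_fun h2 b
    have hz3 : ∀ a : A.U, a = 0 := by
      intro a
      obtain ⟨b, rfl⟩ := hq.2.2 a
      apply hi.2.2
      rw [map_zero]
      exact LinearMap.congr_fun h3 b
    have e1 : finrank ℂ A.V = 0 := finrank_zero_iff_forall_zero.2 hz1
    have e2 : finrank ℂ A.W = 0 := finrank_zero_iff_forall_zero.2 hz2
    have e3 : finrank ℂ A.U = 0 := finrank_zero_iff_forall_zero.2 hz3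
    simp [QRep.ty, e1, e2, e3]
  obtain ⟨⟨j1, j2, j3⟩, -⟩ := iso_of_end hα hX hz
  have hqi : q.Inj := ⟨fun a b hab => j1 (congrArg i.v hab), fun a b hab => j2 (congrArg i.w hab),
    fun a b hab => j3 (congrArg i.u hab)⟩
  have h4 := hqi.tyLE
  have h5 := hi.tyLE
  have := tot_lt_of_tyLE h5 hAX
  have := tot_le_of_tyLE h4
  omega

/-- The trichotomy at a wall. -/
lemma wall_trichotomy {α β : ℝ} (hα : 0 < α) (hβ : 0 < β) {k w u : ℕ} {p : Idx k w u → ℂ}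
    (hp : Gen p) (hXα : Stable α (ofCoord p)) (hrk : 1 ≤ rk (ofCoord p).ty)
    (hXβ : Semistable β (ofCoord p)) (hns : ¬ Stable β (ofCoord p)) :
    (∃ (A : QRep) (i : Hom A (ofCoord p)), i.Inj ∧ Stable β A ∧
      nu β A.ty = nu β (ofCoord p).ty ∧ A.ty ≠ (ofCoord p).ty ∧ chi A.ty A.ty ≤ 0) ∨
    (∃ (B : QRep) (q : Hom (ofCoord p) B), q.Surj ∧ Stable β B ∧
      nu β B.ty = nu β (ofCoord p).ty ∧ B.ty ≠ (ofCoord p).ty ∧ chi B.ty B.ty ≤ 0) ∨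
    (∃ (A : QRep) (i : Hom A (ofCoord p)) (B : QRep) (q : Hom (ofCoord p) B), i.Inj ∧ q.Surj ∧
      Stable β A ∧ Stable β B ∧ nu β A.ty = nu β (ofCoord p).ty ∧
      nu β B.ty = nu β (ofCoord p).ty ∧ A.ty ≠ (ofCoord p).ty ∧ B.ty ≠ (ofCoord p).ty ∧
      chi A.ty A.ty = 1 ∧ chi B.ty B.ty = 1 ∧ chi A.ty B.ty = 0) := by
  set X := ofCoord p with hX
  have hX0 : X.ty ≠ 0 := hXα.1
  obtain ⟨A, i, hi, hA, hnA, hAX⟩ := exists_stable_sub' hβ hX0 hXβ hns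
  obtain ⟨B, q, hq, hB, hnB, hBX⟩ := exists_stable_quot' hβ hX0 hXβ hns
  have cA := chi_le_one hβ hA
  have cB := chi_le_one hβ hB
  by_cases h1 : chi A.ty A.ty ≤ 0
  · exact Or.inl ⟨A, i, hi, hA, hnA, hAX, h1⟩
  by_cases h2 : chi B.ty B.ty ≤ 0
  · exact Or.inr (Or.inl ⟨B, q, hq, hB, hnB, hBX, h2⟩)
  have h1' : chi A.ty A.ty = 1 := by omega
  have h2' : chi B.ty B.ty = 1 := by omega
  refine Or.inr (Or.inr ⟨A, i, B, q, hi, hq, hA, hB, hnA, hnB, hAX, hBX, h1', h2', ?_⟩)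
  have hAB : HomZero A B := by
    intro h
    by_contra hz
    obtain ⟨e1, e2⟩ := iso_of_stable hβ hA hB hz (by rw [hnA, hnB])
    exact not_brick hα hXα i hi hA.1 hAX ((h.inv e1 e2).comp q) ((h.inv_surj e1 e2).comp hq)
  have hAX' : 1 ≤ chi A.ty X.ty := by
    have := count_sub hp i hi
    rw [chi_sub_right, h1'] at this
    linarith
  have hXB : 1 ≤ chi X.ty B.ty := by
    have := count_sub hp q.kerι q.kerι_inj
    rw [Hom.ty_ker_of_surj hq, sub_sub_cancel, chi_sub_left, h2'] at this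
    linarith
  exact chi_eq_zero_of_real (rk_pos_of_nu_le hβ A.pos hA.1 X.pos hrk hnA.le)
    (rk_pos_of_nu_le hβ B.pos hB.1 X.pos hrk hnB.le) hrk
    ((cr_eq_zero_iff hβ A.pos hA.1 X.pos hX0).2 hnA)
    ((cr_eq_zero_iff hβ B.pos hB.1 X.pos hX0).2 hnB) h1' h2' hAB.chi_nonpos hAX' hXB

/-- Kernels of quotients of the same phase. -/
lemma ker_phase {β : ℝ} (hβ : 0 < β) (hX : Semistable β X) (hX0 : X.ty ≠ 0) (q : Hom X B)
    (hq : q.Surj) (hB0 : B.ty ≠ 0) (hnB : nu β B.ty = nu β X.ty) (hBX : B.ty ≠ X.ty) :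
    q.ker.ty ≠ 0 ∧ nu β q.ker.ty = nu β X.ty ∧ Semistable β q.ker := by
  have h1 : q.ker.ty = X.ty - B.ty := Hom.ty_ker_of_surj hq
  have h2 : q.ker.ty ≠ 0 := by
    rw [h1]; intro h; exact hBX (sub_eq_zero.1 h).symm
  have h3 : nu β q.ker.ty = nu β X.ty := by
    rw [← cr_eq_zero_iff hβ q.ker.pos h2 X.pos hX0, h1, cr_sub_left, cr_self,
      (cr_eq_zero_iff hβ B.pos hB0 X.pos hX0).2 hnB, sub_zero]
  exact ⟨h2, h3, hX.of_sub hβ q.kerι q.kerι_inj h2 h3⟩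

/-- Cokernels of subobjects of the same phase. -/
lemma coker_phase {β : ℝ} (hβ : 0 < β) (hX : Semistable β X) (hX0 : X.ty ≠ 0) (i : Hom A X)
    (hi : i.Inj) (hA0 : A.ty ≠ 0) (hnA : nu β A.ty = nu β X.ty) (hAX : A.ty ≠ X.ty) :
    i.coker.ty ≠ 0 ∧ nu β i.coker.ty = nu β X.ty ∧ Semistable β i.coker := by
  have h1 : i.coker.ty = X.ty - A.ty := Hom.ty_coker_of_inj hi
  have h2 : i.coker.ty ≠ 0 := by
    rw [h1]; intro h; exact hAX (sub_eq_zero.1 h).symm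
  have h3 : nu β i.coker.ty = nu β X.ty := by
    rw [← cr_eq_zero_iff hβ i.coker.pos h2 X.pos hX0, h1, cr_sub_left, cr_self,
      (cr_eq_zero_iff hβ A.pos hA0 X.pos hX0).2 hnA, sub_zero]
  exact ⟨h2, h3, hX.of_quot hβ i.cokerπ i.cokerπ_surj h2 hX0 h3⟩

/-- One step of the wall crossing argument. -/
lemma wall_step {α β : ℝ} (hα : 0 < α) (hβ : 0 < β) {k w u : ℕ} {p : Idx k w u → ℂ} (hp : Gen p)
    {k' w' u' : ℕ} {q : Idx k' w' u' → ℂ} (hq : Gen q)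
    (hXα : Stable α (ofCoord p)) (hYα : Stable α (ofCoord q))
    (hXn : chi (ofCoord p).ty (ofCoord p).ty ≤ 0) (hYn : chi (ofCoord q).ty (ofCoord q).ty ≤ 0)
    (rX : 1 ≤ rk (ofCoord p).ty) (rY : 1 ≤ rk (ofCoord q).ty)
    (hXβ : Semistable β (ofCoord p)) (hYβ : Semistable β (ofCoord q))
    (hcr : 0 < cr β (ofCoord p).ty (ofCoord q).ty) (hchi : chi (ofCoord p).ty (ofCoord q).ty = 0)
    (hnot : ¬ (Stable β (ofCoord p) ∧ Stable β (ofCoord q)))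
    (IH : ∀ X₁ Y₁ : QRep, Stable β X₁ → Stable β Y₁ → chi X₁.ty X₁.ty ≤ 0 → chi Y₁.ty Y₁.ty ≤ 0 →
      1 ≤ rk X₁.ty → 1 ≤ rk Y₁.ty → 0 < cr β X₁.ty Y₁.ty →
      tot X₁.ty + tot Y₁.ty < tot (ofCoord p).ty + tot (ofCoord q).ty → chi X₁.ty Y₁.ty < 0) :
    False := by
  set X := ofCoord p with hX
  set Y := ofCoord q with hY
  have hX0 : X.ty ≠ 0 := hXα.1
  have hY0 : Y.ty ≠ 0 := hYα.1
  have hnu : nu β Y.ty < nu β X.ty := (cr_pos_iff hβ X.pos hX0 Y.pos hY0).1 hcr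
  have hHom : HomZero X Y := homZero_of_nu_lt hβ hXβ hYβ hnu
  have hExt : ExtZero X Y := hHom.extZero hchi.ge
  have quotX : ∀ (B : QRep) (r : Hom X B), r.Surj → Stable β B → nu β B.ty = nu β X.ty →
      B.ty ≠ X.ty → HomZero B Y ∧ chi B.ty Y.ty = 0 := by
    intro B r hr hB hnB hBX
    obtain ⟨h1, h2, h3⟩ := ker_phase hβ hXβ hX0 r hr hB.1 hnB hBX
    have h4 : HomZero r.ker Y := homZero_of_nu_lt hβ h3 hYβ (by rw [h2]; exact hnu)
    have h5 : chi r.ker.ty Y.ty = 0 := h4.chi_eq_zero (hExt.of_inj r.kerι r.kerι_inj)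
    rw [Hom.ty_ker_of_surj hr, chi_sub_left, hchi] at h5
    exact ⟨homZero_of_nu_lt hβ hB.semistable hYβ (by rw [hnB]; exact hnu), by linarith⟩
  obtain ⟨X₁, hX₁, hnX₁, cX₁, tX₁, tX₁', hExt₁⟩ : ∃ X₁ : QRep, Stable β X₁ ∧
      nu β X₁.ty = nu β X.ty ∧ chi X₁.ty X₁.ty ≤ 0 ∧ tot X₁.ty ≤ tot X.ty ∧
      (¬ Stable β X → tot X₁.ty < tot X.ty) ∧ ExtZero X₁ Y := by
    by_cases hs : Stable β X
    · exact ⟨X, hs, rfl, hXn, le_rfl, fun h => absurd hs h, hExt⟩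
    · rcases wall_trichotomy hα hβ hp hXα rX hXβ hs with
        ⟨A, i, hi, hA, hnA, hAX, cA⟩ | ⟨B, r, hr, hB, hnB, hBX, cB⟩ |
        ⟨A, i, B, r, hi, hr, hA, hB, hnA, hnB, hAX, hBX, cA, cB, cAB⟩
      · exact ⟨A, hA, hnA, cA, tot_le_of_tyLE hi.tyLE, fun _ => tot_lt_of_tyLE hi.tyLE hAX,
          hExt.of_inj i hi⟩
      · obtain ⟨h1, h2⟩ := quotX B r hr hB hnB hBX
        exact ⟨B, hB, hnB, cB, tot_le_of_tyLE hr.tyLE, fun _ => tot_lt_of_tyLE hr.tyLE hBX,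
          h1.extZero h2.ge⟩
      · exfalso
        obtain ⟨h1, h2⟩ := quotX B r hr hB hnB hBX
        have h3 : chi A.ty Y.ty = 0 :=
          (homZero_of_nu_lt hβ hA.semistable hYβ (by rw [hnA]; exact hnu)).chi_eq_zero
            (hExt.of_inj i hi)
        exact hY0 (eq_zero_of_gram cA cB cAB h3 h2 hYn)
  have hnu₁ : nu β Y.ty < nu β X₁.ty := by rw [hnX₁]; exact hnu
  have rX₁ : 1 ≤ rk X₁.ty := rk_pos_of_nu_le hβ X₁.pos hX₁.1 X.pos rX hnX₁.le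
  have hchi₁ : chi X₁.ty Y.ty = 0 :=
    (homZero_of_nu_lt hβ hX₁.semistable hYβ hnu₁).chi_eq_zero hExt₁
  have subY : ∀ (A : QRep) (i : Hom A Y), i.Inj → Stable β A → nu β A.ty = nu β Y.ty →
      A.ty ≠ Y.ty → chi X₁.ty A.ty = 0 := by
    intro A i hi hA hnA hAY
    obtain ⟨h1, h2, h3⟩ := coker_phase hβ hYβ hY0 i hi hA.1 hnA hAY
    have h4 : HomZero X₁ i.coker := homZero_of_nu_lt hβ hX₁.semistable h3 (by rw [h2]; exact hnu₁)
    have h5 := h4.chi_eq_zero (hExt₁.of_surj i.cokerπ i.cokerπ_surj)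
    rw [Hom.ty_coker_of_inj hi, chi_sub_right, hchi₁] at h5
    linarith
  obtain ⟨Y₁, hY₁, hnY₁, cY₁, tY₁, tY₁', hchi₂⟩ : ∃ Y₁ : QRep, Stable β Y₁ ∧
      nu β Y₁.ty = nu β Y.ty ∧ chi Y₁.ty Y₁.ty ≤ 0 ∧ tot Y₁.ty ≤ tot Y.ty ∧
      (¬ Stable β Y → tot Y₁.ty < tot Y.ty) ∧ 0 ≤ chi X₁.ty Y₁.ty := by
    by_cases hs : Stable β Y
    · exact ⟨Y, hs, rfl, hYn, le_rfl, fun h => absurd hs h, hchi₁.ge⟩
    · rcases wall_trichotomy hα hβ hq hYα rY hYβ hs with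
        ⟨A, i, hi, hA, hnA, hAY, cA⟩ | ⟨B, r, hr, hB, hnB, hBY, cB⟩ |
        ⟨A, i, B, r, hi, hr, hA, hB, hnA, hnB, hAY, hBY, cA, cB, cAB⟩
      · exact ⟨A, hA, hnA, cA, tot_le_of_tyLE hi.tyLE, fun _ => tot_lt_of_tyLE hi.tyLE hAY,
          (subY A i hi hA hnA hAY).ge⟩
      · exact ⟨B, hB, hnB, cB, tot_le_of_tyLE hr.tyLE, fun _ => tot_lt_of_tyLE hr.tyLE hBY,
          (hExt₁.of_surj r hr).chi_nonneg⟩
      · exfalso
        have h1 := subY A i hi hA hnA hAY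
        have h2 : chi X₁.ty B.ty = 0 :=
          (homZero_of_nu_lt hβ hX₁.semistable hB.semistable (by rw [hnB]; exact hnu₁)).chi_eq_zero
            (hExt₁.of_surj r hr)
        exact hX₁.1 (eq_zero_of_gram' cA cB cAB h1 h2 cX₁)
  have rY₁ : 1 ≤ rk Y₁.ty := rk_pos_of_nu_le hβ Y₁.pos hY₁.1 Y.pos rY hnY₁.le
  have hcr₁ : 0 < cr β X₁.ty Y₁.ty := by
    rw [cr_pos_iff hβ X₁.pos hX₁.1 Y₁.pos hY₁.1, hnY₁]
    exact hnu₁
  have htot : tot X₁.ty + tot Y₁.ty < tot X.ty + tot Y.ty := by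
    by_cases hs : Stable β X
    · have := tY₁' fun h => hnot ⟨hs, h⟩
      omega
    · have := tX₁' hs
      omega
  have := IH X₁ Y₁ hX₁ hY₁ cX₁ cY₁ rX₁ rY₁ hcr₁ htot
  omega

end CohP1
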